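import Pool.Agent.MP_fcd29e_an.H81.Spec

/-! A closed homogeneous form without residue is closed across the origin. -/

set_option autoImplicit false

open MeasureTheory Complex Set Filter Topology Metric
open scoped ContDiff ComplexConjugate ENNReal NNReal

namespace Pool.Agent.MP_fcd29e_an.H81

variable {N : ℕ}

theorem prim {κ : ℝ → ℝ} (hκ : Kap κ) : ∃ (K : ℝ → ℝ) (c : ℝ), 0 < c ∧ ContDiff ℝ ∞ K ∧
    (∀ s, HasDerivAt K (κ s) s) ∧ (∀ s ≤ 1, K s = 0) ∧ (∀ s, 4 ≤ s → K s = c) ∧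
    ∀ s, 0 ≤ K s ∧ K s ≤ c := by
  have hc := hκ.smooth.continuous
  have hd : ∀ s, HasDerivAt (fun s => ∫ x in (1 : ℝ)..s, κ x) (κ s) s := fun s =>
    intervalIntegral.integral_hasDerivAt_right (hc.intervalIntegrable _ _)
      (hc.stronglyMeasurableAtFilter _ _) hc.continuousAt
  have hz : ∀ s, s ≤ 1 ∨ 4 ≤ s → κ s = 0 := fun s hs => by
    by_contra h
    have := hκ.supp s h
    rcases hs with hs | hs <;> linarith [this.1, this.2]
  have h1 : ∀ s ≤ 1, ∫ x in (1 : ℝ)..s, κ x = 0 := fun s hs => by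
    rw [intervalIntegral.integral_congr (g := fun _ => 0), intervalIntegral.integral_zero]
    intro x hx
    rw [uIcc_of_ge hs] at hx
    exact hz x (Or.inl hx.2)
  have h4 : ∀ s, 4 ≤ s → ∫ x in (1 : ℝ)..s, κ x = ∫ x in (1 : ℝ)..4, κ x := fun s hs => by
    rw [← intervalIntegral.integral_add_adjacent_intervals (b := 4) (hc.intervalIntegrable _ _)
      (hc.intervalIntegrable _ _),
      intervalIntegral.integral_congr (a := 4) (g := fun _ => 0), intervalIntegral.integral_zero,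
      add_zero]
    intro x hx
    rw [uIcc_of_le hs] at hx
    exact hz x (Or.inr hx.1)
  have hm : Monotone fun s => ∫ x in (1 : ℝ)..s, κ x :=
    monotone_of_deriv_nonneg (fun s => (hd s).differentiableAt) fun s => by
      rw [(hd s).deriv]; exact hκ.nonneg s
  refine ⟨_, _, ?_, ?_, hd, h1, h4, fun s => ⟨?_, ?_⟩⟩
  · exact intervalIntegral.intervalIntegral_pos_of_pos_on (hc.intervalIntegrable _ _)
      (fun x hx => hκ.pos x hx.1 hx.2) (by norm_num)
  · refine contDiff_infty_iff_deriv.2 ⟨fun s => (hd s).differentiableAt, ?_⟩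
    rw [show deriv (fun s => ∫ x in (1 : ℝ)..s, κ x) = κ from funext fun s => (hd s).deriv]
    exact hκ.smooth
  · rw [← h1 (min s 1) (min_le_right _ _)]
    exact hm (min_le_left _ _)
  · rw [← h4 (max s 4) (le_max_right _ _)]
    exact hm (le_max_left _ _)

theorem shell_test {f : E N → ℂ} {a b : ℝ} (ha : 0 < a)
    (h : ∀ z, f z ≠ 0 → a ≤ ‖z‖ ∧ ‖z‖ ≤ b) : HasCompactSupport f ∧ tsupport f ⊆ E0 N := by
  have hcl : IsClosed {z : E N | a ≤ ‖z‖ ∧ ‖z‖ ≤ b} :=
    (isClosed_le continuous_const continuous_norm).inter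
      (isClosed_le continuous_norm continuous_const)
  have hs : tsupport f ⊆ {z : E N | a ≤ ‖z‖ ∧ ‖z‖ ≤ b} := closure_minimal h hcl
  refine ⟨(isCompact_closedBall 0 b).of_isClosed_subset (isClosed_tsupport f) fun z hz => ?_,
    fun z hz h0 => ?_⟩
  · simpa using (hs hz).2
  · have := (hs hz).1
    rw [mem_singleton_iff.1 h0, norm_zero] at this
    linarith

theorem ori (L : Lv0) : StmtORI := by
  intro N q m g κ hκ hg h1 h2 hD hF Ψ C hΨ hC J
  have hN : 1 ≤ N := (J 0).pos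
  have : Nonempty (Fin N) := ⟨J 0⟩
  have hae : ∀ᵐ y : E N, y ≠ 0 := Measure.ae_ne _ _
  have hE : ∀ f : E N → ℂ, ∫ z in E0 N, f z = ∫ z, f z := fun f => by
    rw [restrict_compl_singleton]
  obtain ⟨K, c, hc, hK, hKd, hK1, hK4, hKb⟩ := prim hκ
  obtain ⟨T1, T2, -⟩ := L.t1 N (E0 N) isOpen_E0 (by simp)
  have hC0 : 0 ≤ C := by
    by_contra h
    have := (norm_nonneg _).trans (hC 0).1
    simp at this
    linarith
  set S : E N → ℂ := wd (fun j z => z j) g J with hS
  have hS' : ∀ z, S z = ∑ i : Fin (q + 1), (-1) ^ (i : ℕ) * z (J i) * g (i.removeNth J) z :=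
    fun z => rfl
  have hSL : L2 (E0 N) S := by
    rw [show S = fun z => _ from funext hS']
    exact T2 _ _ _ fun i _ => (T1 _ (hg _).1).2.2.2.2.1 _
      (continuous_const.mul (contDiff_coord (n := 0) _).continuous).continuousOn
  have hΨd : ∀ z, DifferentiableAt ℝ Ψ z := fun z => hΨ.differentiable (by simp) z
  -- the main term
  have hI : ∀ i : Fin (q + 1), Integrable fun z => g (i.removeNth J) z * dzb (J i) Ψ z := by
    intro i
    have hDI : DI (g (i.removeNth J)) :=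
      (L.t3.2 N).2.1 m (-q) _ (hg _).1 (hg _).2 (by omega) (by omega)
    have hcont : Continuous (dzb (J i) Ψ) := continuous_iff_continuousAt.2 fun z =>
      (contDiffAt_dzb (J i) hΨ.contDiffAt).continuousAt
    refine (hDI.norm.const_mul C).mono'
      (((L.t3.2 N).2.2 _ hDI).aestronglyMeasurable.mul hcont.aestronglyMeasurable)
      (Eventually.of_forall fun z => ?_)
    have e1 : ‖dzb (J i) Ψ z‖ ≤ ‖fderiv ℝ Ψ z‖ := by
      have a1 := (fderiv ℝ Ψ z).le_opNorm (ee (J i))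
      have a2 := (fderiv ℝ Ψ z).le_opNorm (I • ee (J i))
      have a3 : ‖(ee (J i) : E N)‖ = 1 := by simp [ee]
      rw [norm_smul, norm_I, a3] at a2
      rw [a3] at a1
      have a4 := norm_add_le (fderiv ℝ Ψ z (ee (J i))) (I * fderiv ℝ Ψ z (I • ee (J i)))
      rw [norm_mul, norm_I] at a4
      rw [dzb, norm_div, Complex.norm_ofNat]
      linarith
    have hp : 0 < (1 + ‖z‖) ^ (2 * N - 1) := by positivity
    rw [norm_mul, norm_div, Complex.norm_real, Real.norm_of_nonneg hp.le]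
    calc _ ≤ ‖g (i.removeNth J) z‖ * (C / (1 + ‖z‖) ^ (2 * N - 1)) :=
          mul_le_mul_of_nonneg_left (e1.trans (hC z).2) (norm_nonneg _)
      _ = _ := by ring
  set A : E N → ℂ := fun z =>
    ∑ i : Fin (q + 1), (-1) ^ (i : ℕ) * (g (i.removeNth J) z * dzb (J i) Ψ z) with hA
  have hAI : Integrable A := integrable_finsetSum _ fun i _ => (hI i).const_mul _
  -- the cut-off at scale `t`
  set k : ℝ → E N → ℂ := fun t => cx fun z => K (‖z‖ ^ 2 / t ^ 2) with hk
  set e : ℝ → E N → ℂ := fun t z => Ψ z * ((κ (‖z‖ ^ 2 / t ^ 2) / t ^ 2 : ℝ) : ℂ) with he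
  have hn : ContDiff ℝ ∞ fun z : E N => ‖z‖ ^ 2 := contDiff_norm_sq ℝ
  have hks : ∀ t, ContDiff ℝ ∞ (k t) := fun t =>
    ofRealCLM.contDiff.comp (hK.comp (hn.div_const _))
  have hkd : ∀ t j z, dzb j (k t) z = ((κ (‖z‖ ^ 2 / t ^ 2) / t ^ 2 : ℝ) : ℂ) * z j := by
    intro t j z
    have := ((hKd (‖z‖ ^ 2 / t ^ 2)).comp (‖z‖ ^ 2) ((hasDerivAt_id (‖z‖ ^ 2)).div_const (t ^ 2)))
    have := dzb_comp_real j (hn.differentiable (by simp) z) this
    rw [dzb_normSq, mul_one_div] at this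
    exact this
  have hsh : ∀ t > 0, ∀ z : E N, κ (‖z‖ ^ 2 / t ^ 2) ≠ 0 → t ≤ ‖z‖ ∧ ‖z‖ ≤ 2 * t := by
    intro t ht z hz
    obtain ⟨a1, a2⟩ := hκ.supp _ hz
    rw [lt_div_iff₀ (by positivity)] at a1
    rw [div_lt_iff₀ (by positivity)] at a2
    exact ⟨by nlinarith [norm_nonneg z], by nlinarith [norm_nonneg z]⟩
  have heI : ∀ t > 0, Integrable fun z => S z * e t z := by
    intro t ht
    obtain ⟨a1, a2⟩ := shell_test (f := e t) (b := 2 * t) ht fun z hz =>
      hsh t ht z fun h => hz (by simp [he, h])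
    exact ((T1 S hSL).2.2.1 _ (hΨ.continuous.mul (continuous_ofReal.comp
      ((hκ.smooth.continuous.comp (hn.continuous.div_const _)).div_const _))) a1 a2).1
  have hκI : Integrable fun z => (κ (‖z‖ ^ 2) : ℂ) * S z := by
    obtain ⟨a1, a2⟩ := shell_test (f := fun z : E N => (κ (‖z‖ ^ 2) : ℂ)) (b := 2 * 1) one_pos
      fun z hz => hsh 1 one_pos z fun h => hz (by simpa using h)
    exact ((T1 S hSL).2.2.1 _ (continuous_ofReal.comp
      (hκ.smooth.continuous.comp hn.continuous)) a1 a2).1.congr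
        (Eventually.of_forall fun z => mul_comm _ _)
  set M : ℝ := ∫ z, ‖(κ (‖z‖ ^ 2) : ℂ) * S z‖ with hM
  have hM0 : 0 ≤ M := integral_nonneg fun _ => norm_nonneg _
  -- scaling
  have hsc : ∀ t : ℝ, 0 < t → ∀ (w : ℂ) (B : ℝ),
      (∀ x : E N, 1 ≤ ‖x‖ → ‖x‖ ≤ 2 → ‖Ψ ((t : ℂ) • x) - w‖ ≤ B) →
      ‖∫ z, S z * e t z‖ ≤ t ^ (2 * N + (m - q) - 1 : ℤ) * (B * M) := by
    intro t ht w B hB
    have ht' : (t : ℂ) ≠ 0 := by exact_mod_cast ht.ne'
    have a0 := (L.t0.1 N t ht').1 fun z => S z * e t z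
    have a1 : ∫ x, S ((t : ℂ) • x) * e t ((t : ℂ) • x) =
        (t : ℂ) ^ (m - q - 1 : ℤ) * ∫ x, (Ψ ((t : ℂ) • x) - w) * ((κ (‖x‖ ^ 2) : ℂ) * S x) := by
      have hΨc : Continuous fun x : E N => Ψ ((t : ℂ) • x) :=
        hΨ.continuous.comp (continuous_const_smul _)
      have b1 : Integrable fun x : E N => Ψ ((t : ℂ) • x) * ((κ (‖x‖ ^ 2) : ℂ) * S x) :=
        hκI.bdd_mul (c := C) hΨc.aestronglyMeasurable (Eventually.of_forall fun x =>
          (hC _).1.trans (div_le_self hC0 (one_le_pow₀ (by linarith [norm_nonneg ((t : ℂ) • x)]))))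
      simp only [sub_mul]
      rw [integral_sub b1 (hκI.const_mul w), integral_const_mul w, hF J, mul_zero, sub_zero,
        ← integral_const_mul]
      refine integral_congr_ae (hae.mono fun x hx => ?_)
      have b2 : S ((t : ℂ) • x) = t * (t : ℂ) ^ (m - q : ℤ) * S x := by
        rw [hS', hS', Finset.mul_sum]
        refine Finset.sum_congr rfl fun i _ => ?_
        rw [(hg _).2 t ht' x hx, conj_ofReal, sub_eq_add_neg, zpow_add₀ ht']
        simp only [PiLp.smul_apply, smul_eq_mul]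
        ring
      have b3 : ‖(t : ℂ) • x‖ ^ 2 / t ^ 2 = ‖x‖ ^ 2 := by
        rw [norm_smul, Complex.norm_real, Real.norm_of_nonneg ht.le]
        field_simp
      simp only [he, b2, b3]
      rw [zpow_sub_one₀ ht']
      push_cast
      field_simp
    have hp : (0 : ℝ) < ‖(t : ℂ)‖ ^ (2 * N) := by
      have := norm_pos_iff.2 ht'
      positivity
    have a2 : ∫ z, S z * e t z = ((‖(t : ℂ)‖ ^ (2 * N) : ℝ) : ℂ) * ((t : ℂ) ^ (m - q - 1 : ℤ) *
        ∫ x, (Ψ ((t : ℂ) • x) - w) * ((κ (‖x‖ ^ 2) : ℂ) * S x)) := by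
      rw [← a1, a0, mul_inv_cancel_left₀ (by exact_mod_cast hp.ne')]
    have a3 : ‖∫ x, (Ψ ((t : ℂ) • x) - w) * ((κ (‖x‖ ^ 2) : ℂ) * S x)‖ ≤ B * M := by
      rw [hM, ← integral_const_mul]
      refine norm_integral_le_of_norm_le (hκI.norm.const_mul B) (Eventually.of_forall fun x => ?_)
      by_cases hx : κ (‖x‖ ^ 2) = 0
      · simp [hx]
      · obtain ⟨b1, b2⟩ := hsh 1 one_pos x (by simpa using hx)
        rw [norm_mul]
        exact mul_le_mul_of_nonneg_right (hB x b1 (by linarith)) (norm_nonneg _)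
    rw [a2, norm_mul, norm_mul, Complex.norm_real, Real.norm_of_nonneg hp.le, norm_zpow,
      Complex.norm_real, Real.norm_of_nonneg ht.le, ← mul_assoc, ← zpow_natCast,
      ← zpow_add₀ ht.ne']
    refine mul_le_mul (le_of_eq ?_) a3 (norm_nonneg _) (by positivity)
    congr 1
    push_cast
    ring
  have hin : ∀ r : ℝ, 1 ≤ r → ‖∫ z, S z * e r⁻¹ z‖ ≤ 2 * C * M * r⁻¹ := by
    intro r hr
    have ht : 0 < r⁻¹ := by positivity
    have ht1 : r⁻¹ ≤ 1 := inv_le_one_of_one_le₀ hr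
    refine (hsc r⁻¹ ht (Ψ 0) (C * (2 * r⁻¹)) fun x _ hx => ?_).trans ?_
    · have := convex_univ.norm_image_sub_le_of_norm_fderiv_le (𝕜 := ℝ) (f := Ψ) (C := C)
        (fun y _ => hΨd y) (fun y _ => (hC y).2.trans (div_le_self hC0
          (one_le_pow₀ (by linarith [norm_nonneg y])))) (mem_univ 0)
          (mem_univ (((r⁻¹ : ℝ) : ℂ) • x))
      rw [sub_zero, norm_smul, Complex.norm_real, Real.norm_of_nonneg ht.le] at this
      exact this.trans (mul_le_mul_of_nonneg_left (by nlinarith) hC0)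
    · have : r⁻¹ ^ (2 * N + (m - q) - 1 : ℤ) ≤ 1 := zpow_le_one₀ ht ht1 (by omega)
      calc _ ≤ 1 * (C * (2 * r⁻¹) * M) := mul_le_mul_of_nonneg_right this (by positivity)
        _ = _ := by ring
  have hout : ∀ r : ℝ, 1 ≤ r → ‖∫ z, S z * e r z‖ ≤ C * M * r⁻¹ := by
    intro r hr
    have ht : 0 < r := by positivity
    refine (hsc r ht 0 (C / r ^ (2 * N - 1)) fun x hx _ => ?_).trans ?_
    · rw [sub_zero]
      refine (hC _).1.trans (div_le_div_of_nonneg_left hC0 (by positivity)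
        (pow_le_pow_left₀ ht.le ?_ _))
      rw [norm_smul, Complex.norm_real, Real.norm_of_nonneg ht.le]
      nlinarith
    · have a1 : r ^ (2 * N + (m - q) - 1 : ℤ) ≤ r ^ (((2 * N - 1 : ℕ) : ℤ) - 1) :=
        zpow_le_zpow_right₀ hr (by omega)
      rw [zpow_sub_one₀ ht.ne' ((2 * N - 1 : ℕ) : ℤ), zpow_natCast] at a1
      calc _ ≤ r ^ (2 * N - 1) * r⁻¹ * (C / r ^ (2 * N - 1) * M) :=
            mul_le_mul_of_nonneg_right a1 (by positivity)
        _ = _ := by field_simp
  -- the test function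
  have hθb : ∀ r z, ‖(k r⁻¹ z - k r z) * A z‖ ≤ c * ‖A z‖ := by
    intro r z
    rw [norm_mul]
    refine mul_le_mul_of_nonneg_right ?_ (norm_nonneg _)
    simp only [hk, cx]
    rw [← ofReal_sub, Complex.norm_real, Real.norm_eq_abs, abs_le]
    constructor <;> linarith [hKb (‖z‖ ^ 2 / r⁻¹ ^ 2), hKb (‖z‖ ^ 2 / r ^ 2)]
  have hθm : ∀ r, AEStronglyMeasurable (fun z => (k r⁻¹ z - k r z) * A z) volume := fun r =>
    ((hks _).continuous.sub (hks _).continuous).aestronglyMeasurable.mul hAI.aestronglyMeasurable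
  have hid : ∀ r : ℝ, 1 ≤ r →
      ∫ z, (k r⁻¹ z - k r z) * A z = (∫ z, S z * e r z) - ∫ z, S z * e r⁻¹ z := by
    intro r hr
    have ht : 0 < r := by positivity
    have ht' : 0 < r⁻¹ := by positivity
    have ht1 : r⁻¹ ≤ r := (inv_le_one_of_one_le₀ hr).trans hr
    obtain ⟨a1, a2⟩ := shell_test (f := fun z => (k r⁻¹ z - k r z) * Ψ z) (b := 2 * r) ht'
      fun z hz => by
        by_contra h
        rw [not_and_or, not_le, not_le] at h
        apply hz
        have hz0 := norm_nonneg z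
        simp only [hk, cx]
        rcases h with h | h
        · rw [hK1, hK1, sub_self, zero_mul] <;> rw [div_le_one (by positivity)] <;> nlinarith
        · rw [hK4, hK4, sub_self, zero_mul] <;> rw [le_div_iff₀ (by positivity)] <;> nlinarith
    have a3 := hD J _ ⟨((hks _).sub (hks _)).mul hΨ, a1, a2⟩
    have hθI : Integrable fun z => (k r⁻¹ z - k r z) * A z :=
      (hAI.norm.const_mul c).mono' (hθm r) (Eventually.of_forall (hθb r))
    have a4 : ∀ z, ∑ i : Fin (q + 1), (-1) ^ (i : ℕ) * g (i.removeNth J) z *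
        dzb (J i) (fun z => (k r⁻¹ z - k r z) * Ψ z) z =
        (k r⁻¹ z - k r z) * A z - (S z * e r z - S z * e r⁻¹ z) := by
      intro z
      have d1 := (hks r⁻¹).differentiable (by simp) z
      have d2 := (hks r).differentiable (by simp) z
      simp only [hA, hS', he, Finset.mul_sum, Finset.sum_mul, ← Finset.sum_sub_distrib]
      refine Finset.sum_congr rfl fun i _ => ?_
      rw [dzb_mul _ (d1.fun_sub d2) (hΨd z), dzb_sub _ d1 d2, hkd, hkd]
      ring
    simp only [a4, Pi.zero_apply, zero_mul, integral_zero, neg_zero] at a3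
    have a5 : Integrable fun z => S z * e r z - S z * e r⁻¹ z := (heI r ht).sub (heI _ ht')
    rw [hE, integral_sub hθI a5, integral_sub (heI r ht) (heI _ ht'), sub_eq_zero] at a3
    exact a3
  have hl1 : Tendsto (fun r : ℝ => ∫ z, (k r⁻¹ z - k r z) * A z) atTop (𝓝 (∫ z, c * A z)) := by
    refine tendsto_integral_filter_of_dominated_convergence (fun z => c * ‖A z‖)
      (Eventually.of_forall hθm) (Eventually.of_forall fun r => Eventually.of_forall (hθb r))
      (hAI.norm.const_mul c) (hae.mono fun z hz => ?_)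
    have hz0 := norm_pos_iff.2 hz
    refine tendsto_const_nhds.congr' ?_
    filter_upwards [eventually_ge_atTop ‖z‖, eventually_ge_atTop (2 / ‖z‖)] with r b1 b2
    have hr : 0 < r := hz0.trans_le b1
    rw [div_le_iff₀ hz0] at b2
    simp only [hk, cx]
    rw [hK4, hK1, ofReal_zero, sub_zero]
    · rw [div_le_one (by positivity)]
      nlinarith
    · rw [inv_pow, div_inv_eq_mul]
      nlinarith
  have hl2 : Tendsto (fun r : ℝ => ∫ z, (k r⁻¹ z - k r z) * A z) atTop (𝓝 0) := by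
    have := tendsto_inv_atTop_zero.const_mul (3 * C * M : ℝ)
    rw [mul_zero] at this
    refine squeeze_zero_norm' ?_ this
    filter_upwards [eventually_ge_atTop (1 : ℝ)] with r hr
    rw [hid r hr]
    linarith [norm_sub_le (∫ z, S z * e r z) (∫ z, S z * e r⁻¹ z), hin r hr, hout r hr]
  have := tendsto_nhds_unique hl1 hl2
  rw [integral_const_mul, mul_eq_zero, hA, integral_finsetSum _ fun i _ => (hI i).const_mul _]
    at this
  simpa only [integral_const_mul] using this.resolve_left (by exact_mod_cast hc.ne')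

end Pool.Agent.MP_fcd29e_an.H81
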