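import Pool.Agent.MP_fcd29e_an.H81.PzZorn

/-! Passing to a connected component. -/

set_option autoImplicit false

open Complex Set Filter Topology Metric
open scoped ContDiff Pointwise

namespace Pool.Agent.MP_fcd29e_an.H81.Pz

variable {N : ℕ}

/-- near a point of the closure the domain meets one component only -/
theorem loc (L : StmtC1) {ρ : E N → ℝ} (h : Dom ρ) {p : E N} (h0 : p ≠ 0) (hp : ρ p ≤ 0) :
    ∃ q ∈ Om ρ, p ∈ closure (connectedComponentIn (Om ρ) q) ∧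
      ∀ᶠ z in 𝓝 p, z ∈ Om ρ → z ∈ connectedComponentIn (Om ρ) q := by
  obtain ⟨v, r, r0, -, hv⟩ := push L h h0 hp
  have hO := (L N ρ h).1
  have v1 : 0 < ‖v‖ + 1 := by positivity
  set t0 : ℝ := r / 2 / (‖v‖ + 1) with ht0
  have t1 : 0 < t0 := by positivity
  have t2 : ∀ t : ℝ, t ≤ t0 → t * ‖v‖ ≤ r / 2 := fun t ht => by
    have : t0 * (‖v‖ + 1) = r / 2 := div_mul_cancel₀ _ v1.ne'
    nlinarith [mul_le_mul_of_nonneg_right ht (norm_nonneg v)]
  have hq : ∀ t : ℝ, 0 < t → t ≤ t0 → p - t • v ∈ Om ρ := fun t a b =>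
    hv p hp t a (by rw [sub_self, norm_zero]; linarith [t2 t b])
  obtain ⟨η, η0, hη⟩ := Metric.isOpen_iff.1 hO _ (hq t0 t1 le_rfl)
  have key : ∀ z ∈ ball p (min η (r / 2)), z ∈ Om ρ →
      z ∈ connectedComponentIn (Om ρ) (p - t0 • v) := fun z hz hzO => by
    rw [mem_ball, dist_eq_norm, lt_min_iff] at hz
    have s1 : IsPreconnected ((fun t : ℝ => z - t • v) '' Icc 0 t0) :=
      isPreconnected_Icc.image _ (by fun_prop)
    have s2 : z - t0 • v ∈ ball (p - t0 • v) η := by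
      rw [mem_ball, dist_eq_norm, sub_sub_sub_cancel_right]
      exact hz.1
    have s3 := IsPreconnected.union (z - t0 • v)
      (mem_image_of_mem (fun t : ℝ => z - t • v) (right_mem_Icc.2 t1.le)) s2 s1
      (convex_ball _ _).isPreconnected
    refine s3.subset_connectedComponentIn (Or.inr (mem_ball_self η0)) (union_subset ?_ hη)
      (Or.inl ⟨0, left_mem_Icc.2 t1.le, by simp⟩)
    rintro _ ⟨t, ht, rfl⟩
    rcases ht.1.eq_or_lt with e | e
    · simpa [← e] using hzO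
    · exact hv z hzO.2.le t e (by linarith [t2 t ht.2, hz.2])
  have ev : ∀ᶠ z in 𝓝 p, z ∈ Om ρ → z ∈ connectedComponentIn (Om ρ) (p - t0 • v) :=
    mem_of_superset (ball_mem_nhds p (lt_min η0 (by positivity))) key
  refine ⟨_, hq t0 t1 le_rfl, ?_, ev⟩
  have hl : Tendsto (fun t : ℝ => p - t • v) (𝓝[>] 0) (𝓝 p) := by
    refine Tendsto.mono_left ?_ nhdsWithin_le_nhds
    exact Continuous.tendsto' (by fun_prop) _ _ (by simp)
  refine mem_closure_of_tendsto hl ?_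
  filter_upwards [hl.eventually ev, Ioc_mem_nhdsGT t1] with t a b
  exact a (hq t b.1 b.2)

theorem cone_cmp {U : Set (E N)} (hU : Cone U) (q : E N) (c : ℂ) (hc : c ≠ 0) (z : E N)
    (hz : z ∈ connectedComponentIn U q) : c • z ∈ connectedComponentIn U q := by
  have zU := connectedComponentIn_subset _ _ hz
  have s1 : IsPreconnected ((fun a : ℂ => a • z) '' {0}ᶜ) :=
    (isConnected_compl_singleton_of_one_lt_rank (by simp) (0 : ℂ)).isPreconnected.image _
      (by fun_prop)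
  rw [connectedComponentIn_eq hz]
  refine s1.subset_connectedComponentIn ⟨1, one_ne_zero, one_smul _ _⟩ ?_ ⟨c, hc, rfl⟩
  rintro _ ⟨a, ha, rfl⟩
  exact hU.2 a ha z zU

theorem inf_smul {A : Set (E N)} (hA : ∀ c : ℂ, c ≠ 0 → ∀ z ∈ A, c • z ∈ A) (c : ℂ) (hc : c ≠ 0)
    (z : E N) : infDist (c • z) A = ‖c‖ * infDist z A := by
  have : c • A = A := by
    ext y
    refine ⟨?_, fun hy => ⟨c⁻¹ • y, hA _ (inv_ne_zero hc) y hy, smul_inv_smul₀ hc y⟩⟩
    rintro ⟨x, hx, rfl⟩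
    exact hA c hc x hx
  rw [← infDist_smul₀ hc, this]

theorem exH {ε : ℝ} (hε : 0 < ε) :
    ∃ g : ℝ → ℝ, ContDiff ℝ ∞ g ∧ (∀ s, 0 < g s) ∧ ∀ s, ε / 2 ≤ s → g s = s := by
  refine ⟨fun s => Real.smoothTransition (4 * s / ε - 1) * s +
    (1 - Real.smoothTransition (4 * s / ε - 1)), by fun_prop, fun s => ?_, fun s hs => ?_⟩
  · rcases le_or_gt s 0 with c | c
    · have : 4 * s / ε ≤ 0 := div_nonpos_of_nonpos_of_nonneg (by linarith) hε.le
      simp [Real.smoothTransition.zero_of_nonpos (show 4 * s / ε - 1 ≤ 0 by linarith)]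
    · have a1 := Real.smoothTransition.nonneg (4 * s / ε - 1)
      have a2 := Real.smoothTransition.le_one (4 * s / ε - 1)
      rcases a1.eq_or_lt with e | e
      · simp [← e]
      · nlinarith [mul_pos e c]
  · have : 2 ≤ 4 * s / ε := by rw [le_div_iff₀ hε]; linarith
    simp [Real.smoothTransition.one_of_one_le (show 1 ≤ 4 * s / ε - 1 by linarith)]

/-- One may assume that the domain is connected. -/
theorem cmp (L : StmtC1) {ρ : E N → ℝ} (h : Dom ρ) {K : Set (E N)} (hK : Fil K)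
    (hρ : ∀ z ∈ K, ρ z ≤ 0) : ∃ (ρ0 : E N → ℝ) (K0 : Set (E N)), Dom ρ0 ∧ IsConnected (Om ρ0) ∧
      Fil K0 ∧ ∀ z ∈ K0, ρ0 z ≤ 0 := by
  have K0 : ∀ z ∈ K, z ≠ 0 := fun z hz e => hK.cone.1 (e ▸ hz)
  obtain ⟨k0, hk0⟩ := hK.ne
  obtain ⟨q, hq, hcl, -⟩ := loc L h (K0 k0 hk0) (hρ k0 hk0)
  have hC := (L N ρ h).2.2.1
  set A := connectedComponentIn (Om ρ) q with hA
  have hAc : IsConnected A := isConnected_connectedComponentIn_iff.2 hq
  have hAO : A ⊆ Om ρ := connectedComponentIn_subset _ _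
  rcases (Om ρ \ A).eq_empty_or_nonempty with e | hB
  · exact ⟨ρ, K, h, (hAO.antisymm (sdiff_eq_empty.1 e)) ▸ hAc, hK, hρ⟩
  set B := Om ρ \ A with hBd
  have cA : ∀ c : ℂ, c ≠ 0 → ∀ z ∈ A, c • z ∈ A := cone_cmp hC q
  have cB : ∀ c : ℂ, c ≠ 0 → ∀ z ∈ B, c • z ∈ B := fun c hc z hz =>
    ⟨hC.2 c hc z hz.1, fun a => hz.2 (by simpa [hc] using cA _ (inv_ne_zero hc) _ a)⟩
  let d : E N → ℝ := fun z => infDist z B - infDist z A
  have dc : Continuous d := (continuous_infDist_pt B).sub (continuous_infDist_pt A)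
  have ds : ∀ c : ℂ, c ≠ 0 → ∀ z, d (c • z) = ‖c‖ * d z := fun c hc z => by
    simp only [d, inf_smul cA c hc, inf_smul cB c hc, mul_sub]
  have di : ∀ z, z ≠ 0 → ρ z ≤ 0 → (z ∈ closure A ∧ 0 < d z ∧ z ∉ closure B) ∨
      (z ∉ closure A ∧ d z < 0) := fun z z0 hz => by
    obtain ⟨q', hq', c1, c2⟩ := loc L h z0 hz
    by_cases c : q' ∈ A
    · rw [← connectedComponentIn_eq c, ← hA] at c1 c2
      have n1 : z ∉ closure B := fun a => by
        obtain ⟨y, y1, y2⟩ := mem_closure_iff_nhds.1 a _ c2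
        exact y2.2 (y1 y2.1)
      refine Or.inl ⟨c1, ?_, n1⟩
      simp only [d, infDist_zero_of_mem_closure c1, sub_zero]
      exact (infDist_pos_iff_notMem_closure hB).1 n1
    · have sb : connectedComponentIn (Om ρ) q' ⊆ B := fun y hy =>
        ⟨connectedComponentIn_subset _ _ hy, fun a => c (by
          rw [hA, connectedComponentIn_eq a, ← connectedComponentIn_eq hy]
          exact mem_connectedComponentIn hq')⟩
      have n1 : z ∉ closure A := fun a => by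
        obtain ⟨y, y1, y2⟩ := mem_closure_iff_nhds.1 a _ c2
        exact (sb (y1 (hAO y2))).2 y2
      refine Or.inr ⟨n1, ?_⟩
      simp only [d, infDist_zero_of_mem_closure (closure_mono sb c1), zero_sub, neg_lt_zero]
      exact (infDist_pos_iff_notMem_closure hAc.nonempty).1 n1
  obtain ⟨ε, ε0, hε⟩ : ∃ ε > 0, ∀ z, z ≠ 0 → d z = 0 → ε ≤ ρ z := by
    have cT : IsCompact (sphere (0 : E N) 1 ∩ d ⁻¹' {0}) :=
      (isCompact_sphere _ _).inter_right (isClosed_singleton.preimage dc)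
    have s0 : ∀ z ∈ sphere (0 : E N) 1 ∩ d ⁻¹' {0}, z ≠ 0 := fun z hz e => by
      simpa [e] using hz.1
    obtain ⟨ε, ε0, hε⟩ := cT.exists_forall_le' (h.smooth.continuousOn.mono s0) (a := 0)
      fun z hz => by
        by_contra! c
        have e : d z = 0 := hz.2
        rcases di z (s0 z hz) c with a | a <;> linarith [a.2]
    refine ⟨ε, ε0, fun z z0 hz => ?_⟩
    have n0 : ((‖z‖ : ℂ)⁻¹) ≠ 0 := by simpa using z0
    rw [← h.inv _ n0 z]
    exact hε _ ⟨by simp [norm_smul, z0], by simp [ds _ n0, hz]⟩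
  obtain ⟨g, g1, g2, g3⟩ := exH ε0
  let ρ0 : E N → ℝ := fun z => if d z < 0 then g (ρ z) else ρ z
  have p1 : ∀ z, 0 < d z → ρ0 =ᶠ[𝓝 z] ρ := fun z hz => by
    filter_upwards [continuousAt_const.eventually_lt dc.continuousAt hz] with y hy
    exact if_neg (not_lt.2 hy.le)
  have p2 : ∀ z, z ≠ 0 → ρ0 z ≤ 0 → 0 < d z ∧ ρ z ≤ 0 ∧ z ∉ closure B := fun z z0 hz => by
    by_cases c : d z < 0
    · exact absurd hz (not_le.2 (by simpa only [ρ0, if_pos c] using g2 (ρ z)))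
    · have e : ρ z ≤ 0 := by simpa only [ρ0, if_neg c] using hz
      exact ((di z z0 e).resolve_right fun a => c a.2).2.imp_right fun a => ⟨e, a⟩
  have sm : ∀ z, z ≠ 0 → ContDiffAt ℝ ∞ ρ z := fun z z0 =>
    h.smooth.contDiffAt (isOpen_E0.mem_nhds z0)
  refine ⟨ρ0, K ∩ {z | 0 < d z}, ⟨fun z z0 => ContDiffAt.contDiffWithinAt ?_, fun c hc z => ?_,
    fun z z0 hz => ?_, fun z z0 hz M hM => ?_, ?_⟩, ?_, ⟨⟨k0, hk0, ?_⟩, ⟨fun a => hK.cone.1 a.1,
    fun c hc z hz => ⟨hK.cone.2 c hc z hz.1, ?_⟩⟩, ?_, fun k hk => ?_⟩, fun z hz => ?_⟩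
  · rcases lt_trichotomy (d z) 0 with c | c | c
    · refine (g1.contDiffAt.comp z (sm z z0)).congr_of_eventuallyEq ?_
      filter_upwards [dc.continuousAt.eventually_lt continuousAt_const c] with y hy
      exact if_pos hy
    · refine (sm z z0).congr_of_eventuallyEq ?_
      filter_upwards [continuousAt_const.eventually_lt (sm z z0).continuousAt
        (show ε / 2 < ρ z by linarith [hε z z0 c])] with y hy
      simp only [ρ0, g3 _ hy.le, ite_self]
    · exact (sm z z0).congr_of_eventuallyEq (p1 z c)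
  · have : d (c • z) < 0 ↔ d z < 0 := by
      rw [ds c hc]
      exact ⟨fun a => neg_of_mul_neg_right a (norm_nonneg c), mul_neg_of_pos_of_neg (by simpa)⟩
    simp only [ρ0, this, h.inv c hc]
  · have e := p1 z (p2 z z0 hz.le).1
    rw [e.fderiv_eq]
    exact h.reg z z0 (e.eq_of_nhds ▸ hz)
  · have e := p1 z (p2 z z0 hz.le).1
    have e' : (fun w => (ρ0 w : ℂ)) =ᶠ[𝓝 z] fun w => (ρ w : ℂ) := e.fun_comp ofReal
    simp only [dz_congr e', dz_congr (dzb_congr' e' _)] at hM ⊢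
    exact h.levi z z0 (e.eq_of_nhds ▸ hz) M hM
  · obtain ⟨z, z0, hz⟩ := h.proper
    refine ⟨z, z0, ?_⟩
    simp only [ρ0]
    split_ifs
    exacts [g2 _, hz]
  · convert hAc using 1
    ext z
    refine ⟨fun a => ?_, fun a => ⟨(hAO a).1, ?_⟩⟩
    · obtain ⟨a1, -, a3⟩ := p2 z a.1 a.2.le
      by_contra c
      exact a3 (subset_closure ⟨⟨a.1, (p1 z a1).eq_of_nhds ▸ a.2⟩, c⟩)
    · have := (di z (hAO a).1 (hAO a).2.le).resolve_right fun b => b.1 (subset_closure a)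
      rw [(p1 z this.2.1).eq_of_nhds]
      exact (hAO a).2
  · exact ((di k0 (K0 k0 hk0) (hρ k0 hk0)).resolve_right fun b => b.1 hcl).2.1
  · change 0 < d (c • z)
    rw [ds c hc]
    exact mul_pos (by simpa) hz.2
  · convert hK.closed.inter (isClosed_le continuous_const dc : IsClosed {z | 0 ≤ d z}) using 1
    ext z
    refine ⟨fun a => ?_, fun a => a.1.imp_right fun b => ⟨b, ?_⟩⟩
    · rcases a with a | a
      · have := ds 2 two_ne_zero 0
        rw [smul_zero, Complex.norm_two] at this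
        exact ⟨Or.inl a, show 0 ≤ d z by rw [a]; linarith⟩
      · exact ⟨Or.inr a.1, show 0 ≤ d z from le_of_lt a.2⟩
    · exact ((di z (K0 z b) (hρ z b)).resolve_right fun c => not_lt.2 a.2 c.2).2.1
  · obtain ⟨r, γ, r0, g4, g5, g6, g7⟩ := hK.disc k hk.1
    refine ⟨r, γ, r0, g4, g5, fun ζ hζ => ⟨g6 hζ, ?_⟩, g7⟩
    refine IsPreconnected.subset_left_of_subset_union (s := γ '' ball 0 r)
      (u := {z | 0 < d z}) (v := {z | d z < 0}) (isOpen_lt continuous_const dc)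
      (isOpen_lt dc continuous_const)
      (disjoint_left.2 fun y (a : 0 < d y) (b : d y < 0) => lt_asymm a b) ?_
      ⟨k, ⟨0, mem_ball_self r0, g5⟩, hk.2⟩
      ((convex_ball (0 : ℂ) r).isPreconnected.image γ g4.continuousOn) ⟨ζ, hζ, rfl⟩
    rintro _ ⟨ξ, hξ, rfl⟩
    exact (di _ (K0 _ (g6 hξ)) (hρ _ (g6 hξ))).imp (fun a => a.2.1) fun a => a.2
  · rw [(p1 z hz.2).eq_of_nhds]
    exact hρ z hz.1

end Pool.Agent.MP_fcd29e_an.H81.Pz
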