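import Pool.Agent.MP_fcd29e_an.H81.PzKos
import Pool.Agent.MP_fcd29e_an.H81.PzCmp
import Pool.Agent.MP_fcd29e_an.H31.Main3

/-! A cone filled with discs in the closure of the domain obstructs the Sobolev estimates. -/

set_option autoImplicit false

open MeasureTheory Complex Set Filter Topology Pool.Agent.MP_fcd29e_an.H31
open scoped ContDiff ComplexConjugate

namespace Pool.Agent.MP_fcd29e_an.H81.Pz

variable {N : ℕ}

theorem exA {x0 x1 : E N} (h0 : x0 ≠ 0) (h1 : ∀ c : ℂ, x1 ≠ c • x0) :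
    ∃ a : E N →L[ℂ] ℂ, a x0 = 1 ∧ a x1 = 0 := by
  obtain ⟨f, f0, f1⟩ := Submodule.exists_le_ker_of_notMem (p := Submodule.span ℂ {x1}) (v := x0)
    fun hm => by
      obtain ⟨c, e⟩ := Submodule.mem_span_singleton.1 hm
      have hc : c ≠ 0 := fun e' => h0 (by rw [← e, e', zero_smul])
      exact h1 c⁻¹ (by rw [← e, inv_smul_smul₀ hc])
  have : f x1 = 0 := f1 (Submodule.mem_span_singleton_self x1)
  exact ⟨(f x0)⁻¹ • LinearMap.toContinuousLinearMap f, by simp [f0], by simp [this]⟩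

theorem exKD {x0 : E N} (a : E N →L[ℂ] ℂ) (a0 : a x0 = 1) :
    ∃ (θ : Fin N → E N → ℂ) (χ : E N → ℂ) (U : Set (E N)),
      KD (fun l z => a z * x0 l) θ χ U ∧ χ x0 = 1 ∧ ∀ z, a z = 0 → χ z = 0 := by
  let om : Fin N → E N → ℂ := fun l z =>
    (∑ j, z j * conj (z j)) * conj (x0 l) - (∑ j, z j * conj (x0 j)) * conj (z l)
  let q : E N → ℂ := fun z => ∑ l, x0 l * om l z
  let t : E N → ℝ := fun z => ‖a z‖ ^ 4 / (‖a z‖ ^ 4 + ‖q z‖ ^ 2)
  have as : ContDiff ℝ ∞ fun z => a z := (a.restrictScalars ℝ).contDiff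
  have cc : ∀ l, ContDiff ℝ ∞ fun z : E N => conj (z l) := fun l =>
    conjCLE.contDiff.comp (contDiff_coord l)
  have os : ∀ l, ContDiff ℝ ∞ (om l) := fun l =>
    ((ContDiff.sum fun j _ => (contDiff_coord j).mul (cc j)).mul contDiff_const).sub
      ((ContDiff.sum fun j _ => (contDiff_coord j).mul contDiff_const).mul (cc l))
  have qs : ContDiff ℝ ∞ q := ContDiff.sum fun l _ => contDiff_const.mul (os l)
  have oh : ∀ z : E N, ∑ l, z l * om l z = 0 := fun z => by
    simp only [om, mul_sub, Finset.sum_sub_distrib, mul_left_comm (z _), ← Finset.mul_sum]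
    ring
  have od : ∀ l (c : ℂ) z, om l (c • z) = c * conj c * om l z := fun l c z => by
    have e1 : ∑ j, c * z j * (conj c * conj (z j)) = c * conj c * ∑ j, z j * conj (z j) := by
      rw [Finset.mul_sum]; exact Finset.sum_congr rfl fun _ _ => by ring
    have e2 : ∑ j, c * z j * conj (x0 j) = c * ∑ j, z j * conj (x0 j) := by
      rw [Finset.mul_sum]; exact Finset.sum_congr rfl fun _ _ => by ring
    simp only [om, PiLp.smul_apply, smul_eq_mul, map_mul, e1, e2]
    ring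
  have qd : ∀ (c : ℂ) z, q (c • z) = c * conj c * q z := fun c z => by
    simp only [q, od, Finset.mul_sum]
    exact Finset.sum_congr rfl fun _ _ => by ring
  have qa : ∀ z, z ≠ 0 → q z = 0 → a z ≠ 0 := fun z hz hq ha => by
    set n := ∑ j, z j * conj (z j) with hn
    set p := ∑ j, z j * conj (x0 j) with hp
    have nr : n = (‖z‖ ^ 2 : ℝ) := (norm_sq_eq z).symm
    have co : ∀ l, conj (om l z) = n * x0 l - conj p * z l := fun l => by
      simp only [om, ← hn, ← hp, map_sub, map_mul, conj_conj]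
      rw [nr, conj_ofReal]
    let w : E N := n • x0 - conj p • z
    have wl : ∀ l, w l = conj (om l z) := fun l => by simp [w, co]
    have w0 : ((‖w‖ ^ 2 : ℝ) : ℂ) = n * q z - conj p * ∑ l, z l * om l z := by
      rw [norm_sq_eq]
      simp only [q, Finset.mul_sum, ← Finset.sum_sub_distrib]
      exact Finset.sum_congr rfl fun l _ => by rw [wl l, conj_conj, co l]; ring
    rw [hq, oh, mul_zero, mul_zero, sub_zero, ofReal_eq_zero, sq_eq_zero_iff, norm_eq_zero] at w0
    have := congrArg a w0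
    simp only [w, map_sub, map_smul, a0, ha, smul_eq_mul, mul_one, mul_zero, sub_zero, map_zero,
      nr, ofReal_eq_zero, sq_eq_zero_iff, norm_eq_zero] at this
    exact hz this
  have dp : ∀ z, z ≠ 0 → 0 < ‖a z‖ ^ 4 + ‖q z‖ ^ 2 := fun z hz => by
    by_cases c : q z = 0
    · have := norm_pos_iff.2 (qa z hz c)
      positivity
    · have := norm_pos_iff.2 c
      positivity
  have ts : ∀ z, z ≠ 0 → ContDiffAt ℝ ∞ t z := fun z hz => by
    have a4 : ContDiff ℝ ∞ fun z => ‖a z‖ ^ 4 := by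
      simpa only [← pow_mul] using (as.norm_sq ℂ).pow 2
    exact a4.contDiffAt.div (a4.add (qs.norm_sq ℂ)).contDiffAt (dp z hz).ne'
  have td : ∀ c : ℂ, c ≠ 0 → ∀ z, t (c • z) = t z := fun c hc z => by
    have c0 : ‖c‖ ^ 4 ≠ 0 := by simpa using hc
    simp only [t, qd, map_smul, smul_eq_mul, norm_mul, norm_conj]
    rw [← mul_div_mul_left (‖a z‖ ^ 4) _ c0]
    congr 1 <;> ring
  have t0 : ∀ z, a z = 0 → t z = 0 := fun z hz => by simp [t, hz]
  have t1 : ∀ z, z ≠ 0 → q z = 0 → t z = 1 := fun z hz hq => by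
    simp [t, hq, qa z hz hq]
  let sT := Real.smoothTransition
  have sc : ∀ (u v : ℝ) z, z ≠ 0 → ContDiffAt ℝ ∞ (fun y => (sT (u * t y + v) : ℂ)) z :=
    fun u v z hz => contDiffAt_cx (Real.smoothTransition.contDiff.contDiffAt.comp z
      ((contDiffAt_const.mul (ts z hz)).add contDiffAt_const))
  have lo : ∀ z, z ≠ 0 → ∀ r, t z < r → ∀ᶠ y in 𝓝 z, t y < r := fun z hz r h =>
    (ts z hz).continuousAt.eventually_lt continuousAt_const h
  have hi : ∀ z, z ≠ 0 → ∀ r, r < t z → ∀ᶠ y in 𝓝 z, r < t y := fun z hz r h =>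
    continuousAt_const.eventually_lt (ts z hz).continuousAt h
  have s0 : ∀ x ≤ (0 : ℝ), sT x = 0 := fun _ => Real.smoothTransition.zero_of_nonpos
  have s1 : ∀ x, (1 : ℝ) ≤ x → sT x = 1 := fun _ => Real.smoothTransition.one_of_one_le
  refine ⟨fun l z => (sT (8 * t z + -1) : ℂ) * (sT (-8 * t z + 7) : ℂ) * (om l z / (a z * q z)),
    fun z => (sT (2 * t z + -(1 / 2)) : ℂ), E0 N ∩ t ⁻¹' (Iio (1 / 4) ∪ Ioi (3 / 4)),
    ⟨fun l => (as.mul contDiff_const).contDiffOn, fun l j z => ?_, fun l c hc z _ => ?_,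
      fun l z hz => ContDiffAt.contDiffWithinAt ?_, fun l c hc z _ => ?_, fun z _ => ?_,
      fun z hz => (sc _ _ z hz).contDiffWithinAt, fun c hc z _ => by simp [td c hc],
      ContinuousOn.isOpen_inter_preimage (fun z hz => (ts z hz).continuousAt.continuousWithinAt)
        isOpen_E0 (isOpen_Iio.union isOpen_Ioi), fun z hz j => ?_, fun z hz hU => ?_⟩, ?_,
    fun z hz => ?_⟩
  · have : HasFDerivAt (fun z => a z * x0 l) (x0 l • a.restrictScalars ℝ) z :=
      (a.restrictScalars ℝ).hasFDerivAt.mul_const (x0 l)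
    simp only [dzb, this.fderiv, smul_apply,
      ContinuousLinearMap.coe_restrictScalars', map_smul, smul_eq_mul]
    linear_combination (x0 l * a (ee j) / 2) * I_mul_I
  · simp [mul_assoc]
  · by_cases c : a z * q z = 0
    · refine (contDiffAt_const (c := (0 : ℂ))).congr_of_eventuallyEq ?_
      rcases mul_eq_zero.1 c with c | c
      · filter_upwards [lo z hz (1 / 8) (by rw [t0 z c]; norm_num)] with y hy
        simp [s0 (8 * t y + -1) (by linarith)]
      · filter_upwards [hi z hz (7 / 8) (by rw [t1 z hz c]; norm_num)] with y hy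
        rw [s0 (-8 * t y + 7) (by linarith)]
        simp
    · exact ((sc _ _ z hz).mul (sc _ _ z hz)).mul
        ((os l).contDiffAt.mul ((as.mul qs).contDiffAt.inv c))
  · have c2 : conj c ≠ 0 := (map_ne_zero _).2 hc
    simp only [td c hc, od, qd, map_smul, smul_eq_mul, zpow_neg, zpow_one, zpow_zero]
    field_simp
  · simp only [mul_left_comm (z _), mul_div_assoc', ← Finset.sum_div, ← Finset.mul_sum, oh]
    simp
  · rcases hz.2 with c | c
    · rw [dzb_congr (g := fun _ => 0) _ j, dzb_const]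
      filter_upwards [lo z hz.1 _ c] with y hy
      rw [s0 _ (by linarith), ofReal_zero]
    · rw [dzb_congr (g := fun _ => 1) _ j, dzb_const]
      filter_upwards [hi z hz.1 _ c] with y hy
      rw [s1 _ (by linarith), ofReal_one]
  · have u1 : 1 / 4 ≤ t z := not_lt.1 fun c => hU ⟨hz, Or.inl c⟩
    have u2 : t z ≤ 3 / 4 := not_lt.1 fun c => hU ⟨hz, Or.inr c⟩
    have n1 : a z ≠ 0 := fun c => by rw [t0 z c] at u1; norm_num at u1
    have n2 : q z ≠ 0 := fun c => by rw [t1 z hz c] at u2; norm_num at u2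
    rw [s1 _ (by linarith), s1 _ (by linarith)]
    simp only [ofReal_one, one_mul, mul_div_assoc', mul_assoc, ← Finset.sum_div, ← Finset.mul_sum]
    exact div_self (mul_ne_zero n1 n2)
  · have x0n : x0 ≠ 0 := fun e => by simp [e] at a0
    beta_reduce
    rw [t1 x0 x0n (oh x0), s1 _ (by norm_num), ofReal_one]
  · beta_reduce
    rw [t0 z hz, s0 _ (by norm_num), ofReal_zero]

theorem sep {ρ : E N → ℝ} (h : Dom ρ) {s : ℝ} (hs : (N : ℝ) < s)
    (hV : ∀ p, p + 1 < N → VanishR ρ s (p + 1) p) : Sep ρ := by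
  intro x0 x1 h0 h1
  have s0 : 0 ≤ s := (Nat.cast_nonneg N).trans hs.le
  have hN : 1 ≤ N := Nat.one_le_iff_ne_zero.2 fun e => h0 (by subst e; exact Subsingleton.elim _ _)
  obtain ⟨a, a0, a1⟩ := exA h0 h1
  obtain ⟨θ, χ, U, hK, c0, c1⟩ := exKD a a0
  have hS : Cls (SobR (N := N) s) := by rw [sobR_eq N s0]; exact cls N s0
  obtain ⟨g, g1, g2, g3, g4⟩ := kos lv1 (H37.w1 lv0) (H87.w2 lv0) hK h hS hN
    (fun f hf => emb hs hf) hV
  exact ⟨_, g2, g3, g4, by simp [a0, c0, g1 x0 h0], by simp [a1, c1 x1 a1]⟩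

/-- **Part 0.** -/
theorem p0 {ρ : E N → ℝ} (h : Dom ρ) {K : Set (E N)} (hK : Fil K) (hr : ∀ z ∈ K, ρ z ≤ 0) :
    ∃ ρ0 : E N → ℝ, Dom ρ0 ∧ IsConnected (Om ρ0) ∧
      ∀ s : ℝ, (N : ℝ) < s → ∃ p, p + 1 < N ∧ ¬VanishR ρ0 s (p + 1) p := by
  obtain ⟨ρ0, K0, d1, d2, d3, d4⟩ := cmp lv0.c1 h hK hr
  refine ⟨ρ0, d1, d2, fun s hs => ?_⟩
  by_contra! hV
  exact noFil lv0.c1 d1 (sep d1 hs hV) d3 d4

end Pool.Agent.MP_fcd29e_an.H81.Pz
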