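import Pool.Agent.MP_fcd29e_an.H11.CS
import Pool.Agent.MP_fcd29e_an.H81.Pz

/-! Part 0 in the form of the specification. -/

set_option autoImplicit false

namespace Pool.Agent.MP_fcd29e_an.H81

theorem sp0 : H11.SP0 := fun _ _ _ h hK =>
  Pz.p0 h ⟨hK.ne, hK.cone, Set.union_singleton ▸ hK.closed, hK.disc⟩ hK.sub

end Pool.Agent.MP_fcd29e_an.H81
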