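import Pool.Agent.MP_fcd29e_an.H81.Defs

/-!
Auxiliary definitions and the Wirtinger calculus.
-/

set_option autoImplicit false

open MeasureTheory Complex Set Filter Topology Asymptotics
open scoped ContDiff ComplexConjugate

namespace Pool.Agent.MP_fcd29e_an.H81

noncomputable section

variable {N : ℕ}

/-- `ℂ^N ∖ {0}`. -/
abbrev E0 (N : ℕ) : Set (E N) := {0}ᶜ

/-- The cone over the concave side. -/
def Op (ρ : E N → ℝ) : Set (E N) := {z | z ≠ 0 ∧ 0 < ρ z}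

/-- A real function as a complex one. -/
abbrev cx (f : E N → ℝ) : E N → ℂ := fun z => (f z : ℂ)

/-- `U` is a cone without vertex. -/
def Cone (U : Set (E N)) : Prop := (0 : E N) ∉ U ∧ ∀ c : ℂ, c ≠ 0 → ∀ z ∈ U, c • z ∈ U

/-- Homogeneity almost everywhere. -/
def AH (U : Set (E N)) (a b : ℤ) (g : E N → ℂ) : Prop :=
  ∀ c : ℂ, c ≠ 0 → ∀ᵐ z, z ∈ U → g (c • z) = c ^ a * conj c ^ b * g z

/-- `g = ∂f/∂z̄_j` weakly on `U`. -/
def WB (U : Set (E N)) (j : Fin N) (f g : E N → ℂ) : Prop :=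
  ∀ ψ, Test U ψ → ∫ z in U, f z * dzb j ψ z = -∫ z in U, g z * ψ z

/-- `|∂ρ|²`. -/
def an (ρ : E N → ℝ) (z : E N) : ℝ := ∑ j, ‖dz j (cx ρ) z‖ ^ 2

/-- The orthogonal projector onto the horizontal complex tangent space of the level sets of `ρ`. -/
def PP (ρ : E N → ℝ) (z : E N) (j k : Fin N) : ℂ :=
  (if j = k then 1 else 0) - z j * conj (z k) / (‖z‖ ^ 2 : ℝ) -
    conj (dz j (cx ρ) z) * dz k (cx ρ) z / (an ρ z : ℝ)

/-- The complex Hessian `∑ f_{j k̄} L_j L̄_k`. -/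
def hess (f : E N → ℂ) (z : E N) (L : Fin N → ℂ) : ℂ :=
  ∑ j, ∑ k, dz j (dzb k f) z * L j * conj (L k)

/-- Trace of the complex Hessian on the horizontal complex tangent space. -/
def trH (ρ φ : E N → ℝ) (z : E N) : ℝ :=
  (∑ j, ∑ k, dz j (dzb k (cx φ)) z * PP ρ z j k).re

/-- Where `ρ` has no critical point. -/
def Reg (ρ : E N → ℝ) : Set (E N) := {z | z ≠ 0 ∧ fderiv ℝ ρ z ≠ 0}

/-- The weight function used in the estimate on the concave side. -/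
structure PHI (ρ φ : E N → ℝ) : Prop where
  smooth : ContDiffOn ℝ ∞ φ (Reg ρ)
  inv : ∀ c : ℂ, c ≠ 0 → ∀ z, φ (c • z) = φ z
  pos : ∀ z, z ≠ 0 → ρ z = 0 → 0 < trH ρ φ z

/-- A radial cut-off, normalised along complex lines. -/
structure Kap (κ : ℝ → ℝ) : Prop where
  smooth : ContDiff ℝ ∞ κ
  nonneg : ∀ s, 0 ≤ κ s
  pos : ∀ s, 1 < s → s < 4 → 0 < κ s
  supp : ∀ s, κ s ≠ 0 → 1 < s ∧ s < 4
  norm : ∫ c : ℂ, κ (‖c‖ ^ 2) / ‖c‖ ^ 2 = 1

/-- Averaging over complex lines, to degree `(a, b)`. -/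
def Pp (a b : ℤ) (g : E N → ℂ) (y : E N) : ℂ :=
  ∫ c : ℂ, ((‖c‖ ^ 2 : ℝ) : ℂ)⁻¹ * (c ^ (-a) * conj c ^ (-b) * g (c • y))

/-- Homogenisation to degree `(a, b)`. -/
def Hop (κ : ℝ → ℝ) (a b : ℤ) (g : E N → ℂ) : E N → ℂ :=
  Pp a b fun y => (κ (‖y‖ ^ 2) : ℂ) * g y

/-- Smooth on the concave side, with derivatives up to order two of growth `ρ^{-a}`. -/
def Temp (ρ : E N → ℝ) (a : ℕ) (w : E N → ℂ) : Prop :=
  ContDiffOn ℝ ∞ w (Op ρ) ∧ ∀ K : Set (E N), IsCompact K → (0 : E N) ∉ K →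
    ∃ C : ℝ, ∀ z ∈ Op ρ ∩ K, ∀ i ≤ 2, ‖iteratedFDeriv ℝ i w z‖ ≤ C / ρ z ^ a

/-- Zero on the closure of the domain, `ρ^{-k} g` locally square integrable. -/
def WL (ρ : E N → ℝ) (k : ℕ) (g : E N → ℂ) : Prop :=
  AEStronglyMeasurable g volume ∧ (∀ᵐ z, ρ z ≤ 0 → g z = 0) ∧
    L2 (Op ρ) fun z => g z / (ρ z : ℂ) ^ k

/-- The constant of the Bochner–Martinelli kernel. -/
def cN (N : ℕ) : ℝ := (N * (volume : Measure (E N)).real (Metric.ball 0 1))⁻¹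

/-- The Bochner–Martinelli kernel. -/
def Ek (j : Fin N) (y : E N) : ℂ := (cN N : ℂ) * conj (y j) / (‖y‖ ^ (2 * N) : ℝ)

/-- Convolution with the kernel. -/
def Ec (j : Fin N) (g : E N → ℂ) (x : E N) : ℂ := ∫ y, Ek j (x - y) * g y

/-- The solution operator. -/
def Nw {q : ℕ} (g : Arr N (q + 1)) : Arr N q := fun J x => ∑ j, Ec j (g (Fin.cons j J)) x

/-- The Levi-Civita symbol. -/
def eps (J : Fin N → Fin N) : ℂ := (Matrix.of fun a b => if J a = b then (1 : ℂ) else 0).det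

/-- `H^{0,q+1}_{W^k}(Ω, O(m)) = 0`. -/
def LB (ρ : E N → ℝ) (k : ℕ) (m : ℤ) (q : ℕ) : Prop :=
  ∀ f : Arr N (q + 1), HB (E0 N) m f → (∀ J, Sob (E0 N) k (f J)) → DB (Om ρ) f 0 →
    ∃ u : Arr N q, HB (E0 N) m u ∧ (∀ J, Sob (E0 N) k (u J)) ∧ DB (Om ρ) u f

/-- The same in top degree, where no closedness is needed. -/
def LT (ρ : E N → ℝ) (k : ℕ) (m : ℤ) (q : ℕ) : Prop :=
  ∀ f : Arr N (q + 1), HB (E0 N) m f → (∀ J, Sob (E0 N) k (f J)) →
    ∃ u : Arr N q, HB (E0 N) m u ∧ (∀ J, Sob (E0 N) k (u J)) ∧ DB (Om ρ) u f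

/-- Smooth and holomorphic. -/
def Hol (U : Set (E N)) (w : E N → ℂ) : Prop :=
  ContDiffOn ℝ ∞ w U ∧ ∀ j, ∀ z ∈ U, dzb j w z = 0

/-- Smooth, compactly supported. -/
def Tst (ψ : E N → ℂ) : Prop := ContDiff ℝ ∞ ψ ∧ HasCompactSupport ψ

/-- Integrable against the decay of the kernel. -/
def DI (g : E N → ℂ) : Prop := Integrable fun y => g y / ((1 + ‖y‖) ^ (2 * N - 1) : ℝ)

/-- `0` for `s ≤ 1`, `1` for `2 ≤ s`. -/
def cut (s : ℝ) : ℝ := Real.smoothTransition (s - 1)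

/-- The far part of the kernel. -/
def Phi (j : Fin N) (r : ℝ) (y : E N) : ℂ := (cut (‖y‖ ^ 2 / r ^ 2) : ℂ) * Ek j y

/-- The near part of the kernel. -/
def kk (j : Fin N) (r : ℝ) (y : E N) : ℂ := Ek j y - Phi j r y

/-- The divergence of the far part. -/
def eta (r : ℝ) (y : E N) : ℂ := ∑ j, dzb j (Phi j r) y

/-- Mollification. -/
def Mo (r : ℝ) (g : E N → ℂ) (x : E N) : ℂ := ∫ y, eta r (x - y) * g y

/-- The kernel with the singularity removed on the concave side. -/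
def Tc (ρ : E N → ℝ) (A : ℝ) (j : Fin N) (G : E N → ℂ) (x : E N) : ℂ :=
  ∫ y in Op ρ, Phi j (‖y‖ * ρ y / A) (x - y) * G y

/-- Symbols: smooth, homogeneous of degree `-d` outside the ball of radius two. -/
def Sym (d : ℕ) (Φ : E N → ℂ) : Prop :=
  ContDiff ℝ ∞ Φ ∧ ∀ y : E N, 2 ≤ ‖y‖ → ∀ t : ℝ, 1 ≤ t → Φ (t • y) = Φ y / (t ^ d : ℝ)

/-- The operator with kernel `s(y)^{-d} Φ((x - y) / s(y))`, `s(y) = |y| ρ(y) / A`. -/
def Tk (ρ : E N → ℝ) (A : ℝ) (d : ℕ) (Φ G : E N → ℂ) (x : E N) : ℂ :=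
  ∫ y in Op ρ, Φ ((‖y‖ * ρ y / A)⁻¹ • (x - y)) / ((‖y‖ * ρ y / A) ^ d : ℝ) * G y

/-! ### Arrays at a point -/

/-- Alternating. -/
def altA {q : ℕ} (x : (Fin q → Fin N) → ℂ) : Prop :=
  ∀ J (σ : Equiv.Perm (Fin q)), x (J ∘ σ) = (Equiv.Perm.sign σ : ℤ) * x J

/-- Killed by contraction with `ζ`. -/
def horA {q : ℕ} (ζ : Fin N → ℂ) (x : (Fin q → Fin N) → ℂ) : Prop :=
  ∀ J (a : Fin q), ∑ l, ζ l * x (Function.update J a l) = 0

/-- Wedge product with a one-form. -/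
def wdA {q : ℕ} (γ : Fin N → ℂ) (x : (Fin q → Fin N) → ℂ) (J : Fin (q + 1) → Fin N) : ℂ :=
  ∑ a : Fin (q + 1), (-1) ^ (a : ℕ) * γ (J a) * x (a.removeNth J)

/-- Contraction with a vector. -/
def ibA {q : ℕ} (ζ : Fin N → ℂ) (x : (Fin (q + 1) → Fin N) → ℂ) (J : Fin q → Fin N) : ℂ :=
  ∑ l, ζ l * x (Fin.cons l J)

/-- Antisymmetrisation. -/
def AltA {q : ℕ} (x : (Fin q → Fin N) → ℂ) (J : Fin q → Fin N) : ℂ :=
  (q.factorial : ℂ)⁻¹ * ∑ σ : Equiv.Perm (Fin q), (Equiv.Perm.sign σ : ℤ) * x (J ∘ σ)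

/-- Wedge product of a `(0,1)`-form with a `(0,q)`-form. -/
def wd {q : ℕ} (γ : Fin N → E N → ℂ) (f : Arr N q) : Arr N (q + 1) :=
  fun J z => wdA (fun j => γ j z) (fun K => f K z) J

/-- Contraction with the antiholomorphic Euler field. -/
def ib {q : ℕ} (f : Arr N (q + 1)) : Arr N q :=
  fun J z => ibA (fun l => conj (z l)) (fun K => f K z) J

/-- `∂ log |z|²`. -/
def th (j : Fin N) (z : E N) : ℂ := conj (z j) / (‖z‖ ^ 2 : ℝ)

/-- `∂̄ log |z|²`. -/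
def thb (j : Fin N) (z : E N) : ℂ := z j / (‖z‖ ^ 2 : ℝ)

/-- No residue at the origin. -/
def Flux (κ : ℝ → ℝ) {q : ℕ} (g : Arr N q) : Prop :=
  ∀ J, ∫ z : E N, (κ (‖z‖ ^ 2) : ℂ) * wd (fun j z => z j) g J z = 0

/-! ### Vector fields of the estimate -/

/-- `∑ ℓ_j ∂_j`. -/
def Lf (l : Fin N → E N → ℂ) (g : E N → ℂ) (z : E N) : ℂ := ∑ j, l j z * dz j g z

/-- `∑ ℓ̄_j ∂̄_j`. -/
def Lb (l : Fin N → E N → ℂ) (g : E N → ℂ) (z : E N) : ℂ := ∑ j, conj (l j z) * dzb j g z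

/-- `∑ ∂_j ℓ_j`. -/
def dv (l : Fin N → E N → ℂ) (z : E N) : ℂ := ∑ j, dz j (l j) z

/-- The columns of the projector. -/
def lc (ρ : E N → ℝ) (c j : Fin N) (z : E N) : ℂ := PP ρ z j c

/-- The normal field. -/
def nn (ρ : E N → ℝ) (j : Fin N) (z : E N) : ℂ := conj (dz j (cx ρ) z) / (an ρ z : ℝ)

/-- The weight. -/
def Wt (f κ : ℝ → ℝ) (t : ℝ) (ρ φ : E N → ℝ) (z : E N) : ℝ :=
  f (ρ z) * κ (‖z‖ ^ 2) * Real.exp (t * φ z)

/-- Minus the adjoint of `L̄^c`. -/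
def Dc (t : ℝ) (ρ φ : E N → ℝ) (c : Fin N) (w : E N → ℂ) (z : E N) : ℂ :=
  Lf (lc ρ c) w z + (dv (lc ρ c) z + t * Lf (lc ρ c) (cx φ) z) * w z

/-- The `(1,0)` part of the flux. -/
def FA (f κ : ℝ → ℝ) (t : ℝ) (ρ φ : E N → ℝ) (w : E N → ℂ) (j : Fin N) (z : E N) : ℂ :=
  (Wt f κ t ρ φ z : ℝ) * (∑ c, lc ρ c j z * (conj (w z) * Lb (lc ρ c) w z) -
    nn ρ j z * (trH ρ ρ z : ℝ) * (w z * conj (w z)))

/-- The `(0,1)` part of the flux. -/
def FB (f κ : ℝ → ℝ) (t : ℝ) (ρ φ : E N → ℝ) (w : E N → ℂ) (j : Fin N) (z : E N) : ℂ :=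
  -((Wt f κ t ρ φ z : ℝ) * ∑ c, conj (lc ρ c j z) * (conj (w z) * Dc t ρ φ c w z))

/-- The shell that carries `κ`. -/
def Sh (N : ℕ) : Set (E N) := {z | 1 ≤ ‖z‖ ^ 2 ∧ ‖z‖ ^ 2 ≤ 4}

/-! ### The null set of the Levi form -/

/-- `∂ρ(z)(v)`. -/
def av (ρ : E N → ℝ) (z v : E N) : ℂ := ∑ j, dz j (cx ρ) z * v j

/-- The vector `conj ∂ρ(z)`. -/
def nv (ρ : E N → ℝ) (z : E N) : E N := WithLp.toLp 2 fun j => conj (dz j (cx ρ) z)

/-- Second-order term of the osculating holomorphic disc. -/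
def cv (ρ : E N → ℝ) (p w : E N) : E N :=
  (-(∑ j, ∑ l, dz j (dz l (cx ρ)) p * w j * w l) / (2 * an ρ p : ℝ)) • nv ρ p

/-- A field with values in `ker ∂ρ`. -/
def Xf (ρ : E N → ℝ) (u w z : E N) : E N := w - (av ρ z w / av ρ z u) • u

/-- Nonempty closed cones in the boundary on which the Levi form vanishes. -/
structure KS (ρ : E N → ℝ) (K : Set (E N)) : Prop where
  cone : Cone K
  closed : IsClosed (insert 0 K)
  ne : K.Nonempty
  bd : ∀ z ∈ K, ρ z = 0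
  null : ∀ z ∈ K, trH ρ ρ z = 0

/-- Smooth invariant functions on the set of regular points. -/
def SI (ρ φ : E N → ℝ) : Prop :=
  ContDiffOn ℝ ∞ φ (Reg ρ) ∧ ∀ c : ℂ, c ≠ 0 → ∀ z, φ (c • z) = φ z

/-- No weight function on `K`. -/
def NoPhi (ρ : E N → ℝ) (K : Set (E N)) : Prop := ¬ ∃ φ, SI ρ φ ∧ ∀ z ∈ K, 0 < trH ρ φ z

/-- Minimal sets without weight function. -/
def MinK (ρ : E N → ℝ) (K : Set (E N)) : Prop :=
  KS ρ K ∧ NoPhi ρ K ∧ ∀ K' ⊆ K, KS ρ K' → NoPhi ρ K' → K' = K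

/-- Proximal normals are orthogonal to `ker ∂ρ`. -/
def PN (ρ : E N → ℝ) (K : Set (E N)) : Prop :=
  ∀ x, ∀ p ∈ K, dist x p = Metric.infDist x K → ∀ w, av ρ p w = 0 → inner ℝ (x - p) w = 0

/-- The osculating discs are tangent to `K` to second order. -/
def Tan (ρ : E N → ℝ) (K : Set (E N)) : Prop :=
  ∀ p ∈ K, ∀ w, av ρ p w = 0 →
    (fun t : ℝ => Metric.infDist (p + t • w + t ^ 2 • cv ρ p w) K) =o[𝓝 0] fun t => t ^ 2

/-- Functions that vanish on `K` have no derivative along the boundary. -/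
def Thick (ρ : E N → ℝ) (K : Set (E N)) : Prop :=
  ∀ p ∈ K, ∀ F : E N → ℂ, ContDiffAt ℝ ∞ F p → (∀ᶠ z in 𝓝 p, z ∈ K → F z = 0) →
    ∀ v, fderiv ℝ ρ p v = 0 → fderiv ℝ F p v = 0

/-- Chords of `K` are almost complex tangent. -/
def Thin (ρ : E N → ℝ) (K : Set (E N)) : Prop :=
  ∀ p ∈ K, ∀ c > 0, ∃ ε > 0, ∀ x ∈ K ∩ Metric.ball p ε, ∀ y ∈ K ∩ Metric.ball p ε,
    ‖av ρ x (y - x)‖ ≤ c * ‖y - x‖

/-- All derivatives up to order `T` vanish on `K`. -/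
def Fl (K : Set (E N)) : ℕ → (E N → ℂ) → Prop
  | 0, F => ∀ z ∈ K, F z = 0
  | T + 1, F => (∀ z ∈ K, F z = 0) ∧ ∀ v, Fl K T fun z => fderiv ℝ F z v

/-- `∂̄` of a `(0,1)`-form. -/
def d1 (γ : Fin N → E N → ℂ) (j k : Fin N) (z : E N) : ℂ := dzb j (γ k) z - dzb k (γ j) z

/-- `∂̄` of a `(0,2)`-form. -/
def d2 (F : Fin N → Fin N → E N → ℂ) (i j k : Fin N) (z : E N) : ℂ :=
  dzb i (F j k) z - dzb j (F i k) z + dzb k (F i j) z

/-- An almost closed extension of the D'Angelo form from `K` to the open cone `U`. -/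
structure Ext (ρ : E N → ℝ) (K U : Set (E N)) (T : ℕ) (α : Fin N → E N → ℂ) : Prop where
  smooth : ∀ k, ContDiffOn ℝ ∞ (α k) U
  hom : ∀ k, Hom U 0 (-1) (α k)
  hor : ∀ z ∈ U, ∑ k, conj (z k) * α k z = 0
  flat : ∀ j k, Fl K T (d1 α j k)
  eq : ∀ z ∈ K, ∀ w, av ρ z w = 0 → ∀ j,
    ∑ k, conj (w k) * dz j (dzb k (cx ρ)) z = (∑ k, conj (w k) * α k z) * dz j (cx ρ) z

/-- Local holomorphic graph structure of `K` at `p`: near `p`, `K = {f = 0}`, and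
`z - f(z) u` is the point of `K` in the fibre of `z`. -/
structure Graph (ρ : E N → ℝ) (K : Set (E N)) (p : E N) (B : Set (E N)) (f : E N → ℂ) (u : E N) :
    Prop where
  opn : IsOpen B
  mem : p ∈ B
  reg : B ⊆ Reg ρ
  hol : Hol B f
  zero : ∀ z ∈ B, f z = 0 ↔ z ∈ K
  fib : ∀ z ∈ B, ∀ t ∈ Icc (0 : ℝ) 1, z - (t * f z) • u ∈ B
  ft : ∀ z ∈ B, z - f z • u ∈ K
  tr : ∀ z ∈ B, av ρ z u ≠ 0
  der : ∀ z ∈ B ∩ K, ∀ j, dz j f z = dz j (cx ρ) z / av ρ z u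

/-- The curvature form on alternating matrices. -/
def QQ (φ : E N → ℝ) (z : E N) (x : Fin N → Fin N → ℂ) : ℝ :=
  (∑ i, dz i (dzb i (cx φ)) z).re * ∑ j, ∑ k, ‖x j k‖ ^ 2 -
    2 * ∑ k, (hess (cx φ) z fun i => conj (x i k)).re

/-- `e^φ ∂_j e^{-φ}`. -/
def dl (φ : E N → ℝ) (j : Fin N) (g : E N → ℂ) (z : E N) : ℂ := dz j g z - dz j (cx φ) z * g z

/-- Four-point second difference along the disc `ζ ↦ y + ζ w + ζ² u`. -/
def S4 (f : E N → ℝ) (y w u : E N) (r : ℝ) : ℝ :=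
  f (y + r • w + r ^ 2 • u) + f (y + (-r) • w + (-r) ^ 2 • u) +
    f (y + r • (I • w) + r ^ 2 • (-u)) + f (y + (-r) • (I • w) + (-r) ^ 2 • (-u)) - 4 * f y

/-- The data of the weighted estimate on `D`. -/
structure HD (D : Set (E N)) (p ψ m : E N → ℝ) (c : ℝ) : Prop where
  opn : IsOpen D
  bdd : Bornology.IsBounded D
  ne0 : (0 : E N) ∉ D
  ps : ContDiffOn ℝ ∞ p D
  lt : ∀ z ∈ D, p z < c
  cpt : ∀ c' < c, IsCompact {z | z ∈ D ∧ p z ≤ c'}
  grad : ∃ G : ℝ, ∀ z ∈ D, ‖fderiv ℝ p z‖ ≤ G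
  psh : ∃ δ > 0, ∀ z ∈ D, ∀ L : Fin N → ℂ, δ * ∑ j, ‖L j‖ ^ 2 ≤ (hess (cx p) z L).re
  ψs : ContDiffOn ℝ ∞ ψ D
  ψb : ∃ B : ℝ, ∀ z ∈ D, |ψ z| ≤ B
  mc : ContinuousOn m D
  mb : ∃ m₀ > 0, ∃ m₁ : ℝ, ∀ z ∈ D, m₀ ≤ m z ∧ m z ≤ m₁
  Q : ∀ z ∈ D, ∀ x : Fin N → Fin N → ℂ, (∀ j k, x j k = -x k j) →
    m z * ∑ j, ∑ k, ‖x j k‖ ^ 2 ≤ QQ ψ z x

/-- The three weights and the cut-off functions. -/
structure TW (D : Set (E N)) (p ψ m : E N → ℝ) (c : ℝ) (φ β : E N → ℝ) (χ : ℕ → E N → ℝ) (A : ℝ) :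
    Prop where
  φs : ContDiffOn ℝ ∞ φ D
  βs : ContDiffOn ℝ ∞ β D
  β0 : ∀ z ∈ D, 0 ≤ β z
  Q : ∀ z ∈ D, ∀ x : Fin N → Fin N → ℂ, (∀ j k, x j k = -x k j) →
    (m z / 2 * Real.exp (β z) + 6 * ∑ j, ‖dz j (cx β) z‖ ^ 2) * ∑ j, ∑ k, ‖x j k‖ ^ 2 ≤ QQ φ z x
  inn : ∀ z ∈ D, p z ≤ c - 1 → φ z - 2 * β z ≤ ψ z + 1
  le : ∀ z ∈ D, Real.exp (β z - φ z) ≤ 2 * Real.exp (-ψ z)
  tst : ∀ ν, Test D (cx (χ ν))
  bd : ∀ ν z, 0 ≤ χ ν z ∧ χ ν z ≤ 1
  der : ∀ ν j, ∀ z ∈ D, ‖dz j (cx (χ ν)) z‖ ^ 2 ≤ A * Real.exp (β z)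
  one : ∀ z ∈ D, ∀ᶠ ν in atTop, ∀ᶠ y in 𝓝 z, χ ν y = 1

/-- `(γ ∧ x)_{ijk}` for an alternating matrix `x`. -/
def w3 (γ : Fin N → ℂ) (x : Fin N → Fin N → ℂ) (i j k : Fin N) : ℂ :=
  γ i * x j k - γ j * x i k + γ k * x i j

/-- `Y = ∂x` weakly on `D`. -/
def W3 (D : Set (E N)) (x : Fin N → Fin N → E N → ℂ) (Y : Fin N → Fin N → Fin N → E N → ℂ) : Prop :=
  ∀ i j k ψ, Test D ψ →
    ∫ z in D, w3 (fun a => dz a ψ z) (fun a b => x a b z) i j k = -∫ z in D, Y i j k z * ψ z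

/-- `s_k = ∑ ∂̄_j x_{jk}` weakly on `D`. -/
def WS (D : Set (E N)) (x : Fin N → Fin N → E N → ℂ) (s : Fin N → E N → ℂ) : Prop :=
  ∀ k ψ, Test D ψ → ∫ z in D, ∑ j, x j k z * dzb j ψ z = -∫ z in D, s k z * ψ z

/-- A pluriharmonic measure carried by `K`. -/
structure Mu (ρ : E N → ℝ) (K : Set (E N)) (μ : Measure (E N)) : Prop where
  prob : IsProbabilityMeasure μ
  supp : ∀ᵐ z ∂μ, z ∈ K ∧ ‖z‖ = 1
  ann : ∀ φ, SI ρ φ → ∫ z, trH ρ φ z ∂μ = 0

/-- The density of the current `S`. -/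
def sf (ρ : E N → ℝ) (γ : Fin N → E N → ℂ) (z : E N) : ℂ :=
  ∑ l, ∑ k, PP ρ z l k * dz l (γ k) z -
    ((N : ℂ) - 2) * (∑ k, conj (z k) * γ k z) / (‖z‖ ^ 2 : ℝ)

/-- The current `S`. -/
def Sf (ρ : E N → ℝ) (μ : Measure (E N)) (γ : Fin N → E N → ℂ) : ℂ :=
  ∫ z, ∫ c : ℂ, sf ρ γ (c • z) ∂volume ∂μ

/-- Its Newton potential, as a functional on `(0,2)`-forms. -/
def Rf (ρ : E N → ℝ) (μ : Measure (E N)) (F : Fin N → Fin N → E N → ℂ) : ℂ :=
  Sf ρ μ fun k x => ∑ j, Ec j (F j k) x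

/-- Smooth, with decay of the derivatives up to order one. -/
def Dk (g : E N → ℂ) : Prop :=
  ContDiff ℝ ∞ g ∧ ∃ C : ℝ, ∀ z, ‖g z‖ ≤ C / (1 + ‖z‖) ^ 3 ∧ ‖fderiv ℝ g z‖ ≤ C / (1 + ‖z‖) ^ 3

/-- Smooth plurisubharmonic approximations of `-log dist(·, K)`. -/
structure VE (K : Set (E N)) (ε : ℝ) (V : E N → ℝ) : Prop where
  smooth : ContDiffOn ℝ ∞ V {z | 2 * ε < Metric.infDist z K}
  near : ∀ z, 2 * ε < Metric.infDist z K → |V z + Real.log (Metric.infDist z K)| ≤ 1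
  grad : ∀ z, 2 * ε < Metric.infDist z K → ‖fderiv ℝ V z‖ ≤ 4 / Metric.infDist z K
  psh : ∀ z, 2 * ε < Metric.infDist z K → ∀ L, 0 ≤ (hess (cx V) z L).re

/-- The kernel of the Newton potential off `K`. -/
structure RR (ρ : E N → ℝ) (K : Set (E N)) (μ : Measure (E N)) (R : Fin N → Fin N → E N → ℂ)
    (C : ℝ) : Prop where
  alt : ∀ j k y, R j k y = -R k j y
  meas : ∀ j k, AEStronglyMeasurable (R j k) volume
  bd : ∀ j k y, 0 < Metric.infDist y K → ‖R j k y‖ ≤ C * ‖y‖ ^ 2 / Metric.infDist y K ^ (2 * N)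
  rep : ∀ F : Fin N → Fin N → E N → ℂ, (∀ j k, Test {y | 0 < Metric.infDist y K} (F j k)) →
    (∀ j k y, F j k y = -F k j y) → Rf ρ μ F = ∑ j, ∑ k, ∫ y, R j k y * F j k y
  cl : WS {y | 0 < Metric.infDist y K} R 0

/-- Vanishing to order `T` along `K`, with the homogeneity of a `(0,2)`-form. -/
def Van (K : Set (E N)) (T : ℕ) (f : Fin N → Fin N → E N → ℂ) (C : ℝ) : Prop :=
  ∀ j k z, z ≠ 0 → ‖f j k z‖ ≤ C * (Metric.infDist z K / ‖z‖) ^ T / ‖z‖ ^ 2 ∧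
    ‖fderiv ℝ (f j k) z‖ ≤ C * (Metric.infDist z K / ‖z‖) ^ T / ‖z‖ ^ 3

/-- A radial cut-off of logarithmic length `L`. -/
def thL (L : ℕ) (s : ℝ) : ℝ := cut (s * Real.exp (2 * L)) - cut (s * Real.exp (-(2 * L)))

/-- The domain, the weights and the cut-off at level `L`. -/
structure Geo (K : Set (E N)) (C : ℝ) (L : ℕ) (χ : E N → ℝ) (D : Set (E N)) (p ψ m : E N → ℝ)
    (c : ℝ) : Prop where
  hd : HD D p ψ m c
  sub : ∀ z ∈ D, Real.exp (-(2 * L + 7)) ≤ Metric.infDist z K ∧ ‖z‖ ≤ Real.exp (4 * L)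
  χs : ContDiff ℝ ∞ χ
  χb : ∀ z, 0 ≤ χ z ∧ χ z ≤ 1
  χ1 : ∀ z, Real.exp (-(2 * L) + 1) < Metric.infDist z K → ∀ᶠ y in 𝓝 z, χ y = 1
  χd : ∀ z, ‖fderiv ℝ χ z‖ ≤ C / Metric.infDist z K
  supp : tsupport (fun z => χ z * thL L (‖z‖ ^ 2)) ⊆ {z | z ∈ D ∧ p z ≤ c - 1}
  w1 : ∀ z ∈ D, Real.exp (-ψ z) / m z ≤ C * Metric.infDist z K ^ (4 * N) / ‖z‖ ^ (2 * N + 4)
  w2 : ∀ z ∈ D, Real.exp (ψ z) ≤ C * ‖z‖ ^ (2 * N + 6) / Metric.infDist z K ^ (4 * N)

/-! ### Calculus -/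

theorem finrank_E : Module.finrank ℝ (E N) = 2 * N := by
  rw [← Module.finrank_mul_finrank ℝ ℂ (E N)]; simp

theorem inner_real (x y : E N) : inner ℝ x y = (inner ℂ x y).re := by
  simp [PiLp.inner_apply]

theorem norm_sq_eq (z : E N) : ((‖z‖ ^ 2 : ℝ) : ℂ) = ∑ j, z j * conj (z j) := by
  rw [EuclideanSpace.norm_sq_eq]; push_cast
  exact Finset.sum_congr rfl fun j _ => by rw [Complex.mul_conj, Complex.normSq_eq_norm_sq]; simp

theorem isOpen_E0 : IsOpen (E0 N) := isOpen_compl_singleton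

theorem cone_E0 : Cone (E0 N) :=
  ⟨by simp, fun c hc z hz => by simpa using ⟨hc, by simpa using hz⟩⟩

theorem eq_sum_ee (v : E N) : v = ∑ j, ((v j).re • ee j + (v j).im • (I • ee j)) := by
  ext i
  simp [ee, Finset.sum_apply, Pi.single_apply, Finset.sum_add_distrib]

/-- A real-linear map in Wirtinger coordinates. -/
theorem clm_apply (A : E N →L[ℝ] ℂ) (v : E N) :
    A v = ∑ j, (v j * ((A (ee j) - I * A (I • ee j)) / 2) +
      conj (v j) * ((A (ee j) + I * A (I • ee j)) / 2)) := by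
  conv_lhs => rw [eq_sum_ee v]
  rw [map_sum]
  refine Finset.sum_congr rfl fun j _ => ?_
  rw [map_add, map_smul, map_smul, real_smul, real_smul]
  have h1 := Complex.re_add_im (v j)
  have h2 : conj (v j) = (v j).re - (v j).im * I := by
    apply Complex.ext <;> simp
  rw [h2]
  conv_rhs => rw [← h1]
  simp only [add_re, ofReal_re, mul_re, I_re, mul_zero, ofReal_im, I_im, mul_one, sub_self,
    add_zero, add_im, mul_im, zero_add]
  ring_nf
  rw [I_sq]; ring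

theorem fderiv_eq (f : E N → ℂ) (z v : E N) :
    fderiv ℝ f z v = ∑ j, (v j * dz j f z + conj (v j) * dzb j f z) := clm_apply _ v

theorem dz_congr {f g : E N → ℂ} {z : E N} (h : f =ᶠ[𝓝 z] g) (j : Fin N) : dz j f z = dz j g z := by
  simp only [dz, h.fderiv_eq]

theorem dzb_congr {f g : E N → ℂ} {z : E N} (h : f =ᶠ[𝓝 z] g) (j : Fin N) :
    dzb j f z = dzb j g z := by
  simp only [dzb, h.fderiv_eq]

theorem dz_congr' {f g : E N → ℂ} {z : E N} (h : f =ᶠ[𝓝 z] g) (j : Fin N) :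
    dz j f =ᶠ[𝓝 z] dz j g := h.eventually_nhds.mono fun _ hy => dz_congr hy j

theorem dzb_congr' {f g : E N → ℂ} {z : E N} (h : f =ᶠ[𝓝 z] g) (j : Fin N) :
    dzb j f =ᶠ[𝓝 z] dzb j g := h.eventually_nhds.mono fun _ hy => dzb_congr hy j

@[simp] theorem dz_const (j : Fin N) (c : ℂ) (z : E N) : dz j (fun _ => c) z = 0 := by simp [dz]

@[simp] theorem dzb_const (j : Fin N) (c : ℂ) (z : E N) : dzb j (fun _ => c) z = 0 := by simp [dzb]

section rules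
variable {f g : E N → ℂ} {z : E N} (j : Fin N)

theorem dz_add (hf : DifferentiableAt ℝ f z) (hg : DifferentiableAt ℝ g z) :
    dz j (fun w => f w + g w) z = dz j f z + dz j g z := by
  simp only [dz, fderiv_fun_add hf hg, ContinuousLinearMap.add_apply]; ring

theorem dzb_add (hf : DifferentiableAt ℝ f z) (hg : DifferentiableAt ℝ g z) :
    dzb j (fun w => f w + g w) z = dzb j f z + dzb j g z := by
  simp only [dzb, fderiv_fun_add hf hg, ContinuousLinearMap.add_apply]; ring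

theorem dz_sub (hf : DifferentiableAt ℝ f z) (hg : DifferentiableAt ℝ g z) :
    dz j (fun w => f w - g w) z = dz j f z - dz j g z := by
  simp only [dz, fderiv_fun_sub hf hg, ContinuousLinearMap.sub_apply]; ring

theorem dzb_sub (hf : DifferentiableAt ℝ f z) (hg : DifferentiableAt ℝ g z) :
    dzb j (fun w => f w - g w) z = dzb j f z - dzb j g z := by
  simp only [dzb, fderiv_fun_sub hf hg, ContinuousLinearMap.sub_apply]; ring

theorem dz_mul (hf : DifferentiableAt ℝ f z) (hg : DifferentiableAt ℝ g z) :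
    dz j (fun w => f w * g w) z = dz j f z * g z + f z * dz j g z := by
  simp only [dz, fderiv_fun_mul hf hg, ContinuousLinearMap.add_apply,
    ContinuousLinearMap.smul_apply, smul_eq_mul]; ring

theorem dzb_mul (hf : DifferentiableAt ℝ f z) (hg : DifferentiableAt ℝ g z) :
    dzb j (fun w => f w * g w) z = dzb j f z * g z + f z * dzb j g z := by
  simp only [dzb, fderiv_fun_mul hf hg, ContinuousLinearMap.add_apply,
    ContinuousLinearMap.smul_apply, smul_eq_mul]; ring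

theorem dz_const_mul (c : ℂ) (hf : DifferentiableAt ℝ f z) :
    dz j (fun w => c * f w) z = c * dz j f z := by
  rw [dz_mul j (differentiableAt_const c) hf]; simp

theorem dzb_const_mul (c : ℂ) (hf : DifferentiableAt ℝ f z) :
    dzb j (fun w => c * f w) z = c * dzb j f z := by
  rw [dzb_mul j (differentiableAt_const c) hf]; simp

theorem dz_sum {ι : Type*} (s : Finset ι) {F : ι → E N → ℂ}
    (h : ∀ i ∈ s, DifferentiableAt ℝ (F i) z) :
    dz j (fun w => ∑ i ∈ s, F i w) z = ∑ i ∈ s, dz j (F i) z := by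
  simp only [dz, fderiv_fun_sum h, ContinuousLinearMap.sum_apply, Finset.mul_sum,
    ← Finset.sum_sub_distrib, Finset.sum_div]

theorem dzb_sum {ι : Type*} (s : Finset ι) {F : ι → E N → ℂ}
    (h : ∀ i ∈ s, DifferentiableAt ℝ (F i) z) :
    dzb j (fun w => ∑ i ∈ s, F i w) z = ∑ i ∈ s, dzb j (F i) z := by
  simp only [dzb, fderiv_fun_sum h, ContinuousLinearMap.sum_apply, Finset.mul_sum,
    ← Finset.sum_add_distrib, Finset.sum_div]

theorem fderiv_conj (f : E N → ℂ) (z v : E N) :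
    fderiv ℝ (fun w => conj (f w)) z v = conj (fderiv ℝ f z v) := by
  have := conjCLE.comp_fderiv (f := f) (x := z)
  exact congrArg (fun A : E N →L[ℝ] ℂ => A v) this

theorem dz_conj (f : E N → ℂ) (z : E N) : dz j (fun w => conj (f w)) z = conj (dzb j f z) := by
  simp only [dz, dzb, fderiv_conj, map_div₀, map_add, map_mul, conj_I, map_ofNat]; ring

theorem dzb_conj (f : E N → ℂ) (z : E N) : dzb j (fun w => conj (f w)) z = conj (dz j f z) := by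
  simp only [dz, dzb, fderiv_conj, map_div₀, map_sub, map_mul, conj_I, map_ofNat]; ring

theorem dzb_cx (ρ : E N → ℝ) (z : E N) : dzb j (cx ρ) z = conj (dz j (cx ρ) z) := by
  rw [← dzb_conj]; simp

theorem differentiableAt_conj (hf : DifferentiableAt ℝ f z) :
    DifferentiableAt ℝ (fun w => conj (f w)) z := conjCLE.differentiableAt.comp z hf

theorem contDiffAt_conj {n : WithTop ℕ∞} (hf : ContDiffAt ℝ n f z) :
    ContDiffAt ℝ n (fun w => conj (f w)) z := conjCLE.contDiff.contDiffAt.comp z hf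

theorem contDiff_coord (k : Fin N) {n : WithTop ℕ∞} : ContDiff ℝ n fun w : E N => w k :=
  ((EuclideanSpace.proj k : E N →L[ℂ] ℂ).restrictScalars ℝ).contDiff

theorem fderiv_coord (k : Fin N) (z v : E N) : fderiv ℝ (fun w : E N => w k) z v = v k := by
  have := ((EuclideanSpace.proj k : E N →L[ℂ] ℂ).restrictScalars ℝ).fderiv (x := z)
  exact congrArg (fun A : E N →L[ℝ] ℂ => A v) this

theorem dz_coord (k : Fin N) (z : E N) :
    dz j (fun w : E N => w k) z = if j = k then 1 else 0 := by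
  simp only [dz, fderiv_coord, ee]
  by_cases h : j = k
  · subst h; simp [← mul_assoc]
  · simp [h, Ne.symm h]

theorem dzb_coord (k : Fin N) (z : E N) : dzb j (fun w : E N => w k) z = 0 := by
  simp only [dzb, fderiv_coord, ee]
  by_cases h : j = k
  · subst h; simp [← mul_assoc]
  · simp [Ne.symm h]

theorem dz_coord_conj (k : Fin N) (z : E N) : dz j (fun w : E N => conj (w k)) z = 0 := by
  rw [dz_conj, dzb_coord, map_zero]

theorem dzb_coord_conj (k : Fin N) (z : E N) :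
    dzb j (fun w : E N => conj (w k)) z = if j = k then 1 else 0 := by
  rw [dzb_conj, dz_coord]; split_ifs <;> simp

/-- Chain rule with a real function of a real function. -/
theorem fderiv_comp_real {r : E N → ℝ} {χ : ℝ → ℝ} {χ' : ℝ} (hr : DifferentiableAt ℝ r z)
    (hχ : HasDerivAt χ χ' (r z)) (v : E N) :
    fderiv ℝ (cx fun w => χ (r w)) z v = χ' * fderiv ℝ (cx r) z v := by
  have h1 := (ofRealCLM.hasFDerivAt.comp z (hχ.comp_hasFDerivAt z hr.hasFDerivAt)).fderiv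
  have h2 := (ofRealCLM.hasFDerivAt.comp z hr.hasFDerivAt).fderiv
  have e1 := congrArg (fun A : E N →L[ℝ] ℂ => A v) h1
  have e2 := congrArg (fun A : E N →L[ℝ] ℂ => A v) h2
  simp only [ContinuousLinearMap.comp_apply, ContinuousLinearMap.smul_apply, ofRealCLM_apply,
    smul_eq_mul, ofReal_mul] at e1 e2
  exact e1.trans (by rw [← e2]; rfl)

theorem dz_comp_real {r : E N → ℝ} {χ : ℝ → ℝ} {χ' : ℝ} (hr : DifferentiableAt ℝ r z)
    (hχ : HasDerivAt χ χ' (r z)) : dz j (cx fun w => χ (r w)) z = χ' * dz j (cx r) z := by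
  simp only [dz, fderiv_comp_real hr hχ]; ring

theorem dzb_comp_real {r : E N → ℝ} {χ : ℝ → ℝ} {χ' : ℝ} (hr : DifferentiableAt ℝ r z)
    (hχ : HasDerivAt χ χ' (r z)) : dzb j (cx fun w => χ (r w)) z = χ' * dzb j (cx r) z := by
  simp only [dzb, fderiv_comp_real hr hχ]; ring

/-- Chain rule with a holomorphic outer function (inverse, powers, `exp`, `log`, ...). -/
theorem fderiv_comp_hol {h : ℂ → ℂ} {h' : ℂ} (hf : DifferentiableAt ℝ f z)
    (hh : HasDerivAt h h' (f z)) (v : E N) :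
    fderiv ℝ (fun w => h (f w)) z v = h' * fderiv ℝ f z v := by
  have := ((hh.hasFDerivAt.restrictScalars ℝ).comp z hf.hasFDerivAt).fderiv
  have e := congrArg (fun A : E N →L[ℝ] ℂ => A v) this
  simp only [ContinuousLinearMap.comp_apply, ContinuousLinearMap.coe_restrictScalars',
    ContinuousLinearMap.toSpanSingleton_apply, smul_eq_mul] at e
  exact e.trans (mul_comm _ _)

theorem dz_comp_hol {h : ℂ → ℂ} {h' : ℂ} (hf : DifferentiableAt ℝ f z)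
    (hh : HasDerivAt h h' (f z)) : dz j (fun w => h (f w)) z = h' * dz j f z := by
  simp only [dz, fderiv_comp_hol hf hh]; ring

theorem dzb_comp_hol {h : ℂ → ℂ} {h' : ℂ} (hf : DifferentiableAt ℝ f z)
    (hh : HasDerivAt h h' (f z)) : dzb j (fun w => h (f w)) z = h' * dzb j f z := by
  simp only [dzb, fderiv_comp_hol hf hh]; ring

theorem contDiffAt_cx {r : E N → ℝ} {n : WithTop ℕ∞} (hr : ContDiffAt ℝ n r z) :
    ContDiffAt ℝ n (cx r) z := ofRealCLM.contDiff.contDiffAt.comp z hr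

theorem contDiffAt_fderiv_apply (hf : ContDiffAt ℝ ∞ f z) (v : E N) :
    ContDiffAt ℝ ∞ (fun w => fderiv ℝ f w v) z :=
  (hf.fderiv_right (m := ∞) le_rfl).clm_apply contDiffAt_const

theorem contDiffAt_dz (hf : ContDiffAt ℝ ∞ f z) : ContDiffAt ℝ ∞ (dz j f) z :=
  ((contDiffAt_fderiv_apply hf _).sub
    (contDiffAt_const.mul (contDiffAt_fderiv_apply hf _))).div_const 2

theorem contDiffAt_dzb (hf : ContDiffAt ℝ ∞ f z) : ContDiffAt ℝ ∞ (dzb j f) z :=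
  ((contDiffAt_fderiv_apply hf _).add
    (contDiffAt_const.mul (contDiffAt_fderiv_apply hf _))).div_const 2

theorem ContDiffAt.da (hf : ContDiffAt ℝ ∞ f z) : DifferentiableAt ℝ f z :=
  hf.differentiableAt (by simp)

theorem fderiv_comm (hf : ContDiffAt ℝ ∞ f z) (u v : E N) :
    fderiv ℝ (fun w => fderiv ℝ f w v) z u = fderiv ℝ (fun w => fderiv ℝ f w u) z v := by
  have hd : DifferentiableAt ℝ (fderiv ℝ f) z :=
    (hf.fderiv_right (m := ∞) le_rfl).differentiableAt (by simp)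
  have hs := (hf.isSymmSndFDerivAt (by simp; exact WithTop.coe_le_coe.2 le_top)).eq u v
  rw [fderiv_clm_apply hd (differentiableAt_const _), fderiv_clm_apply hd (differentiableAt_const _)]
  simpa using hs

theorem fderiv_dz (hf : ContDiffAt ℝ ∞ f z) (u : E N) :
    fderiv ℝ (dz j f) z u = dz j (fun w => fderiv ℝ f w u) z := by
  have h1 := ContDiffAt.da (contDiffAt_fderiv_apply hf (ee j))
  have h2 := ContDiffAt.da (contDiffAt_fderiv_apply hf (I • ee j))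
  have : dz j f = fun w => (1 / 2 : ℂ) * (fderiv ℝ f w (ee j) - I * fderiv ℝ f w (I • ee j)) := by
    funext w; simp only [dz]; ring
  rw [this, fderiv_const_mul (h1.fun_sub (h2.const_mul I)), fderiv_fun_sub h1 (h2.const_mul I),
    fderiv_const_mul h2]
  simp only [ContinuousLinearMap.smul_apply, ContinuousLinearMap.sub_apply, smul_eq_mul, dz,
    fderiv_comm hf u]
  ring

theorem fderiv_dzb (hf : ContDiffAt ℝ ∞ f z) (u : E N) :
    fderiv ℝ (dzb j f) z u = dzb j (fun w => fderiv ℝ f w u) z := by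
  have h1 := ContDiffAt.da (contDiffAt_fderiv_apply hf (ee j))
  have h2 := ContDiffAt.da (contDiffAt_fderiv_apply hf (I • ee j))
  have : dzb j f = fun w => (1 / 2 : ℂ) * (fderiv ℝ f w (ee j) + I * fderiv ℝ f w (I • ee j)) := by
    funext w; simp only [dzb]; ring
  rw [this, fderiv_const_mul (h1.fun_add (h2.const_mul I)), fderiv_fun_add h1 (h2.const_mul I),
    fderiv_const_mul h2]
  simp only [ContinuousLinearMap.smul_apply, ContinuousLinearMap.add_apply, smul_eq_mul, dzb,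
    fderiv_comm hf u]
  ring

theorem dz_dz_comm (k : Fin N) (hf : ContDiffAt ℝ ∞ f z) :
    dz j (dz k f) z = dz k (dz j f) z := by
  have h1 := ContDiffAt.da (contDiffAt_fderiv_apply hf (ee j))
  have h2 := ContDiffAt.da (contDiffAt_fderiv_apply hf (I • ee j))
  have : dz j f = fun w => (1 / 2 : ℂ) * (fderiv ℝ f w (ee j) - I * fderiv ℝ f w (I • ee j)) := by
    funext w; simp only [dz]; ring
  rw [this, dz_const_mul _ _ (h1.fun_sub (h2.const_mul I)), dz_sub _ h1 (h2.const_mul I),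
    dz_const_mul _ _ h2, ← fderiv_dz k hf, ← fderiv_dz k hf, dz]
  ring

theorem dz_dzb_comm (k : Fin N) (hf : ContDiffAt ℝ ∞ f z) :
    dz j (dzb k f) z = dzb k (dz j f) z := by
  have h1 := ContDiffAt.da (contDiffAt_fderiv_apply hf (ee j))
  have h2 := ContDiffAt.da (contDiffAt_fderiv_apply hf (I • ee j))
  have : dz j f = fun w => (1 / 2 : ℂ) * (fderiv ℝ f w (ee j) - I * fderiv ℝ f w (I • ee j)) := by
    funext w; simp only [dz]; ring
  rw [this, dzb_const_mul _ _ (h1.fun_sub (h2.const_mul I)), dzb_sub _ h1 (h2.const_mul I),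
    dzb_const_mul _ _ h2, ← fderiv_dzb k hf, ← fderiv_dzb k hf, dz]
  ring

theorem dzb_dzb_comm (k : Fin N) (hf : ContDiffAt ℝ ∞ f z) :
    dzb j (dzb k f) z = dzb k (dzb j f) z := by
  have h1 := ContDiffAt.da (contDiffAt_fderiv_apply hf (ee j))
  have h2 := ContDiffAt.da (contDiffAt_fderiv_apply hf (I • ee j))
  have : dzb j f = fun w => (1 / 2 : ℂ) * (fderiv ℝ f w (ee j) + I * fderiv ℝ f w (I • ee j)) := by
    funext w; simp only [dzb]; ring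
  rw [this, dzb_const_mul _ _ (h1.fun_add (h2.const_mul I)), dzb_add _ h1 (h2.const_mul I),
    dzb_const_mul _ _ h2, ← fderiv_dzb k hf, ← fderiv_dzb k hf, dzb]
  ring

theorem dz_normSq (z : E N) : dz j (cx fun w : E N => ‖w‖ ^ 2) z = conj (z j) := by
  have : (cx fun w : E N => ‖w‖ ^ 2) = fun w => ∑ k, w k * conj (w k) := funext norm_sq_eq
  have hc : ∀ k, DifferentiableAt ℝ (fun w : E N => w k) z := fun k =>
    ContDiffAt.da (contDiff_coord k).contDiffAt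
  rw [this, dz_sum j _ fun k _ => (hc k).fun_mul (differentiableAt_conj (hc k))]
  simp [dz_mul j (hc _) (differentiableAt_conj (hc _)), dz_coord, dz_coord_conj]

theorem dzb_normSq (z : E N) : dzb j (cx fun w : E N => ‖w‖ ^ 2) z = z j := by
  rw [dzb_cx, dz_normSq, conj_conj]

end rules

end

end Pool.Agent.MP_fcd29e_an.H81
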