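import Mathlib

/-!
Forms on domains of `ℂℙⁿ`, written on the cone `ℂ^N ∖ {0}`, `N = n + 1`.
-/

set_option autoImplicit false

open MeasureTheory Complex
open scoped ContDiff ComplexConjugate

namespace Pool.Agent.MP_fcd29e_an.H81

noncomputable section

/-- Homogeneous coordinates. -/
abbrev E (N : ℕ) := EuclideanSpace ℂ (Fin N)

variable {N : ℕ}

/-- The `j`-th basis vector. -/
def ee (j : Fin N) : E N := EuclideanSpace.single j 1

/-- `∂/∂z_j`. -/
def dz (j : Fin N) (f : E N → ℂ) (z : E N) : ℂ :=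
  (fderiv ℝ f z (ee j) - I * fderiv ℝ f z (I • ee j)) / 2

/-- `∂/∂z̄_j`. -/
def dzb (j : Fin N) (f : E N → ℂ) (z : E N) : ℂ :=
  (fderiv ℝ f z (ee j) + I * fderiv ℝ f z (I • ee j)) / 2

/-- Test functions on `U`. -/
def Test (U : Set (E N)) (ψ : E N → ℂ) : Prop :=
  ContDiff ℝ ∞ ψ ∧ HasCompactSupport ψ ∧ tsupport ψ ⊆ U

/-- Square integrable on `U ∩ K` for every compact `K` that avoids the origin. -/
def L2 (U : Set (E N)) (f : E N → ℂ) : Prop :=
  ∀ K : Set (E N), IsCompact K → (0 : E N) ∉ K → MemLp f 2 (volume.restrict (U ∩ K))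

/-- `g` is the derivative of `f` in the real direction `v`, in the sense of distributions on `U`. -/
def WD (U : Set (E N)) (v : E N) (f g : E N → ℂ) : Prop :=
  ∀ ψ, Test U ψ → ∫ z in U, f z * fderiv ℝ ψ z v = -∫ z in U, g z * ψ z

/-- The Sobolev space `W^k`, up to the boundary of `U` (away from the vertex of the cone). -/
def Sob (U : Set (E N)) : ℕ → (E N → ℂ) → Prop
  | 0, f => L2 U f
  | k + 1, f => L2 U f ∧ ∀ v, ∃ g, WD U v f g ∧ Sob U k g

/-- `g (c z) = c ^ a * c̄ ^ b * g z` on `U`. -/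
def Hom (U : Set (E N)) (a b : ℤ) (g : E N → ℂ) : Prop :=
  ∀ c : ℂ, c ≠ 0 → ∀ z ∈ U, g (c • z) = c ^ a * conj c ^ b * g z

/-- Coefficients `f_J` of `∑ f_J dz̄^J`. -/
abbrev Arr (N q : ℕ) := (Fin q → Fin N) → E N → ℂ

/-- Pull-backs of `(0,q)`-forms with values in `O(m)`: homogeneous, alternating, and killed by
contraction with the antiholomorphic Euler field. -/
structure HB (U : Set (E N)) (m : ℤ) {q : ℕ} (f : Arr N q) : Prop where
  hom : ∀ J, Hom U m (-q) (f J)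
  alt : ∀ J (σ : Equiv.Perm (Fin q)), ∀ z ∈ U, f (J ∘ σ) z = (Equiv.Perm.sign σ : ℤ) * f J z
  hor : ∀ J (a : Fin q), ∀ z ∈ U, ∑ l, conj (z l) * f (Function.update J a l) z = 0

/-- `∂̄ u = f` in the sense of distributions on `U`. -/
def DB (U : Set (E N)) {q : ℕ} (u : Arr N q) (f : Arr N (q + 1)) : Prop :=
  ∀ J ψ, Test U ψ →
    ∫ z in U, ∑ i : Fin (q + 1), (-1) ^ (i : ℕ) * u (i.removeNth J) z * dzb (J i) ψ z =
      -∫ z in U, f J z * ψ z

/-- Coefficients `f_{I,J}` of `∑ f_{I,J} dz^I ∧ dz̄^J`. -/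
abbrev Form (N p q : ℕ) := (Fin p → Fin N) → Arr N q

/-- Pull-backs to the cone `U` of `(p,q)`-forms on its image in projective space: invariant under
`ℂˣ`, alternating in both groups of indices, killed by both Euler fields. -/
structure Basic (U : Set (E N)) {p q : ℕ} (f : Form N p q) : Prop where
  hb : ∀ I, HB U (-p) (f I)
  alt : ∀ I J (σ : Equiv.Perm (Fin p)), ∀ z ∈ U, f (I ∘ σ) J z = (Equiv.Perm.sign σ : ℤ) * f I J z
  hor : ∀ I J (a : Fin p), ∀ z ∈ U, ∑ l, z l * f (Function.update I a l) J z = 0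

/-- The cone over the domain `{ρ < 0}`. -/
def Om (ρ : E N → ℝ) : Set (E N) := {z | z ≠ 0 ∧ ρ z < 0}

/-- `H^{p,q+1}_{W^k}(Ω) = 0`, with `W^k(Ω)` the space of restrictions to `Ω = {ρ < 0}` of `W^k`
forms on projective space. -/
def Vanish (ρ : E N → ℝ) (k p q : ℕ) : Prop :=
  ∀ f : Form N p (q + 1), Basic {0}ᶜ f → (∀ I J, Sob {0}ᶜ k (f I J)) → (∀ I, DB (Om ρ) (f I) 0) →
    ∃ u : Form N p q, Basic {0}ᶜ u ∧ (∀ I J, Sob {0}ᶜ k (u I J)) ∧ ∀ I, DB (Om ρ) (u I) (f I)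

/-- `ρ` is a defining function of a smoothly bounded, Levi pseudoconvex open subset of projective
space whose closure is not the whole space. -/
structure Dom (ρ : E N → ℝ) : Prop where
  smooth : ContDiffOn ℝ ∞ ρ {0}ᶜ
  inv : ∀ c : ℂ, c ≠ 0 → ∀ z, ρ (c • z) = ρ z
  reg : ∀ z, z ≠ 0 → ρ z = 0 → fderiv ℝ ρ z ≠ 0
  levi : ∀ z, z ≠ 0 → ρ z = 0 → ∀ L : Fin N → ℂ, ∑ j, dz j (fun w => (ρ w : ℂ)) z * L j = 0 →
    0 ≤ (∑ j, ∑ k, dz j (dzb k fun w => (ρ w : ℂ)) z * L j * conj (L k)).re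
  proper : ∃ z, z ≠ 0 ∧ 0 < ρ z

end

end Pool.Agent.MP_fcd29e_an.H81
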