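import Pool.Agent.MP_fcd29e_an.H78.Est
import Pool.Agent.MP_fcd29e_an.H60.POI

/-!
The weighted estimate and the Poincaré inequality on the concave side, real exponents.
-/

set_option autoImplicit false

open MeasureTheory Complex Set Filter Topology Metric
open scoped ContDiff ComplexConjugate ENNReal NNReal

namespace Pool.Agent.MP_fcd29e_an.H81

open H78

/-- The estimate, real exponent. -/
def StmtEstR : Prop := ∀ (N : ℕ) (ρ φ : E N → ℝ), Dom ρ → PHI ρ φ → ∀ κ, Kap κ →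
  ∃ r₀ > 0, ∀ (k : ℝ), 0 ≤ k → ∀ a j : ℕ, ∃ C : ℝ≥0, ∀ w, Temp ρ a w → Hom (Op ρ) (-j) 0 w →
    ∫⁻ z in Op ρ, ENNReal.ofReal (κ (‖z‖ ^ 2) * ρ z ^ (2 * k) * ‖w z‖ ^ 2) ≤
      C * ((∑ l, ∫⁻ z in Op ρ, ENNReal.ofReal (κ (‖z‖ ^ 2) * ρ z ^ (2 * k) * ‖dzb l w z‖ ^ 2)) +
        ∫⁻ z in {z | r₀ ≤ ρ z}, ENNReal.ofReal (κ (‖z‖ ^ 2) * ‖w z‖ ^ 2))

/-- The Poincaré inequality on the concave side, real exponent. -/
def StmtPOIR : Prop := ∀ (N : ℕ), 3 ≤ N → ∀ ρ φ : E N → ℝ, Dom ρ → PHI ρ φ → ∀ κ, Kap κ →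
  ∀ (j : ℕ) (k : ℝ), 0 ≤ k → ∃ C : ℝ, 0 ≤ C ∧ ∀ w : E N → ℂ, ContDiffOn ℝ ∞ w (E0 N) →
    Hom (E0 N) (-j) 0 w → ∃ c : ℂ, (j ≠ 0 → c = 0) ∧
      ∫ z in Op ρ, κ (‖z‖ ^ 2) * ρ z ^ (2 * k) * ‖w z - c‖ ^ 2 ≤
        C * ∑ l, ∫ z in Op ρ, κ (‖z‖ ^ 2) * ρ z ^ (2 * k) * ‖dzb l w z‖ ^ 2

theorem hasDerivAt_fR (k : ℝ) (p : ℕ) {ε s : ℝ} (hε : 0 < ε) (hs : 0 < s) :
    HasDerivAt (fun s : ℝ => s ^ k * (s ^ (p + 1) / (s + ε) ^ (p + 1)))
      (s ^ k * (s ^ (p + 1) / (s + ε) ^ (p + 1)) *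
        (k / s + ((p + 1) / s - (p + 1) / (s + ε)))) s := by
  refine HasDerivAt.congr_deriv ((Real.hasDerivAt_rpow_const (p := k) (Or.inl hs.ne')).mul
    (hasDerivAt_f0 p p hε hs)) ?_
  rw [Real.rpow_sub_one hs.ne']
  ring

/-- The weight in the normal variable. -/
theorem weightR {r : ℝ} (hr : 0 < r) (hr1 : r ≤ 1) (k : ℝ) (hk : 0 ≤ k) (a : ℕ) :
    ∃ D : ℝ, 0 ≤ D ∧ ∀ ε > 0,
    ∃ (f : ℝ → ℝ) (B : ℝ), ContDiffOn ℝ ∞ f (Ioi 0) ∧ (∀ s, 3 * r / 4 ≤ s → f s = 0) ∧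
      (∀ s > 0, s ≤ r → |f s| ≤ B * s ^ (2 * a + 2) ∧ |deriv f s| ≤ B * s ^ (2 * a + 1)) ∧
      ∀ s > 0, 0 ≤ f s ∧ f s ≤ s ^ (2 * k) ∧
        (s < r / 2 → f s = s ^ (2 * k) * (s / (s + ε)) ^ (2 * a + 2)) ∧
        (s ≤ r → ∀ Λ C M : ℝ, 0 ≤ C → -(C * s) ≤ Λ → |Λ| ≤ M →
          -(deriv f s * Λ) ≤ C * (2 * k + 2 * a + 2) * f s + if r / 2 ≤ s then D * M else 0) := by
  obtain ⟨χ, D, hD, hχ, hb, h1, h0, hd⟩ := cutoff hr
  refine ⟨D, hD, fun ε hε => ?_⟩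
  set g : ℝ → ℝ := fun s => s ^ (2 * k) * (s ^ (2 * a + 1 + 1) / (s + ε) ^ (2 * a + 1 + 1))
    with hg
  have ge : ∀ s > 0, g s = s ^ (2 * k) * (s / (s + ε)) ^ (2 * a + 2) := fun s hs => by
    simp only [hg, div_pow]
  have g0 : ∀ s > 0, 0 ≤ g s := fun s hs => by simp only [hg]; positivity
  have g1 : ∀ s > 0, g s ≤ s ^ (2 * k) := fun s hs => by
    rw [ge s hs]
    refine mul_le_of_le_one_right (by positivity) (pow_le_one₀ (by positivity) ?_)
    rw [div_le_one (by positivity)]; linarith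
  have g2 : ∀ s > 0, s ≤ r → g s ≤ s ^ (2 * a + 2) / ε ^ (2 * a + 2) := fun s hs hsr => by
    rw [ge s hs, ← div_pow]
    refine (mul_le_of_le_one_left (by positivity) 
      (Real.rpow_le_one hs.le (hsr.trans hr1) (by positivity))).trans ?_
    exact pow_le_pow_left₀ (by positivity) (div_le_div_of_nonneg_left hs.le hε (by linarith)) _
  have gd : ∀ s > 0, ∃ q : ℝ, 0 ≤ q ∧ q * s ≤ 2 * k + 2 * a + 2 ∧
      deriv (fun s => g s * χ s) s = g s * q * χ s + g s * deriv χ s := fun s hs => by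
    have h := (hasDerivAt_fR (2 * k) (2 * a + 1) hε hs).mul
      ((hχ.differentiable (by simp)) s).hasDerivAt
    refine ⟨_, ?_, ?_, h.deriv⟩
    · refine add_nonneg (by positivity) (sub_nonneg.2 ?_)
      exact div_le_div_of_nonneg_left (by positivity) hs (by linarith)
    · push_cast
      rw [add_mul, sub_mul, div_mul_cancel₀ _ hs.ne', div_mul_cancel₀ _ hs.ne']
      have : 0 ≤ (2 * (a : ℝ) + 1 + 1) / (s + ε) * s := by positivity
      linarith
  refine ⟨fun s => g s * χ s, (2 * k + 2 * a + 2 + D + 1) / ε ^ (2 * a + 2), ?_,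
    fun s h => by simp [h0 s h], fun s hs hsr => ?_, fun s hs => ⟨?_, ?_, fun h => ?_, ?_⟩⟩
  · refine ContDiffOn.mul (ContDiffOn.mul (contDiffOn_id.rpow_const_of_ne fun s hs => ne_of_gt hs)
      (ContDiffOn.div (by fun_prop) (by fun_prop) fun s hs => ?_)) hχ.contDiffOn
    have : (0 : ℝ) < s := hs
    positivity
  · have hs1 : s ≤ 1 := hsr.trans hr1
    have e1 : g s ≤ s * (s ^ (2 * a + 1) / ε ^ (2 * a + 2)) := by
      refine (g2 s hs hsr).trans_eq (by ring)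
    have hP : 0 ≤ s ^ (2 * a + 1) / ε ^ (2 * a + 2) := by positivity
    have hm : (0 : ℝ) ≤ 2 * k + 2 * a + 2 := by positivity
    constructor
    · rw [abs_of_nonneg (mul_nonneg (g0 s hs) (hb s).1)]
      refine (mul_le_of_le_one_right (g0 s hs) (hb s).2).trans ((g2 s hs hsr).trans ?_)
      rw [div_mul_eq_mul_div]
      gcongr
      exact le_mul_of_one_le_left (by positivity) (by linarith)
    · obtain ⟨q, q0, q1, hq⟩ := gd s hs
      rw [hq]
      have b1 : |g s * q * χ s| ≤ (2 * k + 2 * a + 2) * (s ^ (2 * a + 1) / ε ^ (2 * a + 2)) := by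
        rw [abs_of_nonneg (mul_nonneg (mul_nonneg (g0 s hs) q0) (hb s).1)]
        refine (mul_le_of_le_one_right (mul_nonneg (g0 s hs) q0) (hb s).2).trans ?_
        calc g s * q ≤ s * (s ^ (2 * a + 1) / ε ^ (2 * a + 2)) * q := by gcongr
          _ = q * s * (s ^ (2 * a + 1) / ε ^ (2 * a + 2)) := by ring
          _ ≤ _ := by gcongr
      have b2 : |g s * deriv χ s| ≤ D * (s ^ (2 * a + 1) / ε ^ (2 * a + 2)) := by
        rw [abs_mul, abs_of_nonneg (g0 s hs), mul_comm]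
        exact mul_le_mul (hd s ⟨hs.le, hsr⟩) (e1.trans (mul_le_of_le_one_left hP hs1)) (g0 s hs) hD
      refine (abs_add_le _ _).trans ((add_le_add b1 b2).trans ?_)
      rw [div_mul_eq_mul_div, mul_div_assoc]
      nlinarith
  · exact mul_nonneg (g0 s hs) (hb s).1
  · exact (mul_le_of_le_one_right (g0 s hs) (hb s).2).trans (g1 s hs)
  · simp only [(h1 s h).1, mul_one, ge s hs]
  · intro hsr Λ C M hC hΛ hM
    obtain ⟨q, q0, q1, hq⟩ := gd s hs
    rw [hq]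
    have hf : 0 ≤ g s * χ s := mul_nonneg (g0 s hs) (hb s).1
    have b1 : -(g s * q * χ s * Λ) ≤ C * (2 * k + 2 * a + 2) * (g s * χ s) := by
      calc -(g s * q * χ s * Λ) = g s * χ s * q * -Λ := by ring
        _ ≤ g s * χ s * q * (C * s) := by gcongr; linarith
        _ = C * (q * s) * (g s * χ s) := by ring
        _ ≤ _ := by gcongr
    have b2 : -(g s * deriv χ s * Λ) ≤ if r / 2 ≤ s then D * M else 0 := by
      split_ifs with h
      · refine (neg_le_abs _).trans ?_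
        rw [abs_mul, abs_mul, abs_of_nonneg (g0 s hs)]
        refine mul_le_mul ?_ hM (abs_nonneg _) hD
        exact (mul_le_of_le_one_left (abs_nonneg _)
          ((g1 s hs).trans (Real.rpow_le_one hs.le (hsr.trans hr1) (by positivity)))).trans
          (hd s ⟨hs.le, hsr⟩)
      · simp [(h1 s (not_le.1 h)).2]
    linarith

theorem estR (L : Lv0) (h3 : StmtE3) (h4 : StmtE4) : StmtEstR := by
  intro N ρ φ hρ hφ κ hκ
  obtain ⟨-, hO, -, hcone, hmeas, ⟨B, hB⟩, -, -, -, -, hc, -⟩ := L.c1 N ρ hρ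
  obtain ⟨r, hr, hr1, c, hc0, C₁, hcol⟩ := hc φ hφ
  obtain ⟨-, hts, hSh, h0S, -⟩ := (L.t3.2 N).1 κ hκ
  obtain ⟨hEu, -, -, hpf⟩ := L.pf N
  obtain ⟨hRo, -, -, -, htr, -⟩ := hpf ρ hρ
  have hSI : SI ρ φ := ⟨hφ.smooth, hφ.inv⟩
  have ρc : ∀ z : E N, z ≠ 0 → ContDiffAt ℝ ∞ ρ z := fun z hz =>
    hρ.smooth.contDiffAt (isOpen_E0.mem_nhds hz)
  set K : Set (E N) := Sh N ∩ ρ ⁻¹' Icc 0 r with hK
  have Kc : IsCompact K := by
    refine hSh.of_isClosed_subset (ContinuousOn.preimage_isClosed_of_isClosed ?_ hSh.isClosed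
      isClosed_Icc) inter_subset_left
    exact fun z hz => (ρc z fun h => h0S (h ▸ hz)).continuousAt.continuousWithinAt
  have KR : K ⊆ Reg ρ := fun z hz => (hcol z hz.1 hz.2.1 hz.2.2).1
  obtain ⟨C₃, hC₃⟩ := h3 N ρ φ hρ hSI K KR Kc
  obtain ⟨M, hM⟩ := Kc.exists_bound_of_continuousOn (hφ.smooth.continuousOn.mono KR)
  obtain ⟨M', hM'⟩ := Kc.exists_bound_of_continuousOn (f := trH ρ ρ) fun z hz =>
    (htr z (KR hz) ρ (ρc z (KR hz).1)).2.2.1.continuousAt.continuousWithinAt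
  refine ⟨r / 2, by positivity, fun k hk a j => ?_⟩
  obtain ⟨D, hD, hw⟩ := weightR hr hr1 k hk a
  set m : ℝ := 2 * k + 2 * a + 2 with hm
  have m0 : 0 ≤ m := by positivity
  set t : ℝ := (1 + |C₃| + |C₁| * m) / c with ht
  have t0 : 0 ≤ t := by positivity
  have tc : t * c = 1 + |C₃| + |C₁| * m := div_mul_cancel₀ _ hc0.ne'
  set e : ℝ := Real.exp (t * M) with he
  have e0 : 0 < e := Real.exp_pos _
  set C : ℝ := e ^ 2 * (|C₃| + D * |M'|) + B ^ (2 * k) with hC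
  have B0 : 0 ≤ B ^ (2 * k) := Real.rpow_nonneg ((abs_nonneg _).trans (hB 0)) _
  have C0 : 0 ≤ C := by positivity
  refine ⟨C.toNNReal, fun w hT hH => ?_⟩
  set S : Set (E N) := {z | r / 2 ≤ ρ z} with hS
  have Sm : MeasurableSet S := measurableSet_le measurable_const hmeas
  have wc : ∀ z ∈ Op ρ, ContDiffAt ℝ ∞ w z := fun z hz => hT.1.contDiffAt (hO.mem_nhds hz)
  have κc : Continuous fun z : E N => κ (‖z‖ ^ 2) := hκ.smooth.continuous.comp (by fun_prop)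
  have κ0 := hκ.nonneg
  have ρm : Measurable fun z => ρ z ^ (2 * k) := hmeas.pow_const _
  -- the right-hand side
  set G : E N → ℝ := fun z => ∑ l, κ (‖z‖ ^ 2) * ρ z ^ (2 * k) * ‖dzb l w z‖ ^ 2 +
    S.indicator (fun z => κ (‖z‖ ^ 2) * ‖w z‖ ^ 2) z with hG
  have p0 : ∀ z ∈ Op ρ, 0 ≤ ρ z ^ (2 * k) := fun z hz => Real.rpow_nonneg hz.2.le _
  have q0 : ∀ l, ∀ z ∈ Op ρ, 0 ≤ κ (‖z‖ ^ 2) * ρ z ^ (2 * k) * ‖dzb l w z‖ ^ 2 := fun l z hz =>
    mul_nonneg (mul_nonneg (κ0 _) (p0 z hz)) (sq_nonneg _)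
  have i0 : ∀ z, 0 ≤ S.indicator (fun z => κ (‖z‖ ^ 2) * ‖w z‖ ^ 2) z := fun z =>
    indicator_nonneg (fun y _ => mul_nonneg (κ0 _) (sq_nonneg _)) z
  have G0 : ∀ z ∈ Op ρ, 0 ≤ G z := fun z hz =>
    add_nonneg (Finset.sum_nonneg fun l _ => q0 l z hz) (i0 z)
  have hGI : ∫⁻ z in Op ρ, ENNReal.ofReal (C * G z) ≤ C.toNNReal *
      ((∑ l, ∫⁻ z in Op ρ, ENNReal.ofReal (κ (‖z‖ ^ 2) * ρ z ^ (2 * k) * ‖dzb l w z‖ ^ 2)) +
        ∫⁻ z in S, ENNReal.ofReal (κ (‖z‖ ^ 2) * ‖w z‖ ^ 2)) := by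
    have me : ∀ l, AEMeasurable
        (fun z => ENNReal.ofReal (κ (‖z‖ ^ 2) * ρ z ^ (2 * k) * ‖dzb l w z‖ ^ 2))
        (volume.restrict (Op ρ)) := fun l => by
      have : ContinuousOn (dzb l w) (Op ρ) := fun z hz =>
        (contDiffAt_dzb l (wc z hz)).continuousAt.continuousWithinAt
      exact ((κc.measurable.mul ρm).aemeasurable.mul
        ((this.aemeasurable hO.measurableSet).norm.pow_const 2)).ennreal_ofReal
    have e1 : ∀ z ∈ Op ρ, ENNReal.ofReal (C * G z) = ENNReal.ofReal C *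
        (∑ l, ENNReal.ofReal (κ (‖z‖ ^ 2) * ρ z ^ (2 * k) * ‖dzb l w z‖ ^ 2) +
          S.indicator (fun z => ENNReal.ofReal (κ (‖z‖ ^ 2) * ‖w z‖ ^ 2)) z) := fun z hz => by
      rw [ENNReal.ofReal_mul C0, hG,
        ENNReal.ofReal_add (Finset.sum_nonneg fun l _ => q0 l z hz) (i0 z),
        ENNReal.ofReal_sum_of_nonneg fun l _ => q0 l z hz]
      by_cases hz : z ∈ S <;> simp [hz]
    rw [setLIntegral_congr_fun hO.measurableSet e1, lintegral_const_mul' _ _ ENNReal.ofReal_ne_top,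
      lintegral_add_left' (Finset.aemeasurable_fun_sum _ fun l _ => me l),
      lintegral_finsetSum' _ fun l _ => me l]
    refine mul_le_mul' le_rfl (add_le_add le_rfl ?_)
    rw [← lintegral_indicator Sm]
    exact lintegral_mono' Measure.restrict_le_self le_rfl
  refine le_trans ?_ hGI
  -- the estimate for each `ε`
  have key : ∀ ε > 0, ∫⁻ z in Op ρ, ENNReal.ofReal (κ (‖z‖ ^ 2) * ρ z ^ (2 * k) * ‖w z‖ ^ 2 *
      (ρ z / (ρ z + ε)) ^ (2 * a + 2)) ≤ ∫⁻ z in Op ρ, ENNReal.ofReal (C * G z) := by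
    intro ε hε
    obtain ⟨f, B', fs, f0, fb, fp⟩ := hw ε hε
    obtain ⟨hI, hI0⟩ := h4 N ρ φ hρ hSI κ f hκ r (3 * r / 4) t B' a w (by linarith)
      (fun z hz h1 h2 => (hcol z hz h1 h2).1) fs f0 fb hT
    set d : E N → ℂ := fun z =>
      ∑ l, dz l (FA f κ t ρ φ w l) z + ∑ l, dzb l (FB f κ t ρ φ w l) z with hd
    refine lint_le (g := fun z => e * (d z).re) (hI.re.const_mul e) ?_ ?_
    · rw [integral_const_mul]
      have := integral_re hI
      simp only [RCLike.re_to_complex] at this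
      rw [this, hI0]; simp
    refine (ae_restrict_iff' hO.measurableSet).2 (Eventually.of_forall fun z hz => ?_)
    have hz0 : 0 < ρ z := hz.2
    obtain ⟨fp0, fp1, fp2, fp3⟩ := fp (ρ z) hz0
    have u0 : 0 ≤ (ρ z / (ρ z + ε)) ^ (2 * a + 2) := by positivity
    have u1 : (ρ z / (ρ z + ε)) ^ (2 * a + 2) ≤ 1 := by
      refine pow_le_one₀ (by positivity) ?_
      rw [div_le_one (by positivity)]; linarith
    have κz := κ0 (‖z‖ ^ 2)
    have pz := p0 z hz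
    refine ⟨by positivity, mul_nonneg C0 (G0 z hz), ?_⟩
    set I : ℝ := S.indicator (fun z => κ (‖z‖ ^ 2) * ‖w z‖ ^ 2) z with hI'
    have I0 : 0 ≤ I := i0 z
    set Q : ℝ := ∑ l, ‖dzb l w z‖ ^ 2 with hQ
    have Q0 : 0 ≤ Q := by positivity
    have eG : G z = κ (‖z‖ ^ 2) * ρ z ^ (2 * k) * Q + I := by
      rw [hG, hQ, Finset.mul_sum]
    have s1 : κ (‖z‖ ^ 2) * ρ z ^ (2 * k) * ‖w z‖ ^ 2 * (ρ z / (ρ z + ε)) ^ (2 * a + 2) ≤
        f (ρ z) * κ (‖z‖ ^ 2) * ‖w z‖ ^ 2 + B ^ (2 * k) * I := by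
      by_cases hs : r / 2 ≤ ρ z
      · have : I = κ (‖z‖ ^ 2) * ‖w z‖ ^ 2 := indicator_of_mem (s := S) hs _
        have hb : ρ z ^ (2 * k) ≤ B ^ (2 * k) :=
          Real.rpow_le_rpow hz0.le ((le_abs_self _).trans (hB z)) (by positivity)
        refine le_add_of_nonneg_of_le (by positivity) ?_
        refine (mul_le_of_le_one_right (by positivity) u1).trans ?_
        rw [this]
        calc κ (‖z‖ ^ 2) * ρ z ^ (2 * k) * ‖w z‖ ^ 2 =
            ρ z ^ (2 * k) * (κ (‖z‖ ^ 2) * ‖w z‖ ^ 2) := by ring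
          _ ≤ _ := by gcongr
      · rw [fp2 (not_le.1 hs)]
        refine le_add_of_le_of_nonneg (le_of_eq (by ring)) (by positivity)
    have s2 : f (ρ z) * κ (‖z‖ ^ 2) * ‖w z‖ ^ 2 + e * (d z).re ≤
        e ^ 2 * (|C₃| * (κ (‖z‖ ^ 2) * ρ z ^ (2 * k) * Q) + D * |M'| * I) := by
      by_cases hzK : z ∈ K
      · obtain ⟨-, c1, c2⟩ := hcol z hzK.1 hzK.2.1 hzK.2.2
        have hx := fp3 hzK.2.2 (trH ρ ρ z) |C₁| |M'| (abs_nonneg _)
          ((neg_le_neg (mul_le_mul_of_nonneg_right (le_abs_self _) hz0.le)).trans c2)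
          ((hM' z hzK).trans (le_abs_self _))
        have hE : ∑ l, z l * dz l w z = -(j : ℂ) * w z := by
          have := ((hEu (Op ρ) (-j) 0 w hO hcone hH).2 z hz (ContDiffAt.da (wc z hz))).1
          simpa using this
        have h := hC₃ t f κ w j z hzK
          ((fs.contDiffAt (Ioi_mem_nhds hz0)).differentiableAt (by simp))
          (hκ.smooth.differentiable (by simp) _) fp0 κz (wc z hz) hE
        have b := abs_le.1 (hM z hzK)
        have R0 : 0 ≤ if r / 2 ≤ ρ z then D * |M'| else 0 := by split_ifs <;> positivity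
        have := arith (E := e) fp0 κz (Real.exp_pos (t * φ z)) Q0 (sq_nonneg ‖w z‖) R0 t0 c1
          (Real.exp_le_exp.2 (by gcongr; exact b.2))
          (by
            rw [he, ← Real.exp_add, ← mul_add]
            exact Real.one_le_exp (mul_nonneg t0 (by linarith [b.1]))) tc hx h
        refine this.trans ?_
        have e2 : (if r / 2 ≤ ρ z then D * |M'| else 0) * (κ (‖z‖ ^ 2) * ‖w z‖ ^ 2) =
            D * |M'| * I := by
          split_ifs with hs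
          · rw [hI', indicator_of_mem (s := S) hs]
          · rw [hI', indicator_of_notMem (s := S) hs]; simp
        rw [e2, mul_comm (κ _) (ρ z ^ _)]
        gcongr
      · have hv : ∀ᶠ y in 𝓝 z, f (ρ y) * κ (‖y‖ ^ 2) = 0 := by
          by_cases hzS : z ∈ Sh N
          · have : r < ρ z := by
              by_contra hn
              exact hzK ⟨hzS, hz0.le, not_lt.1 hn⟩
            filter_upwards [(ρc z hz.1).continuousAt.eventually (Ioi_mem_nhds this)] with y hy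
            rw [f0 (ρ y) (by have : r < ρ y := hy; linarith), zero_mul]
          · filter_upwards [hSh.isClosed.isOpen_compl.mem_nhds hzS] with y hy
            have : (κ (‖y‖ ^ 2) : ℂ) = 0 :=
              image_eq_zero_of_notMem_tsupport (f := fun z : E N => (κ (‖z‖ ^ 2) : ℂ))
                fun h => hy (hts h)
            rw [ofReal_eq_zero.1 this, mul_zero]
        have d0 : d z = 0 := div_zero hv
        rw [d0, hv.self_of_nhds]
        simp only [zero_mul, zero_re, mul_zero, add_zero]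
        positivity
    have X0 : 0 ≤ κ (‖z‖ ^ 2) * ρ z ^ (2 * k) * Q := by positivity
    rw [eG, hC]
    have y1 : 0 ≤ e ^ 2 * (|C₃| * I + D * |M'| * (κ (‖z‖ ^ 2) * ρ z ^ (2 * k) * Q)) := by
      positivity
    have y2 : 0 ≤ B ^ (2 * k) * (κ (‖z‖ ^ 2) * ρ z ^ (2 * k) * Q) := by positivity
    linarith
  -- Fatou
  have wm : AEMeasurable w (volume.restrict (Op ρ)) :=
    hT.1.continuousOn.aemeasurable hO.measurableSet
  have F := lintegral_liminf_le' (μ := volume.restrict (Op ρ)) (u := atTop)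
    (f := fun (n : ℕ) z => ENNReal.ofReal (κ (‖z‖ ^ 2) * ρ z ^ (2 * k) * ‖w z‖ ^ 2 *
      (ρ z / (ρ z + 1 / ((n : ℝ) + 1))) ^ (2 * a + 2))) fun n =>
    (((κc.measurable.mul ρm).aemeasurable.mul (wm.norm.pow_const 2)).mul
      ((hmeas.div (hmeas.add_const _)).pow_const (2 * a + 2)).aemeasurable).ennreal_ofReal
  refine le_trans (le_of_eq ?_) (F.trans (liminf_le_of_frequently_le'
    (Frequently.of_forall fun n => key _ Nat.one_div_pos_of_nat)))
  refine setLIntegral_congr_fun hO.measurableSet fun z hz => ?_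
  have hz0 : 0 < ρ z := hz.2
  refine (Tendsto.liminf_eq ?_).symm
  refine ENNReal.tendsto_ofReal ?_
  have l1 : Tendsto (fun n : ℕ => ρ z / (ρ z + 1 / ((n : ℝ) + 1))) atTop (𝓝 1) := by
    have := (tendsto_const_nhds (x := ρ z)).div
      ((tendsto_const_nhds (x := ρ z)).add tendsto_one_div_add_atTop_nhds_zero_nat)
      (by simpa using hz0.ne')
    rwa [add_zero, div_self hz0.ne'] at this
  simpa using (l1.pow (2 * a + 2)).const_mul (κ (‖z‖ ^ 2) * ρ z ^ (2 * k) * ‖w z‖ ^ 2)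

theorem poiR (L : Lv0) (he : StmtEstR) (h2 : StmtW2) (hp : StmtPOI) : StmtPOIR := by
  intro N hN ρ φ hρ hφ κ hκ j k hk
  obtain ⟨-, hO, -, -, hmeas, ⟨B, hB⟩, -⟩ := L.c1 N ρ hρ
  obtain ⟨r, hr, hE⟩ := he N ρ φ hρ hφ κ hκ
  obtain ⟨C, hE⟩ := hE k hk 0 j
  obtain ⟨n, hn⟩ := exists_nat_ge k
  obtain ⟨D, hD, hP⟩ := hp N hN ρ φ hρ hφ κ hκ j n
  have B0 : 0 ≤ B := (abs_nonneg _).trans (hB 0)
  have κ0 := hκ.nonneg
  have hI : ∀ u : E N → ℂ, ContinuousOn u (E0 N) →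
      IntegrableOn (fun z => κ (‖z‖ ^ 2) * ρ z ^ (2 * k) * ‖u z‖ ^ 2) (Op ρ) := fun u hu => by
    have := H60.intK L hκ (F := fun z => ρ z ^ (2 * k) * ‖u z‖ ^ 2)
      ((hρ.smooth.continuousOn.rpow_const fun _ _ => Or.inr (by positivity)).mul (hu.norm.pow _))
    simp only [smul_eq_mul, ← mul_assoc] at this
    exact this.integrableOn
  have h0 : ∀ u : E N → ℂ, 0 ≤ᵐ[volume.restrict (Op ρ)]
      fun z => κ (‖z‖ ^ 2) * ρ z ^ (2 * k) * ‖u z‖ ^ 2 := fun u =>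
    ae_restrict_of_forall_mem hO.measurableSet fun z hz =>
      mul_nonneg (mul_nonneg (κ0 _) (Real.rpow_nonneg hz.2.le _)) (sq_nonneg _)
  refine ⟨C * (1 + (r ^ (2 * n))⁻¹ * (D * B ^ (2 * (n - k)))), by positivity, fun w hw hh => ?_⟩
  obtain ⟨c, hc, hP⟩ := hP w hw hh
  refine ⟨c, hc, ?_⟩
  have hv : ContDiffOn ℝ ∞ (fun z => w z - c) (E0 N) := hw.sub contDiffOn_const
  have hd : ∀ l, ContinuousOn (dzb l w) (E0 N) := fun l z hz =>
    (contDiffAt_dzb l (hw.contDiffAt (isOpen_E0.mem_nhds hz))).continuousAt.continuousWithinAt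
  have h6 := hE _ (((h2 N (by omega)).2.2 ρ hρ).2 _ hv) fun a ha z hz =>
    H60.hom_sub hh hc a ha z hz.1
  set X : ℝ := ∑ l, ∫ z in Op ρ, κ (‖z‖ ^ 2) * ρ z ^ (2 * k) * ‖dzb l w z‖ ^ 2 with hX
  have x0 : ∀ l, 0 ≤ ∫ z in Op ρ, κ (‖z‖ ^ 2) * ρ z ^ (2 * k) * ‖dzb l w z‖ ^ 2 := fun l =>
    integral_nonneg_of_ae (h0 _)
  have X0 : 0 ≤ X := Finset.sum_nonneg fun l _ => x0 l
  have e1 : ∑ l, ∫⁻ z in Op ρ, ENNReal.ofReal
      (κ (‖z‖ ^ 2) * ρ z ^ (2 * k) * ‖dzb l (fun z => w z - c) z‖ ^ 2) = ENNReal.ofReal X := by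
    rw [hX, ENNReal.ofReal_sum_of_nonneg fun l _ => x0 l]
    refine Finset.sum_congr rfl fun l _ => ?_
    rw [ofReal_integral_eq_lintegral_ofReal (hI _ (hd l)) (h0 _)]
    refine setLIntegral_congr_fun hO.measurableSet fun z hz => ?_
    rw [dzb_sub l (ContDiffAt.da (hw.contDiffAt (isOpen_E0.mem_nhds hz.1)))
      (differentiableAt_const c), dzb_const, sub_zero]
  have e2 : ∑ l, ∫ z in Op ρ, κ (‖z‖ ^ 2) * ρ z ^ (2 * n) * ‖dzb l w z‖ ^ 2 ≤
      B ^ (2 * (n - k)) * X := by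
    rw [hX, Finset.mul_sum]
    refine Finset.sum_le_sum fun l _ => ?_
    rw [← integral_const_mul]
    refine setIntegral_mono_on (H60.intA L hρ hκ (hd l)) ((hI _ (hd l)).const_mul _)
      hO.measurableSet fun z hz => ?_
    have a1 : ρ z ^ (2 * n) = ρ z ^ (2 * (n - k)) * ρ z ^ (2 * k) := by
      rw [← Real.rpow_add hz.2, ← Real.rpow_natCast]
      congr 1
      push_cast
      ring
    have a2 : ρ z ^ (2 * (n - k)) ≤ B ^ (2 * (n - k)) :=
      Real.rpow_le_rpow hz.2.le ((le_abs_self _).trans (hB z)) (by linarith)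
    have a3 := Real.rpow_nonneg hz.2.le (2 * k)
    have a4 := κ0 (‖z‖ ^ 2)
    rw [a1]
    calc _ = ρ z ^ (2 * (n - k)) * (κ (‖z‖ ^ 2) * ρ z ^ (2 * k) * ‖dzb l w z‖ ^ 2) := by ring
      _ ≤ _ := mul_le_mul_of_nonneg_right a2 (by positivity)
  have e3 : ∫⁻ z in {z | r ≤ ρ z}, ENNReal.ofReal (κ (‖z‖ ^ 2) * ‖w z - c‖ ^ 2) ≤
      ENNReal.ofReal ((r ^ (2 * n))⁻¹ * (D * B ^ (2 * (n - k))) * X) := by
    have a1 := (H60.intA (k := n) L hρ hκ hv.continuousOn).const_mul (r ^ (2 * n))⁻¹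
    have a2 : ∀ z, 0 ≤ (r ^ (2 * n))⁻¹ * (κ (‖z‖ ^ 2) * ρ z ^ (2 * n) * ‖w z - c‖ ^ 2) :=
      fun z => mul_nonneg (by positivity) (mul_nonneg (H60.gnn hκ z) (sq_nonneg _))
    calc _ ≤ ∫⁻ z in Op ρ, ENNReal.ofReal
          ((r ^ (2 * n))⁻¹ * (κ (‖z‖ ^ 2) * ρ z ^ (2 * n) * ‖w z - c‖ ^ 2)) := by
          rw [← lintegral_indicator (measurableSet_le measurable_const hmeas),
            ← lintegral_indicator hO.measurableSet]
          refine lintegral_mono fun z => ?_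
          by_cases hz : r ≤ ρ z
          · rw [indicator_of_mem (s := {z | r ≤ ρ z}) hz]
            by_cases hz0 : z = 0
            · have : κ 0 = 0 := by
                by_contra h
                linarith [(hκ.supp 0 h).1]
              simp [hz0, this]
            · rw [indicator_of_mem (s := Op ρ) ⟨hz0, hr.trans_le hz⟩]
              refine ENNReal.ofReal_le_ofReal ?_
              rw [le_inv_mul_iff₀ (by positivity)]
              have a4 := κ0 (‖z‖ ^ 2)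
              calc _ = κ (‖z‖ ^ 2) * r ^ (2 * n) * ‖w z - c‖ ^ 2 := by ring
                _ ≤ _ := by gcongr
          · rw [indicator_of_notMem (s := {z | r ≤ ρ z}) hz]
            exact zero_le
      _ ≤ _ := by
          rw [← ofReal_integral_eq_lintegral_ofReal a1 (ae_of_all _ a2), integral_const_mul,
            mul_assoc, mul_assoc D]
          exact ENNReal.ofReal_le_ofReal (mul_le_mul_of_nonneg_left
            (hP.trans (mul_le_mul_of_nonneg_left e2 hD)) (by positivity))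
  rw [e1, ← ofReal_integral_eq_lintegral_ofReal (hI _ hv.continuousOn) (h0 _)] at h6
  have h7 := h6.trans (mul_le_mul_right (add_le_add_right e3 _) _)
  rw [← ENNReal.ofReal_add X0 (by positivity), ← ENNReal.ofReal_coe_nnreal,
    ← ENNReal.ofReal_mul C.coe_nonneg, ENNReal.ofReal_le_ofReal_iff (by positivity)] at h7
  exact h7.trans_eq (by ring)

end Pool.Agent.MP_fcd29e_an.H81
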