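import Pool.Agent.MP_fcd29e_an.H70.T0
import Pool.Agent.MP_fcd29e_an.H45.T1
import Pool.Agent.MP_fcd29e_an.H44.SB
import Pool.Agent.MP_fcd29e_an.H75.T2
import Pool.Agent.MP_fcd29e_an.H82.T3
import Pool.Agent.MP_fcd29e_an.H55.T4
import Pool.Agent.MP_fcd29e_an.H1.PF
import Pool.Agent.MP_fcd29e_an.H65.C1
import Pool.Agent.MP_fcd29e_an.H26.C2
import Pool.Agent.MP_fcd29e_an.H39.BM1
import Pool.Agent.MP_fcd29e_an.H67.BM2
import Pool.Agent.MP_fcd29e_an.H99.YG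
import Pool.Agent.MP_fcd29e_an.H28.RZ
import Pool.Agent.MP_fcd29e_an.H56.AL1
import Pool.Agent.MP_fcd29e_an.H27.AL2
import Pool.Agent.MP_fcd29e_an.H4.E1
import Pool.Agent.MP_fcd29e_an.H96.E2
import Pool.Agent.MP_fcd29e_an.H40.E3
import Pool.Agent.MP_fcd29e_an.H64.E4
import Pool.Agent.MP_fcd29e_an.H78.Est
import Pool.Agent.MP_fcd29e_an.H37.W1
import Pool.Agent.MP_fcd29e_an.H87.W2
import Pool.Agent.MP_fcd29e_an.H62.Conn
import Pool.Agent.MP_fcd29e_an.H68.LIO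
import Pool.Agent.MP_fcd29e_an.H60.POI
import Pool.Agent.MP_fcd29e_an.H96.DIV
import Pool.Agent.MP_fcd29e_an.H59.HAR
import Pool.Agent.MP_fcd29e_an.H81.ORI
import Pool.Agent.MP_fcd29e_an.H16.NEW
import Pool.Agent.MP_fcd29e_an.H4.EC
import Pool.Agent.MP_fcd29e_an.H45.SCH
import Pool.Agent.MP_fcd29e_an.H61.TK0
import Pool.Agent.MP_fcd29e_an.H28.TC
import Pool.Agent.MP_fcd29e_an.H37.FRM
import Pool.Agent.MP_fcd29e_an.H54.LB
import Pool.Agent.MP_fcd29e_an.H67.LT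
import Pool.Agent.MP_fcd29e_an.H63.FT
import Pool.Agent.MP_fcd29e_an.H33.R
import Pool.Agent.MP_fcd29e_an.H73.FP
import Pool.Agent.MP_fcd29e_an.H82.D0
import Pool.Agent.MP_fcd29e_an.H27.D1
import Pool.Agent.MP_fcd29e_an.H4.GR
import Pool.Agent.MP_fcd29e_an.H26.FLW
import Pool.Agent.MP_fcd29e_an.H96.D2
import Pool.Agent.MP_fcd29e_an.H4.CH
import Pool.Agent.MP_fcd29e_an.H84.D3
import Pool.Agent.MP_fcd29e_an.H40.FL
import Pool.Agent.MP_fcd29e_an.H61.TK1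
import Pool.Agent.MP_fcd29e_an.H59.TK2
import Pool.Agent.MP_fcd29e_an.H9.CUT
import Pool.Agent.MP_fcd29e_an.H87.TH1
import Pool.Agent.MP_fcd29e_an.H16.TH2
import Pool.Agent.MP_fcd29e_an.H26.TH3
import Pool.Agent.MP_fcd29e_an.H16.TH4
import Pool.Agent.MP_fcd29e_an.H96.FLB
import Pool.Agent.MP_fcd29e_an.H19.D5a
import Pool.Agent.MP_fcd29e_an.H54.D5
import Pool.Agent.MP_fcd29e_an.H94.QA
import Pool.Agent.MP_fcd29e_an.H37.H1
import Pool.Agent.MP_fcd29e_an.H99.H1w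
import Pool.Agent.MP_fcd29e_an.H1.H2
import Pool.Agent.MP_fcd29e_an.H78.H4
import Pool.Agent.MP_fcd29e_an.H31.H5
import Pool.Agent.MP_fcd29e_an.H64.MU
import Pool.Agent.MP_fcd29e_an.H59.Null
import Pool.Agent.MP_fcd29e_an.H9.S1
import Pool.Agent.MP_fcd29e_an.H26.S2
import Pool.Agent.MP_fcd29e_an.H31.S3
import Pool.Agent.MP_fcd29e_an.H96.LOG
import Pool.Agent.MP_fcd29e_an.H99.G1
import Pool.Agent.MP_fcd29e_an.H75.G2
import Pool.Agent.MP_fcd29e_an.H86.G3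
import Pool.Agent.MP_fcd29e_an.H66.G4
import Pool.Agent.MP_fcd29e_an.H93.D

/-!
Assembly.
-/

set_option autoImplicit false

namespace Pool.Agent.MP_fcd29e_an.H81

theorem allT2 : StmtT2 := fun N a b =>
  ⟨H75.t2a H70.t0 H45.t1 N a b, fun g κ hκ hg hab => H75.rot_zero H70.t0 g κ hκ hg hab⟩

theorem lv0 : Lv0 where
  t0 := H70.t0
  t1 := H45.t1
  sb := H44.sb H45.t1
  t2 := allT2
  t3 := H82.t3 H70.t0 H45.t1
  t4 := H55.t4 H70.t0 H45.t1 (H82.t3 H70.t0 H45.t1)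
  pf := H1.pf
  c1 := H65.c1 H1.pf
  c2 := H26.c2 H1.pf (H65.c1 H1.pf)
  bm1 := H39.bm1 H70.t0
  bm2 := H67.bm2 H70.t0 H45.t1 (H39.bm1 H70.t0)
  yg := H99.yg H70.t0 (H39.bm1 H70.t0)
  rz := H28.rz
  al1 := H56.al1
  al2 := H27.al2 H56.al1

theorem allEst : StmtEst := H78.est lv0 (H40.e3 lv0 H96.e2) (H64.e4 lv0 (H4.e1 lv0))

theorem allFP : StmtFP := H73.fp lv0

theorem allLIO : StmtLIO := H68.lio lv0 allEst (H87.w2 lv0) (H62.con lv0 allFP)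

theorem allPOI : StmtPOI := H60.poi lv0 allEst (H37.w1 lv0) (H87.w2 lv0) allLIO

theorem lv1 : Lv1 where
  toLv0 := lv0
  div := H96.div lv0 allPOI
  har := H59.har lv0
  new := H16.new lv0 (ori lv0)
  ec := H4.ec lv0
  tc := H28.tc lv0 (H61.tk0 lv0 (H45.sch lv0))
  frm := H37.frm lv0

theorem allR : StmtR := H33.thmR lv1 (H54.lb lv1) (H63.ft lv1 (H67.lt lv1))

theorem allD2 : StmtD2 := H96.d2 lv0 H4.gr

theorem allFL : StmtFL := H40.fl lv0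

theorem allCUT : StmtCUT := H9.cutoff lv0 allFL

theorem allLOG : StmtLOG := H96.logi lv0

theorem allQA : StmtQA := H94.qa lv0

theorem allH5 : StmtH5 :=
  H31.h5 lv0 (H1.h2 lv0 allQA allLOG) (H78.h4 lv0 allQA (H99.h1w lv0 (H37.h1 lv0)))

theorem allS1 : StmtS1 := H9.s1 lv0 allLOG

theorem allS2 : StmtS2 := H26.s2 lv0 allS1

theorem allG4 : StmtG4 :=
  H66.g4 lv0 allLOG (H54.d5 lv0 allFP (H19.d5a lv0)) (H96.flb lv0 allFL) allS1 allS2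
    (H31.s3 lv0 allS1 allS2) (H99.g1 lv0 allQA allLOG) (H75.g2 lv0 allLOG allQA allH5)
    (H86.g3 lv0 allLOG allS2)

theorem allD : StmtD :=
  H93.thmD lv0 (H82.d0 lv0) (H27.d1 lv0) allD2
    (H84.d3 lv0 (H27.d1 lv0) H4.gr (H26.flw lv0) allD2 allFP (H4.ch lv0))
    (H59.tk2 lv0 allFL (H61.tk1 lv0))
    (H16.th4 lv0 allD2 allFL (H87.th1 lv0 H4.gr (H26.flw lv0)) (H26.th3 lv0 allCUT H16.th2))
    allCUT (H64.mu lv0) (H59.nul lv0 allD2) allG4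

end Pool.Agent.MP_fcd29e_an.H81
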