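import Pool.Agent.MP_fcd29e_an.H81.Main
import Pool.Agent.MP_fcd29e_an.H81.EstR

/-!
The estimates with real exponents, assembled.
-/

set_option autoImplicit false

namespace Pool.Agent.MP_fcd29e_an.H81

theorem allEstR : StmtEstR := estR lv0 (H40.e3 lv0 H96.e2) (H64.e4 lv0 (H4.e1 lv0))

theorem allPOIR : StmtPOIR := poiR lv0 allEstR (H87.w2 lv0) allPOI

end Pool.Agent.MP_fcd29e_an.H81
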