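import Pool.Agent.MP_fcd29e_an.H81.Basic
import Pool.Agent.MP_fcd29e_an.H31.DefsR

/-! The Sobolev embedding: a function of class `W^s`, `s > N`, has a continuous representative. -/

set_option autoImplicit false

open MeasureTheory Complex Set Filter Topology Metric Pool.Agent.MP_fcd29e_an.H31
open scoped ContDiff FourierTransform SchwartzMap

namespace Pool.Agent.MP_fcd29e_an.H81.Pz

variable {N : ℕ}

theorem eqOn_ae {U : Set (E N)} (hU : IsOpen U) {f g : E N → ℂ} (hf : ContinuousOn f U)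
    (hg : ContinuousOn g U) (h : ∀ᵐ z, z ∈ U → f z = g z) : ∀ z ∈ U, f z = g z :=
  Measure.eqOn_open_of_ae_eq ((ae_restrict_iff' hU.measurableSet).2 h) hU hf hg

theorem emb0 {s : ℝ} (hs : (N : ℝ) < s) {g : E N → ℂ} (h : MemLp g 2 volume)
    (hg : TemperedDistribution.MemSobolev s 2 ((h.toLp g : Lp ℂ 2 volume) : 𝓢'(E N, ℂ))) :
    ∃ G : E N → ℂ, Continuous G ∧ ∀ᵐ z, g z = G z := by
  obtain ⟨v, hv⟩ := hg.fourier_memL1 (by rw [finrank_E]; push_cast; linarith)
  have hi : Integrable (v : E N → ℂ) := memLp_one_iff_integrable.1 (Lp.memLp v)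
  have hL : Continuous fun p : E N × E N => (-innerₗ (E N)) p.1 p.2 :=
    (continuous_inner (𝕜 := ℝ) (E := E N)).neg
  have hc : Continuous (𝓕⁻ (v : E N → ℂ)) :=
    VectorFourier.fourierIntegral_continuous Real.continuous_fourierChar hL hi
  refine ⟨_, hc, ae_eq_of_integral_contDiff_smul_eq (h.locallyIntegrable (by norm_num))
    hc.locallyIntegrable fun k hk hk' => ?_⟩
  have k1 : ContDiff ℝ ∞ fun x => (k x : ℂ) := ofRealCLM.contDiff.comp hk
  have k2 : HasCompactSupport fun x => (k x : ℂ) := hk'.comp_left (g := ofReal) rfl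
  set Ψ : 𝓢(E N, ℂ) := k2.toSchwartzMap k1 with hΨ
  have e2 := congrArg (fun T : 𝓢'(E N, ℂ) => T (𝓕⁻ Ψ)) hv
  simp only [TemperedDistribution.fourier_apply, FourierTransform.fourier_fourierInv_eq,
    Lp.toTemperedDistribution_apply] at e2
  have e3 := VectorFourier.integral_fourierIntegral_smul_eq_flip (μ := volume) (ν := volume)
    (L := -innerₗ (E N)) Real.continuous_fourierChar hL Ψ.integrable hi
  have e4 : (-innerₗ (E N)).flip = -innerₗ (E N) := by
    ext x y
    simp [real_inner_comm]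
  rw [e4] at e3
  calc ∫ x, k x • g x = ∫ x, Ψ x • (h.toLp g : E N → ℂ) x := by
        refine integral_congr_ae ?_
        filter_upwards [h.coeFn_toLp] with x hx
        rw [hx]
        rfl
    _ = ∫ x, (𝓕⁻ Ψ : 𝓢(E N, ℂ)) x • v x := e2
    _ = ∫ x, Ψ x • 𝓕⁻ (v : E N → ℂ) x := by
        rw [SchwartzMap.fourierInv_coe]
        exact e3
    _ = _ := rfl

theorem emb1 {s : ℝ} (hs : (N : ℝ) < s) {f : E N → ℂ} (hf : SobR s f) (x : E N) (hx : x ≠ 0) :
    ∃ (B : Set (E N)) (G : E N → ℂ), IsOpen B ∧ x ∈ B ∧ Continuous G ∧ ∀ᵐ z, z ∈ B → f z = G z := by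
  have hr : 0 < ‖x‖ := norm_pos_iff.2 hx
  let b : ContDiffBump x := ⟨‖x‖ / 4, ‖x‖ / 2, by positivity, by linarith⟩
  have ht : Test {0}ᶜ fun z => (b z : ℂ) := by
    refine ⟨ofRealCLM.contDiff.comp b.contDiff, b.hasCompactSupport.comp_left (g := ofReal) rfl,
      (tsupport_comp_subset (g := ofReal) rfl b).trans ?_⟩
    rw [b.tsupport_eq]
    rintro z hz rfl
    have : ‖x‖ ≤ ‖x‖ / 2 := by simpa using hz
    linarith
  obtain ⟨h1, h2⟩ := hf _ ht
  obtain ⟨G, hG, e⟩ := emb0 hs h1 h2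
  refine ⟨ball x (‖x‖ / 4), G, isOpen_ball, mem_ball_self (by positivity), hG, ?_⟩
  filter_upwards [e] with z hz hb
  rw [← hz, b.one_of_mem_closedBall (ball_subset_closedBall hb), ofReal_one, one_mul]

/-- The Sobolev embedding on the punctured space. -/
theorem emb {s : ℝ} (hs : (N : ℝ) < s) {f : E N → ℂ} (hf : SobR s f) :
    ∃ g : E N → ℂ, ContinuousOn g (E0 N) ∧ ∀ᵐ z, z ∈ E0 N → f z = g z := by
  choose! B G hB hx hG e using emb1 hs hf
  have key : ∀ x, x ≠ 0 → ∀ y ∈ B x, y ≠ 0 → G y y = G x y := fun x h0 y hy h1 =>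
    eqOn_ae ((hB x h0).inter (hB y h1)) (hG y h1).continuousOn (hG x h0).continuousOn
      (by
        filter_upwards [e x h0, e y h1] with z a1 a2 hz
        rw [← a1 hz.1, ← a2 hz.2]) y ⟨hy, hx y h1⟩
  refine ⟨fun x => G x x, fun x h0 => ?_, ?_⟩
  · refine ((hG x h0).continuousAt.congr ?_).continuousWithinAt
    filter_upwards [(hB x h0).mem_nhds (hx x h0), isOpen_E0.mem_nhds h0] with y a1 a2
    exact (key x h0 y a1 a2).symm
  · rw [ae_iff]
    refine measure_null_of_locally_null _ fun x hx' => ?_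
    have h0 : x ≠ 0 := (Classical.not_imp.1 hx').1
    refine ⟨_, inter_mem_nhdsWithin _ ((hB x h0).mem_nhds (hx x h0)), ?_⟩
    refine measure_mono_null (fun y hy => ?_) (ae_iff.1 (e x h0))
    obtain ⟨a1, a2⟩ := Classical.not_imp.1 hy.1
    exact fun a3 => a2 ((a3 hy.2).trans (key x h0 y hy.2 a1).symm)

end Pool.Agent.MP_fcd29e_an.H81.Pz
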