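import Pool.Agent.MP_fcd29e_an.H11.FTg3
import Pool.Agent.MP_fcd29e_an.H81.PzEmb

/-! Classical calculus of smooth forms on the punctured space. -/

set_option autoImplicit false

open MeasureTheory Complex Set Filter Topology Pool.Agent.MP_fcd29e_an.H63
open scoped ContDiff ComplexConjugate

namespace Pool.Agent.MP_fcd29e_an.H81.Pz

noncomputable section

variable {N p q : ℕ}

/-- smooth off the origin -/
abbrev Sm (f : E N → ℂ) : Prop := ContDiffOn ℝ ∞ f (E0 N)

theorem Sm.at {f : E N → ℂ} (h : Sm f) {z : E N} (hz : z ≠ 0) : ContDiffAt ℝ ∞ f z :=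
  h.contDiffAt (isOpen_E0.mem_nhds hz)

/-- the classical `∂̄` -/
def dC (u : Arr N q) : Arr N (q + 1) := fun J z =>
  ∑ i : Fin (q + 1), (-1) ^ (i : ℕ) * dzb (J i) (u (i.removeNth J)) z

/-- wedge product with a `(1,0)`-form -/
def wF (θ : Fin N → E N → ℂ) (g : Form N p q) : Form N (p + 1) q := fun I J z =>
  ∑ a : Fin (p + 1), (-1) ^ (a : ℕ) * θ (I a) z * g (a.removeNth I) J z

/-- contraction with a vector field -/
def iF (X : Fin N → E N → ℂ) (f : Form N (p + 1) q) : Form N p q := fun I J z =>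
  ∑ l, X l z * f (Fin.cons l I) J z

theorem dC_sm {u : Arr N q} (hu : ∀ J, Sm (u J)) (J : Fin (q + 1) → Fin N) : Sm (dC u J) :=
  ContDiffOn.sum fun _ _ => contDiffOn_const.mul fun _ hz =>
    (contDiffAt_dzb _ ((hu _).at hz)).contDiffWithinAt

theorem dC_congr {U : Set (E N)} (hU : IsOpen U) {u v : Arr N q} (h : ∀ J, ∀ z ∈ U, u J z = v J z)
    (J : Fin (q + 1) → Fin N) {z : E N} (hz : z ∈ U) : dC u J z = dC v J z :=
  Finset.sum_congr rfl fun _ _ => by
    rw [dzb_congr (eventuallyEq_of_mem (hU.mem_nhds hz) (h _))]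

theorem dC_zero {U : Set (E N)} (hU : IsOpen U) {u : Arr N q} (h : ∀ J, ∀ z ∈ U, u J z = 0)
    (J : Fin (q + 1) → Fin N) {z : E N} (hz : z ∈ U) : dC u J z = 0 := by
  rw [dC_congr hU (v := fun _ _ => 0) h J hz]
  simp [dC]

theorem dC_comb {ι : Type} [Fintype ι] (s : ι → E N → ℂ) (u : ι → Arr N q) (hs : ∀ i, Sm (s i))
    (hh : ∀ i j z, dzb j (s i) z = 0) (hu : ∀ i J, Sm (u i J)) (J : Fin (q + 1) → Fin N) {z : E N}
    (hz : z ≠ 0) : dC (fun J z => ∑ i, s i z * u i J z) J z = ∑ i, s i z * dC (u i) J z := by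
  simp only [dC, Finset.mul_sum]
  rw [Finset.sum_comm]
  refine Finset.sum_congr rfl fun a _ => ?_
  rw [dzb_sum _ _ fun i _ => ContDiffAt.da (((hs i).at hz).mul ((hu i _).at hz)), Finset.mul_sum]
  refine Finset.sum_congr rfl fun i _ => ?_
  rw [dzb_mul _ (ContDiffAt.da ((hs i).at hz)) (ContDiffAt.da ((hu i _).at hz)), hh]
  ring

theorem dC_db (L : Lv1) {U : Set (E N)} (hU : IsOpen U) (h0 : (0 : E N) ∉ U) {u : Arr N q}
    (hu : ∀ J, Sm (u J)) : DB U u (dC u) := by
  intro J ψ hψ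
  obtain ⟨T1, -, T3, T4, -, T6, -⟩ := L.t1 N U hU h0
  have sub : U ⊆ E0 N := fun z hz e => h0 ((mem_singleton_iff.1 e) ▸ hz)
  have i1 : ∀ f g, Sm f → Test U g → IntegrableOn (fun z => f z * g z) U := fun f g hf hg =>
    ((T1 f (T3 f hf.continuousOn)).2.2.1 g hg.1.continuous hg.2.1 hg.2.2).1.integrableOn
  have d1 : ∀ j K, Sm (dzb j (u K)) := fun j K _ hz =>
    (contDiffAt_dzb _ ((hu _).at hz)).contDiffWithinAt
  simp only [dC, Finset.sum_mul, mul_assoc]
  rw [integral_finsetSum _ fun i _ => (i1 _ _ (hu _) ((T4 ψ hψ).2.2.1 _).2).const_mul _,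
    integral_finsetSum _ fun i _ => (i1 _ _ (d1 _ _) hψ).const_mul _, ← Finset.sum_neg_distrib]
  refine Finset.sum_congr rfl fun i _ => ?_
  rw [integral_const_mul, integral_const_mul, ((T6 _ ((hu _).mono sub)).2 _).1 ψ hψ, mul_neg]

theorem uniq (L : Lv1) {u : Arr N q} {f : Arr N (q + 1)} (h : DB (E0 N) u f) (h' : DB (E0 N) u 0)
    (hf : ∀ J, ContinuousOn (f J) (E0 N)) (J : Fin (q + 1) → Fin N) {z : E N} (hz : z ≠ 0) :
    f J z = 0 := by
  obtain ⟨T1, -, T3, -, T5, -⟩ := L.t1 N (E0 N) isOpen_E0 cone_E0.1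
  refine eqOn_ae isOpen_E0 (hf J) continuousOn_const (T5 _ (T1 _ (T3 _ (hf J))).1 fun ψ hψ => ?_)
    z hz
  simpa using (h J ψ hψ).symm.trans (h' J ψ hψ)

theorem l2_sm (L : Lv1) {U : Set (E N)} (hU : IsOpen U) (h0 : (0 : E N) ∉ U) {f : E N → ℂ}
    (hf : Sm f) : L2 U f := (L.t1 N U hU h0).2.2.1 f hf.continuousOn

theorem dC_dC (L : Lv1) {u : Arr N q} (hu : ∀ J, Sm (u J)) (J : Fin (q + 1 + 1) → Fin N) {z : E N}
    (hz : z ≠ 0) : dC (dC u) J z = 0 :=
  uniq L (dC_db L isOpen_E0 cone_E0.1 (dC_sm hu))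
    (((L.frm N q _ isOpen_E0 cone_E0.1).1 _ _ (dC_db L isOpen_E0 cone_E0.1 hu)).2.2.2
      (fun J => l2_sm L isOpen_E0 cone_E0.1 (hu J))
      fun J => l2_sm L isOpen_E0 cone_E0.1 (dC_sm hu J)).1
    (fun J => (dC_sm (dC_sm hu) J).continuousOn) J hz

theorem dC_alt (L : Lv1) {u : Arr N q} (hu : ∀ J, Sm (u J))
    (ha : ∀ z, z ≠ 0 → altA fun J => u J z) {z : E N} (hz : z ≠ 0) : altA fun J => dC u J z := by
  have e : ∀ J, dC u J z = ∑ l, wdA (fun j => if j = l then 1 else 0)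
      (fun K => dzb l (u K) z) J := fun J => by
    simp only [dC, wdA]
    rw [Finset.sum_comm]
    exact Finset.sum_congr rfl fun a _ => by simp
  intro J σ
  simp only [e, Finset.mul_sum]
  refine Finset.sum_congr rfl fun l _ => ((L.al1 N q 0 _).1 _).1 (fun K τ => ?_) J σ
  rw [← dzb_const_mul _ _ (ContDiffAt.da ((hu K).at hz))]
  exact dzb_congr (eventuallyEq_of_mem (isOpen_E0.mem_nhds hz) fun y hy => ha y hy K τ) l

theorem dC_hb (L : Lv1) {m : ℤ} {u : Arr N q} (hu : ∀ J, Sm (u J)) (h : HB (E0 N) m u) :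
    HB (E0 N) m (dC u) := by
  have ha : ∀ z, z ≠ 0 → altA fun J => u J z := fun z hz J σ => h.alt J σ z hz
  refine ⟨fun J c hc z hz => ?_, fun J σ z hz => dC_alt L hu ha hz J σ, fun J a z hz => ?_⟩
  · simp only [dC, Finset.mul_sum]
    refine Finset.sum_congr rfl fun i _ => ?_
    rw [(((L.pf N).1 _ _ _ _ isOpen_E0 cone_E0 (h.hom _)).1 _).2 c hc z hz,
      show -((q + 1 : ℕ) : ℤ) = -(q : ℤ) - 1 by push_cast; ring]
    ring
  · refine ((L.al1 N q (fun l => conj (z l)) 0).2 _ (dC_alt L hu ha hz)).2.2.2.1.2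
      (fun K => ?_) J a
    cases q with
    | zero =>
      have := (((L.pf N).1 _ _ _ _ isOpen_E0 cone_E0 (h.hom K)).2 z hz
        (ContDiffAt.da ((hu K).at hz))).2
      have e : ∀ K' : Fin 0 → Fin N, u K' = u K := fun K' => congrArg u (Subsingleton.elim _ _)
      simp only [ibA, dC, Fin.sum_univ_succ, Finset.univ_eq_empty, Finset.sum_empty, e]
      simpa using this
    | succ q =>
      have F := L.frm N q _ isOpen_E0 cone_E0.1
      have h1 := F.2.2.2 m u (dC u) cone_E0 (dC_db L isOpen_E0 cone_E0.1 hu)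
        (fun J => ⟨l2_sm L isOpen_E0 cone_E0.1 (hu J), h.hom J⟩)
        (fun J => l2_sm L isOpen_E0 cone_E0.1 (dC_sm hu J)) ha
      have h2 : DB (E0 N) (ib u) 0 := (F.1 0 0 fun J ψ _ => by simp).1 _ _
        (fun J => Eventually.of_forall fun y hy =>
          (((L.al1 N q (fun l => conj (y l)) 0).2 _ (ha y hy)).2.2.2.1.1
            (fun J a => h.hor J a y hy) J).symm) fun J => Eventually.of_forall fun _ _ => rfl
      refine neg_eq_zero.1 (uniq L h1 h2 (fun J => ContinuousOn.neg ?_) K hz)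
      change ContinuousOn (fun z : E N => ∑ l, conj (z l) * dC u (Fin.cons l J) z) _
      exact continuousOn_finsetSum _ fun l _ => ContinuousOn.mul
        (continuous_conj.comp (contDiff_coord (n := 0) l).continuous).continuousOn
        (dC_sm hu _).continuousOn

theorem dC_basic (L : Lv1) {a : Form N p q} (hs : ∀ I J, Sm (a I J)) (h : Basic (E0 N) a) :
    Basic (E0 N) fun I => dC (a I) := by
  refine ⟨fun I => dC_hb L (hs I) (h.hb I), fun I J σ z hz => ?_, fun I J b z hz => ?_⟩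
  · have := dC_comb (fun (_ : Unit) _ => ((Equiv.Perm.sign σ : ℤ) : ℂ)) (fun _ => a I)
      (fun _ => contDiffOn_const) (fun _ j z => dzb_const j _ z) (fun _ => hs I) J hz
    simp only [Finset.univ_unique, Finset.sum_singleton] at this
    rw [← this]
    exact dC_congr isOpen_E0 (fun K y hy => h.alt I K σ y hy) J hz
  · rw [← dC_comb (fun l z => z l) (fun l => a (Function.update I b l))
      (fun l => (contDiff_coord l).contDiffOn) (fun l j z => dzb_coord j l z) (fun _ => hs _) J hz]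
    exact dC_zero isOpen_E0 (fun K y hy => h.hor I K b y hy) J hz

theorem wF_basic (L : Lv1) {θ : Fin N → E N → ℂ} (h1 : ∀ l, Hom (E0 N) (-1) 0 (θ l))
    (h2 : ∀ z : E N, z ≠ 0 → ∑ l, z l * θ l z = 0) {g : Form N p q} (h : Basic (E0 N) g) :
    Basic (E0 N) (wF θ g) :=
  ⟨fun I => hb_comb (a := -1) (m := -p) (by push_cast; ring)
      (fun (a : Fin (p + 1)) z => (-1) ^ (a : ℕ) * θ (I a) z) _
      (fun a c hc z hz => by beta_reduce; rw [h1 _ c hc z hz]; ring) fun _ => h.hb _,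
    fun I J σ z hz => ((L.al1 N p 0 fun l => θ l z).1 fun I => g I J z).1
      (fun I σ => h.alt I J σ z hz) I σ,
    fun I J a z hz => ((L.al1 N p (fun l => z l) fun l => θ l z).1 fun I => g I J z).2.2.1
      (fun I σ => h.alt I J σ z hz) (fun I a => h.hor I J a z hz) (h2 z hz) I a⟩

theorem iF_basic (L : Lv1) {X : Fin N → E N → ℂ} (h1 : ∀ l, Hom (E0 N) 1 0 (X l))
    {f : Form N (p + 1) q} (h : Basic (E0 N) f) : Basic (E0 N) (iF X f) := by
  refine ⟨fun I => hb_comb (a := 1) (m := -((p + 1 : ℕ) : ℤ)) (by push_cast; ring) X _ h1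
      fun _ => h.hb _, fun I J σ z hz => ((L.al1 N p (fun l => X l z) 0).2 (fun I => f I J z)
        fun I σ => h.alt I J σ z hz).1 I σ, fun I J a z hz => ?_⟩
  simp only [iF, Finset.mul_sum]
  rw [Finset.sum_comm]
  refine Finset.sum_eq_zero fun l _ => ?_
  have := h.hor (Fin.cons l I) J a.succ z hz
  simp only [← Fin.cons_update] at this
  simp only [mul_left_comm (z _), ← Finset.mul_sum, this, mul_zero]

theorem basic_sub {f g : Form N p q} (hf : Basic (E0 N) f) (hg : Basic (E0 N) g) :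
    Basic (E0 N) fun I J z => f I J z - g I J z :=
  ⟨fun I => H33.hb_sub _ _ (hf.hb I) (hg.hb I),
    fun I J σ z hz => by rw [hf.alt I J σ z hz, hg.alt I J σ z hz, mul_sub],
    fun I J a z hz => by
      simp only [mul_sub, Finset.sum_sub_distrib, hf.hor I J a z hz, hg.hor I J a z hz, sub_zero]⟩

end

end Pool.Agent.MP_fcd29e_an.H81.Pz
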