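import Pool.Agent.MP_fcd29e_an.H81.Spec

/-! Compact sets filled with holomorphic discs; the maximum principle. -/

set_option autoImplicit false

open Complex Set Filter Topology Metric

namespace Pool.Agent.MP_fcd29e_an.H81.Pz

variable {N : ℕ}

/-- A non-empty closed cone through each point of which there is a holomorphic disc which lies in
the cone and is not tangent to the complex line of the point. -/
structure Fil (K : Set (E N)) : Prop where
  ne : K.Nonempty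
  cone : Cone K
  closed : IsClosed (insert 0 K)
  disc : ∀ k ∈ K, ∃ (r : ℝ) (γ : ℂ → E N), 0 < r ∧ DifferentiableOn ℂ γ (ball 0 r) ∧ γ 0 = k ∧
    MapsTo γ (ball 0 r) K ∧ ∀ c : ℂ, deriv γ 0 ≠ c • k

/-- Invariant functions, continuous and holomorphic in the domain, separate points. -/
def Sep (ρ : E N → ℝ) : Prop := ∀ x0 x1 : E N, x0 ≠ 0 → (∀ c : ℂ, x1 ≠ c • x0) →
  ∃ F : E N → ℂ, ContinuousOn F (E0 N) ∧ Hom (E0 N) 0 0 F ∧ DifferentiableOn ℂ F (Om ρ) ∧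
    F x0 = 1 ∧ F x1 = 0

/-- a direction into the domain -/
theorem push (L : StmtC1) {ρ : E N → ℝ} (h : Dom ρ) {p : E N} (h0 : p ≠ 0) (hp : ρ p ≤ 0) :
    ∃ (v : E N) (r : ℝ), 0 < r ∧ closedBall p r ⊆ E0 N ∧ ∀ z, ρ z ≤ 0 → ∀ t : ℝ, 0 < t →
      ‖z - p‖ + t * ‖v‖ ≤ r → z - t • v ∈ Om ρ := by
  obtain ⟨hO, -, -, -, -, -, -, -, hv, -⟩ := L N ρ h
  rcases hp.lt_or_eq with c | c
  · obtain ⟨r, r0, hr⟩ := nhds_basis_closedBall.mem_iff.1 (hO.mem_nhds ⟨h0, c⟩)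
    refine ⟨0, r, r0, fun z hz => (hr hz).1, fun z _ t _ ht => hr ?_⟩
    simpa [mem_closedBall, dist_eq_norm] using ht
  · obtain ⟨v, r, r0, r1, hr⟩ := hv p h0 c
    have hb : closedBall p r ⊆ E0 N := by
      rintro z hz rfl
      have : ‖p‖ ≤ r := by simpa using hz
      linarith
    refine ⟨v, r, r0, hb, fun z hz t t0 ht => ?_⟩
    have hm : ∀ u ∈ Icc (0 : ℝ) t, z - u • v ∈ closedBall p r := fun u hu => by
      rw [mem_closedBall, dist_eq_norm, sub_right_comm]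
      refine (norm_sub_le _ _).trans ?_
      rw [norm_smul, Real.norm_of_nonneg hu.1]
      nlinarith [mul_le_mul_of_nonneg_right hu.2 (norm_nonneg v)]
    have hd : ∀ u ∈ Icc (0 : ℝ) t, HasDerivAt (fun u : ℝ => ρ (z - u • v))
        (-fderiv ℝ ρ (z - u • v) v) u := fun u hu => by
      have a1 : DifferentiableAt ℝ ρ (z - u • v) :=
        (h.smooth.contDiffAt (isOpen_E0.mem_nhds (hb (hm u hu)))).differentiableAt (by simp)
      have a2 : HasDerivAt (fun u : ℝ => z - u • v) (-v) u := by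
        simpa using ((hasDerivAt_id u).smul_const v).const_sub z
      rw [← map_neg]
      exact a1.hasFDerivAt.comp_hasDerivAt u a2
    have hs : StrictAntiOn (fun u : ℝ => ρ (z - u • v)) (Icc 0 t) :=
      strictAntiOn_of_deriv_neg (convex_Icc _ _)
        (fun u hu => (hd u hu).continuousAt.continuousWithinAt) fun u hu => by
          rw [(hd u (interior_subset hu)).deriv]
          linarith [hr _ (hm u (interior_subset hu))]
    have := hs (left_mem_Icc.2 t0.le) (right_mem_Icc.2 t0.le) t0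
    simp only [zero_smul, sub_zero] at this
    exact ⟨hb (hm t (right_mem_Icc.2 t0.le)), by linarith⟩

/-- holomorphic on discs in the closure -/
theorem hol_disc (L : StmtC1) {ρ : E N → ℝ} (h : Dom ρ) {F : E N → ℂ}
    (hc : ContinuousOn F (E0 N)) (hF : DifferentiableOn ℂ F (Om ρ)) {γ : ℂ → E N} {D : Set ℂ}
    (hD : IsOpen D) (hγ : DifferentiableOn ℂ γ D) (hm : ∀ ζ ∈ D, γ ζ ≠ 0 ∧ ρ (γ ζ) ≤ 0) :
    DifferentiableOn ℂ (fun ζ => F (γ ζ)) D := by
  intro ζ0 h0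
  obtain ⟨v, r, r0, hb, hv⟩ := push L h (hm ζ0 h0).1 (hm ζ0 h0).2
  have hU : IsOpen (D ∩ γ ⁻¹' ball (γ ζ0) (r / 2)) :=
    hγ.continuousOn.isOpen_inter_preimage hD isOpen_ball
  have hm0 : ζ0 ∈ D ∩ γ ⁻¹' ball (γ ζ0) (r / 2) := ⟨h0, mem_ball_self (by positivity)⟩
  have hsm : ∀ δ > 0, ∀ᶠ t : ℝ in 𝓝[>] 0, 0 < t ∧ t * ‖v‖ < δ := fun δ hδ =>
    (eventually_mem_nhdsWithin).and (nhdsWithin_le_nhds
      ((continuous_id.mul continuous_const).continuousAt.eventually_lt continuousAt_const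
        (by simpa using hδ)))
  have hn : ∀ ζ ∈ D ∩ γ ⁻¹' ball (γ ζ0) (r / 2), ‖γ ζ - γ ζ0‖ < r / 2 := fun ζ hζ => by
    simpa [dist_eq_norm] using hζ.2
  have ht : TendstoUniformlyOn (fun (t : ℝ) ζ => F (γ ζ - t • v)) (fun ζ => F (γ ζ)) (𝓝[>] 0)
      (D ∩ γ ⁻¹' ball (γ ζ0) (r / 2)) := by
    rw [Metric.tendstoUniformlyOn_iff]
    intro ε hε
    obtain ⟨δ, hδ, hu⟩ := Metric.uniformContinuousOn_iff.1
      ((isCompact_closedBall (γ ζ0) r).uniformContinuousOn_of_continuous (hc.mono hb)) ε hε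
    filter_upwards [hsm δ hδ, hsm (r / 2) (by positivity)] with t t1 t2 ζ hζ
    have a1 : ‖t • v‖ = t * ‖v‖ := by rw [norm_smul, Real.norm_of_nonneg t1.1.le]
    refine hu _ ?_ _ ?_ ?_
    · rw [mem_closedBall, dist_eq_norm]
      linarith [hn ζ hζ]
    · rw [mem_closedBall, dist_eq_norm, sub_right_comm]
      linarith [norm_sub_le (γ ζ - γ ζ0) (t • v), hn ζ hζ, t2.2]
    · rw [dist_eq_norm, sub_sub_cancel, a1]
      exact t1.2
  have := ht.tendstoLocallyUniformlyOn.differentiableOn (by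
    filter_upwards [hsm (r / 2) (by positivity)] with t t2
    exact hF.comp ((hγ.mono inter_subset_left).sub_const _) fun ζ hζ =>
      hv _ (hm ζ hζ.1).2 t t2.1 (by linarith [hn ζ hζ, t2.2])) hU
  exact (this.differentiableAt (hU.mem_nhds hm0)).differentiableWithinAt

/-- a disc which is not tangent to the line leaves the line -/
theorem leave {γ : ℂ → E N} {r : ℝ} {k : E N} (r0 : 0 < r) (hγ : DifferentiableOn ℂ γ (ball 0 r))
    (hd : ∀ c : ℂ, deriv γ 0 ≠ c • k) : ∃ ζ ∈ ball (0 : ℂ) r, ∀ c : ℂ, γ ζ ≠ c • k := by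
  by_contra! hh
  have hm : ∀ ζ ∈ ball (0 : ℂ) r, γ ζ ∈ Submodule.span ℂ {k} := fun ζ hζ => by
    obtain ⟨c, e⟩ := hh ζ hζ
    exact Submodule.mem_span_singleton.2 ⟨c, e.symm⟩
  have h1 := (hγ.differentiableAt (ball_mem_nhds 0 r0)).hasDerivAt.tendsto_slope
  have h2 : deriv γ 0 ∈ Submodule.span ℂ {k} := by
    refine (Submodule.closed_of_finiteDimensional _).mem_of_tendsto h1 ?_
    filter_upwards [nhdsWithin_le_nhds (ball_mem_nhds (0 : ℂ) r0)] with ζ hζ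
    exact Submodule.smul_mem _ _ (Submodule.sub_mem _ (hm ζ hζ) (hm 0 (mem_ball_self r0)))
  obtain ⟨c, e⟩ := Submodule.mem_span_singleton.1 h2
  exact hd c e.symm

/-- If the functions separate points, the closure contains no cone filled with discs. -/
theorem noFil (L : StmtC1) {ρ : E N → ℝ} (h : Dom ρ) (hS : Sep ρ) {K : Set (E N)} (hK : Fil K)
    (hρ : ∀ z ∈ K, ρ z ≤ 0) : False := by
  choose! r γ r0 hγ g0 gm gd using hK.disc
  have K0 : ∀ z ∈ K, z ≠ 0 := fun z hz e => hK.cone.1 (e ▸ hz)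
  let nr : E N → E N := fun z => ((‖z‖ : ℂ)⁻¹) • z
  have n0 : ∀ z ∈ K, ((‖z‖ : ℂ)⁻¹) ≠ 0 := fun z hz => by simpa using K0 z hz
  have n1 : ∀ z ∈ K, nr z ∈ K ∩ sphere 0 1 := fun z hz =>
    ⟨hK.cone.2 _ (n0 z hz) z hz, by simp [nr, norm_smul, K0 z hz]⟩
  have hC : IsClosed (K ∩ sphere (0 : E N) 1) := by
    convert hK.closed.inter (isClosed_sphere (x := (0 : E N)) (ε := 1)) using 1
    ext z
    refine ⟨fun a => ⟨Or.inr a.1, a.2⟩, fun a => ⟨a.1.resolve_left fun e => ?_, a.2⟩⟩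
    simpa [e] using a.2
  let S : Set (Set (E N)) := {C | C ⊆ K ∩ sphere 0 1 ∧ IsClosed C ∧ C.Nonempty ∧
    ∀ k ∈ C, ∀ ζ ∈ ball (0 : ℂ) (r k), nr (γ k ζ) ∈ C}
  have cp : ∀ C ∈ S, IsCompact C := fun C hC =>
    (isCompact_sphere (0 : E N) 1).of_isClosed_subset hC.2.1 (hC.1.trans inter_subset_right)
  obtain ⟨k0, hk0⟩ := hK.ne
  obtain ⟨C, -, hm⟩ := zorn_superset_nonempty S (fun c hc hch hne => by
    have : Nonempty c := hne.to_subtype
    obtain ⟨C0, hC0⟩ := hne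
    refine ⟨⋂₀ c, ⟨(sInter_subset_of_mem hC0).trans (hc hC0).1,
      isClosed_sInter fun C a => (hc a).2.1,
      IsCompact.nonempty_sInter_of_directed_nonempty_isCompact_isClosed
        (IsChain.directedOn hch.symm) (fun C a => (hc a).2.2.1) (fun C a => cp C (hc a))
        fun C a => (hc a).2.1,
      fun k hk ζ hζ C a => (hc a).2.2.2 k (hk C a) ζ hζ⟩, fun C a => sInter_subset_of_mem a⟩)
    (K ∩ sphere 0 1) ⟨Subset.rfl, hC, ⟨_, n1 k0 hk0⟩, fun k hk ζ hζ => n1 _ (gm k hk.1 hζ)⟩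
  obtain ⟨c1, c2, ⟨x0, hx0⟩, c4⟩ := hm.1
  have x0K := (c1 hx0).1
  obtain ⟨ζ1, hζ1, hl⟩ := leave (r0 x0 x0K) (hγ x0 x0K) (gd x0 x0K)
  obtain ⟨F, f1, f2, f3, f4, f5⟩ := hS x0 (nr (γ x0 ζ1)) (K0 x0 x0K) fun c e =>
    hl ((‖γ x0 ζ1‖ : ℂ) * c) (by
      rw [mul_smul, ← e, smul_inv_smul₀ (by simpa using K0 _ (gm x0 x0K hζ1))])
  have fn : ∀ z ∈ K, F (nr z) = F z := fun z hz => by simpa using f2 _ (n0 z hz) z (K0 z hz)
  have fc : ContinuousOn (fun z => (F z).re) C :=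
    continuous_re.comp_continuousOn (f1.mono fun z hz => K0 z (c1 hz).1)
  obtain ⟨y, hy, hmax⟩ := (cp C hm.1).exists_isMaxOn ⟨x0, hx0⟩ fc
  have hS1 : C ∩ (fun z => (F z).re) ⁻¹' {(F y).re} ∈ S := by
    refine ⟨inter_subset_left.trans c1, fc.preimage_isClosed_of_isClosed c2 isClosed_singleton,
      ⟨y, hy, rfl⟩, fun k hk ζ hζ => ⟨c4 k hk.1 ζ hζ, ?_⟩⟩
    have kK := (c1 hk.1).1
    have e1 : (F k).re = (F y).re := hk.2
    have hd := (hol_disc L h f1 f3 isOpen_ball (hγ k kK) fun ζ hζ =>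
      ⟨K0 _ (gm k kK hζ), hρ _ (gm k kK hζ)⟩).cexp
    have := norm_eqOn_of_isPreconnected_of_isMaxOn (convex_ball (0 : ℂ) (r k)).isPreconnected
      isOpen_ball hd (mem_ball_self (r0 k kK)) (fun ξ hξ => by
        simp only [Function.comp, mem_ofPred_eq, norm_exp, Real.exp_le_exp, g0 k kK, e1]
        rw [← fn _ (gm k kK hξ)]
        exact hmax (c4 k hk.1 ξ hξ)) hζ
    simp only [Function.comp, Function.const, norm_exp, Real.exp_eq_exp, g0 k kK, e1] at this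
    change (F (nr (γ k ζ))).re = _
    rw [fn _ (gm k kK hζ), this]
  have hsub := hm.2 hS1 inter_subset_left
  have a0 : (F x0).re = (F y).re := (hsub hx0).2
  have a1 : (F (nr (γ x0 ζ1))).re = (F y).re := (hsub (c4 x0 hx0 ζ1 hζ1)).2
  rw [f4] at a0
  rw [f5, ← a0] at a1
  simp at a1

end Pool.Agent.MP_fcd29e_an.H81.Pz
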