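import Pool.Agent.MP_fcd29e_an.H81.PzDc
import Pool.Agent.MP_fcd29e_an.H81.PzZorn

/-! The Koszul descent along a linear vector field. -/

set_option autoImplicit false

open MeasureTheory Complex Set Filter Topology Pool.Agent.MP_fcd29e_an.H63
  Pool.Agent.MP_fcd29e_an.H31 Pool.Agent.MP_fcd29e_an.H11
open scoped ContDiff ComplexConjugate

namespace Pool.Agent.MP_fcd29e_an.H81.Pz

noncomputable section

variable {N : ℕ}

/-- a holomorphic field, a cut-off and a dual form -/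
structure KD (X θ : Fin N → E N → ℂ) (χ : E N → ℂ) (U : Set (E N)) : Prop where
  xs : ∀ l, Sm (X l)
  xh : ∀ l j z, dzb j (X l) z = 0
  xd : ∀ l, Hom (E0 N) 1 0 (X l)
  ts : ∀ l, Sm (θ l)
  td : ∀ l, Hom (E0 N) (-1) 0 (θ l)
  th : ∀ z : E N, z ≠ 0 → ∑ l, z l * θ l z = 0
  cs : Sm χ
  cd : Hom (E0 N) 0 0 χ
  uo : IsOpen U
  uc : ∀ z ∈ U, ∀ j, dzb j χ z = 0
  one : ∀ z, z ≠ 0 → z ∉ U → ∑ l, X l z * θ l z = 1

/-- the forms of the descent -/
def AA (θ : Fin N → E N → ℂ) (χ : E N → ℂ) : (p : ℕ) → Form N p p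
  | 0 => fun _ _ => χ
  | p + 1 => wF θ fun I => dC (AA θ χ p I)

variable {X θ : Fin N → E N → ℂ} {χ : E N → ℂ} {U : Set (E N)}

/-- the invariant of the induction -/
def Inv (X θ : Fin N → E N → ℂ) (χ : E N → ℂ) (U : Set (E N)) (p : ℕ) : Prop :=
  (∀ I J, Sm (AA θ χ p I J)) ∧ Basic (E0 N) (AA θ χ p) ∧
    (∀ I J, ∀ z ∈ U, dC (AA θ χ p I) J z = 0) ∧
    ∀ J z, z ≠ 0 → horA (fun l => X l z) fun I => dC (AA θ χ p I) J z

theorem iF_AA (L : Lv1) (h : KD X θ χ U) {p : ℕ} (hp : Inv X θ χ U p) (I : Fin p → Fin N)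
    (J : Fin (p + 1) → Fin N) {z : E N} (hz : z ≠ 0) :
    iF X (AA θ χ (p + 1)) I J z = dC (AA θ χ p I) J z := by
  refine (((L.al1 N p (fun l => X l z) fun l => θ l z).1 fun I => dC (AA θ χ p I) J z).2.1
    (hp.2.2.2 J z hz) I).trans ?_
  by_cases c : z ∈ U
  · rw [hp.2.2.1 I J z c, mul_zero]
  · rw [h.one z hz c, one_mul]

theorem inv (L : Lv1) (h : KD X θ χ U) (p : ℕ) : Inv X θ χ U p := by
  induction p with
  | zero =>
    refine ⟨fun _ _ => h.cs, ⟨fun I => ⟨fun J => h.cd, fun J σ z _ => ?_, fun J a => a.elim0⟩,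
      fun I J σ z _ => ?_, fun I J a => a.elim0⟩, fun I J z hz => ?_, fun J z _ I a => a.elim0⟩
    · simp [AA, Subsingleton.elim σ 1]
    · simp [AA, Subsingleton.elim σ 1]
    · simp [AA, dC, h.uc z hz]
  | succ p hp =>
    have s1 : ∀ I J, Sm (AA θ χ (p + 1) I J) := fun I J => by
      unfold AA wF
      exact ContDiffOn.sum fun _ _ => (contDiffOn_const.mul (h.ts _)).mul (dC_sm (hp.1 _) J)
    have b1 : Basic (E0 N) (AA θ χ (p + 1)) := wF_basic L h.td h.th (dC_basic L hp.1 hp.2.1)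
    refine ⟨s1, b1, fun I J z hz => dC_zero h.uo (fun K y hy => ?_) J hz, fun J z hz => ?_⟩
    · unfold AA wF
      exact Finset.sum_eq_zero fun a _ => mul_eq_zero_of_right _ (hp.2.2.1 _ K y hy)
    · refine ((L.al1 N p (fun l => X l z) 0).2 (fun I => dC (AA θ χ (p + 1) I) J z)
        fun I σ => (dC_basic L s1 b1).alt I J σ z hz).2.2.2.1.2 fun I => ?_
      refine (dC_comb X (fun l => AA θ χ (p + 1) (Fin.cons l I)) h.xs h.xh (fun _ => s1 _) J
        hz).symm.trans ?_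
      exact (dC_congr isOpen_E0 (fun K y hy => iF_AA L h hp I K hy) J hz).trans
        (dC_dC L (hp.1 I) J hz)

theorem desc (L : Lv1) (h : KD X θ χ U) {ρ : E N → ℝ} (hρ : Dom ρ) {S : (E N → ℂ) → Prop}
    (hS : Cls S) (hV : ∀ p, p + 1 < N → VanishG ρ S (p + 1) p) (k : ℕ) : ∀ p, N ≤ p + 1 + k →
    ∃ b : Form N (p + 1) p, Basic (E0 N) b ∧ (∀ I J, S (b I J)) ∧
      ∀ I, DB (Om ρ) (iF X b I) (dC (AA θ χ p I)) := by
  have hO := L.c1 N ρ hρ
  have h0 : (0 : E N) ∉ Om ρ := hO.2.2.1.1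
  have base : ∀ p, N ≤ p + 1 → ∃ b : Form N (p + 1) p, Basic (E0 N) b ∧ (∀ I J, S (b I J)) ∧
      ∀ I, DB (Om ρ) (iF X b I) (dC (AA θ χ p I)) := fun p hp => by
    refine ⟨fun _ _ _ => 0, ⟨fun I => ⟨fun J c _ z _ => by simp, fun J σ z _ => by simp,
      fun J a z _ => by simp⟩, fun I J σ z _ => by simp, fun I J a z _ => by simp⟩,
      fun I J => hS.smooth _ contDiffOn_const, fun I J ψ _ => ?_⟩
    have b1 := (inv L h (p + 1)).2.1
    have : ∫ z in Om ρ, dC (AA θ χ p I) J z * ψ z = 0 := by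
      refine setIntegral_eq_zero_of_forall_eq_zero fun z hz => ?_
      rw [← iF_AA L h (inv L h p) I J hz.1, iF, Finset.sum_eq_zero, zero_mul]
      intro l _
      rw [((L.al1 _ (p + 1) (fun l => z l) 0).1 fun I => AA θ χ (p + 1) I J z).2.2.2.1
        (fun I σ => b1.alt I J σ z hz.1) (fun I a => b1.hor I J a z hz.1)
        (fun e => hz.1 (PiLp.ext fun l => congrFun e l)) hp, mul_zero]
    rw [this]
    simp [iF]
  induction k with
  | zero => exact base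
  | succ k ih =>
    intro p hp
    rcases le_or_gt N (p + 1) with c | c
    · exact base p c
    obtain ⟨b', b1, b2, b3⟩ := ih (p + 1) (by omega)
    obtain ⟨a1, a2, -⟩ := inv L h (p + 1)
    have i2 : ∀ I J, S (iF X b' I J) := fun I J => cls_comb hS X _ h.xs fun _ => b2 _ J
    have c2 : ∀ I J, S fun z => AA θ χ (p + 1) I J z - iF X b' I J z := fun I J =>
      hS.sub _ _ (hS.smooth _ (a1 I J)) (i2 I J)
    have F := L.frm N (p + 1) _ hO.1 h0
    obtain ⟨b, d1, d2, d3⟩ := hV p c _ (basic_sub a2 (iF_basic L h.xd b1)) c2 fun I =>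
      (F.1 _ _ (F.2.2.1 _ _ _ _ (dC_db L hO.1 h0 (a1 I)) (b3 I)
        (fun J => ⟨l2_sm L hO.1 h0 (a1 I J), l2_of_cls L hS h0 (i2 I J)⟩)
        fun J => ⟨l2_sm L hO.1 h0 (dC_sm (a1 I) J), l2_sm L hO.1 h0 (dC_sm (a1 I) J)⟩)).1 _ _
        (fun J => Eventually.of_forall fun _ _ => rfl)
        fun J => Eventually.of_forall fun _ _ => sub_self _
    refine ⟨b, d1, d2, fun I => db_comb L hO.1 h0 X (fun l => b (Fin.cons l I)) _ h.xs h.xh
      (fun l J => l2_of_cls L hS h0 (d2 _ J)) (fun l J => l2_of_cls L hS h0 (c2 _ J))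
      (fun l => d3 _) _ fun J z hz => ?_⟩
    have A := L.al1 N (p + 1) (fun l => X l z) 0
    have e1 := A.2 (fun I => b' I J z) fun I σ => b1.alt I J σ z hz.1
    have e2 := ((L.al1 N p (fun l => X l z) 0).2 _ e1.1).2.2.2.1.1 e1.2.1 I
    simp only [mul_sub, Finset.sum_sub_distrib]
    rw [← iF_AA L h (inv L h p) I J hz.1]
    exact sub_eq_self.2 e2

/-- the holomorphic function at the end of the descent -/
theorem kos (L : Lv1) (w1 : StmtW1) (w2 : StmtW2) (h : KD X θ χ U) {ρ : E N → ℝ} (hρ : Dom ρ)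
    {S : (E N → ℂ) → Prop} (hS : Cls S) (hN : 1 ≤ N)
    (hE : ∀ f, S f → ∃ g, ContinuousOn g (E0 N) ∧ ∀ᵐ z, z ∈ E0 N → f z = g z)
    (hV : ∀ p, p + 1 < N → VanishG ρ S (p + 1) p) :
    ∃ g : Fin N → E N → ℂ, (∀ z : E N, z ≠ 0 → ∑ l, z l * g l z = 0) ∧
      ContinuousOn (fun z => χ z - ∑ l, X l z * g l z) (E0 N) ∧
      Hom (E0 N) 0 0 (fun z => χ z - ∑ l, X l z * g l z) ∧
      DifferentiableOn ℂ (fun z => χ z - ∑ l, X l z * g l z) (Om ρ) := by
  have hO := L.c1 N ρ hρ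
  have h0 : (0 : E N) ∉ Om ρ := hO.2.2.1.1
  obtain ⟨b, b1, b2, b3⟩ := desc L h hρ hS hV N 0 (by omega)
  let o : Fin 0 → Fin N := Fin.elim0
  choose g g1 g2 using fun l : Fin N => hE _ (b2 (Fin.cons l o) o)
  have g3 := ae_all_iff.2 g2
  obtain ⟨a1, a2, -⟩ := inv L h 0
  have i2 : ∀ J, S (iF X b o J) := fun J => cls_comb hS X _ h.xs fun _ => b2 _ J
  have e : ∀ᵐ z, z ∈ E0 N → AA θ χ 0 o o z - iF X b o o z = χ z - ∑ l, X l z * g l z := by
    filter_upwards [g3] with z hz z0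
    simp only [iF, AA, hz _ z0]
  have c1 : ContinuousOn (fun z => χ z - ∑ l, X l z * g l z) (E0 N) :=
    h.cs.continuousOn.sub (continuousOn_finsetSum _ fun l _ => (h.xs l).continuousOn.mul (g1 l))
  have T := (L.t2 N 0 0).1 _ isOpen_E0 cone_E0
  refine ⟨g, eqOn_ae isOpen_E0 (continuousOn_finsetSum _ fun l _ =>
    (contDiff_coord (n := 0) l).continuous.continuousOn.mul (g1 l)) continuousOn_const ?_, c1,
    T.2.1 _ (T.2.2.1 _ _ (T.1 _ (((basic_sub a2 (iF_basic L h.xd b1)).hb o).hom o)) e) c1, ?_⟩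
  · filter_upwards [g3] with z hz z0
    rw [← b1.hor (Fin.cons ⟨0, hN⟩ o) o 0 z z0]
    simp only [Fin.update_cons_zero, hz _ z0]
  · have F := L.frm N 0 _ hO.1 h0
    have d := F.2.2.1 _ _ _ _ (dC_db L hO.1 h0 (a1 o)) (b3 o)
      (fun J => ⟨l2_sm L hO.1 h0 (a1 o J), l2_of_cls L hS h0 (i2 J)⟩)
      fun J => ⟨l2_sm L hO.1 h0 (dC_sm (a1 o) J), l2_sm L hO.1 h0 (dC_sm (a1 o) J)⟩
    obtain ⟨W, W1, W2⟩ := w1 N hN _ (fun z => AA θ χ 0 o o z - iF X b o o z) hO.1 h0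
      ((L.t1 N _ hO.1 h0).1 _ (l2_of_cls L hS h0 (hS.sub _ _ (hS.smooth _ (a1 o o)) (i2 o)))).1
      fun l ψ hψ => by
        have eo : (Fin.tail fun _ : Fin 1 => l) = o := Subsingleton.elim _ _
        simpa [eo] using d (fun _ => l) ψ hψ
    refine ((w2 N hN).1 _ W hO.1 W1).congr (eqOn_ae hO.1 (c1.mono fun z hz => hz.1)
      W1.1.continuousOn ?_)
    filter_upwards [e, W2] with z e1 e2 hz
    rw [← e1 hz.1, e2 hz]

end

end Pool.Agent.MP_fcd29e_an.H81.Pz
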