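import Pool.Agent.MP_fcd29e_an.H81.Basic

/-!
Statements of the steps of the proof, part one: from the weight function to vanishing.
-/

set_option autoImplicit false

open MeasureTheory Complex Set Filter Topology Metric
open scoped ContDiff ComplexConjugate ENNReal NNReal

namespace Pool.Agent.MP_fcd29e_an.H81

/-! ### Level zero -/

/-- Scaling. -/
def StmtT0 : Prop :=
  (∀ (N : ℕ) (c : ℂ), c ≠ 0 →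
    (∀ f : E N → ℂ, ∫ x, f (c • x) = ((‖c‖ ^ (2 * N) : ℝ) : ℂ)⁻¹ * ∫ x, f x) ∧
    (∀ f : E N → ℝ≥0∞, ∫⁻ x, f (c • x) = ENNReal.ofReal (‖c‖ ^ (2 * N))⁻¹ * ∫⁻ x, f x) ∧
    (∀ f : E N → ℂ, Integrable f → Integrable fun x => f (c • x)) ∧
    Measure.QuasiMeasurePreserving (fun x : E N => c • x) volume volume) ∧
  (∀ a : ℂ, a ≠ 0 →
    (∀ h : ℂ → ℂ, ∫ c, h (a * c) = ((‖a‖ ^ 2 : ℝ) : ℂ)⁻¹ * ∫ c, h c) ∧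
    ∀ h : ℂ → ℝ≥0∞, ∫⁻ c, h (a * c) = ENNReal.ofReal (‖a‖ ^ 2)⁻¹ * ∫⁻ c, h c) ∧
  (∀ h : ℂ → ℂ, ∫ c : ℂ, ((‖c‖ ^ 2 : ℝ) : ℂ)⁻¹ * h c⁻¹ = ∫ c : ℂ, ((‖c‖ ^ 2 : ℝ) : ℂ)⁻¹ * h c) ∧
  ∀ h : ℂ → ℝ≥0∞, ∫⁻ c : ℂ, ENNReal.ofReal (‖c‖ ^ 2)⁻¹ * h c⁻¹ =
    ∫⁻ c : ℂ, ENNReal.ofReal (‖c‖ ^ 2)⁻¹ * h c

/-- Square integrable functions, test functions, weak derivatives. -/
def StmtT1 : Prop := ∀ (N : ℕ) (U : Set (E N)), IsOpen U → (0 : E N) ∉ U →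
  (∀ f, L2 U f → LocallyIntegrableOn f U ∧ AEStronglyMeasurable f (volume.restrict U) ∧
    (∀ ψ : E N → ℂ, Continuous ψ → HasCompactSupport ψ → tsupport ψ ⊆ U →
      Integrable (fun z => f z * ψ z) ∧ ∫ z in U, f z * ψ z = ∫ z, f z * ψ z) ∧
    (∀ g, L2 U g → L2 U (fun z => f z + g z) ∧ L2 U fun z => f z - g z) ∧
    (∀ s, ContinuousOn s (E0 N) → L2 U fun z => s z * f z) ∧
    (∀ g, (∀ᵐ z, z ∈ U → f z = g z) → L2 U g) ∧ ∀ V ⊆ U, L2 V f) ∧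
  (∀ (ι : Type) (s : Finset ι) (F : ι → E N → ℂ), (∀ i ∈ s, L2 U (F i)) →
    L2 U fun z => ∑ i ∈ s, F i z) ∧
  (∀ f, ContinuousOn f (E0 N) → L2 U f) ∧
  (∀ ψ, Test U ψ → (∀ s, ContDiffOn ℝ ∞ s U → Test U fun z => s z * ψ z) ∧
    (∀ v, Test U fun z => fderiv ℝ ψ z v) ∧ (∀ j, Test U (dz j ψ) ∧ Test U (dzb j ψ)) ∧
    Test U (fun z => conj (ψ z)) ∧ (∀ χ, Test U χ → Test U fun z => ψ z + χ z) ∧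
    ∀ V, U ⊆ V → Test V ψ) ∧
  (∀ g : E N → ℂ, LocallyIntegrableOn g U → (∀ ψ, Test U ψ → ∫ z in U, g z * ψ z = 0) →
    ∀ᵐ z, z ∈ U → g z = 0) ∧
  (∀ f, ContDiffOn ℝ ∞ f U → (∀ v, WD U v f fun z => fderiv ℝ f z v) ∧
    ∀ j, WB U j f (dzb j f) ∧
      ∀ ψ, Test U ψ → ∫ z in U, f z * dz j ψ z = -∫ z in U, dz j f z * ψ z) ∧
  (∀ f g, L2 U f → L2 U g → ∀ s, ContDiffOn ℝ ∞ s (E0 N) →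
    (∀ v, WD U v f g → WD U v (fun z => s z * f z) fun z => s z * g z + fderiv ℝ s z v * f z) ∧
    ∀ j, WB U j f g → WB U j (fun z => s z * f z) fun z => s z * g z + dzb j s z * f z) ∧
  (∀ v f g f' g', L2 U f → L2 U g → L2 U f' → L2 U g' → WD U v f g → WD U v f' g' →
    WD U v (fun z => f z + f' z) fun z => g z + g' z) ∧
  (∀ v f g f' g', WD U v f g → (∀ᵐ z, z ∈ U → f z = f' z) → (∀ᵐ z, z ∈ U → g z = g' z) →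
    WD U v f' g') ∧
  (∀ v f g g', L2 U g → L2 U g' → WD U v f g → WD U v f g' → ∀ᵐ z, z ∈ U → g z = g' z) ∧
  (∀ v f g V, IsOpen V → V ⊆ U → WD U v f g → WD V v f g) ∧
  ∀ j f g₁ g₂, L2 U f → L2 U g₁ → L2 U g₂ → WD U (ee j) f g₁ → WD U (I • ee j) f g₂ →
    WB U j f fun z => (g₁ z + I * g₂ z) / 2

/-- Sobolev spaces. -/
def StmtSB : Prop := ∀ N : ℕ,
  (∀ U : Set (E N), IsOpen U → (0 : E N) ∉ U → ∀ k : ℕ,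
    (∀ f, Sob U k f → L2 U f ∧ (∀ g, (∀ᵐ z, z ∈ U → f z = g z) → Sob U k g) ∧
      (∀ g, Sob U k g → Sob U k (fun z => f z + g z) ∧ Sob U k fun z => f z - g z) ∧
      (∀ s, ContDiffOn ℝ ∞ s (E0 N) → Sob U k fun z => s z * f z) ∧
      (∀ V, IsOpen V → V ⊆ U → Sob V k f) ∧ ∀ i ≤ k, Sob U i f) ∧
    (∀ (ι : Type) (s : Finset ι) (F : ι → E N → ℂ), (∀ i ∈ s, Sob U k (F i)) →
      Sob U k fun z => ∑ i ∈ s, F i z) ∧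
    (∀ f, ContDiffOn ℝ ∞ f (E0 N) → Sob U k f) ∧
    ∀ f j, Sob U (k + 1) f → ∃ g, WB U j f g ∧ Sob U k g) ∧
  ∀ (k : ℕ) (f : E N → ℂ), (∀ r > 0, Sob {z : E N | r < ‖z‖} k f) → Sob (E0 N) k f

/-- Homogeneity and weak derivatives. -/
def StmtT2 : Prop := ∀ (N : ℕ) (a b : ℤ),
  (∀ U : Set (E N), IsOpen U → Cone U →
    (∀ f, Hom U a b f → AH U a b f) ∧
    (∀ f, AH U a b f → ContinuousOn f U → Hom U a b f) ∧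
    (∀ f g, AH U a b f → (∀ᵐ z, z ∈ U → f z = g z) → AH U a b g) ∧
    (∀ f, L2 U f → AH U a b f → ∀ ψ, Test U ψ →
      ∫ z in U, f z * ∑ j, conj (z j) * dzb j ψ z = -((N : ℂ) + b) * ∫ z in U, f z * ψ z) ∧
    ∀ j f g, L2 U f → L2 U g → AH U a b f → WB U j f g → AH U a (b - 1) g) ∧
  ∀ (g : E N → ℂ) (κ : ℝ → ℝ), (κ 0 = 0 ∨ 1 ≤ N) → AH (E0 N) a b g → a ≠ b →
    ∫ z, (κ (‖z‖ ^ 2) : ℂ) * g z = 0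

/-- Shells. -/
def StmtT3 : Prop := (∃ κ, Kap κ) ∧ ∀ N : ℕ,
  (∀ κ, Kap κ → Test (E0 N) (fun z => (κ (‖z‖ ^ 2) : ℂ)) ∧
    tsupport (fun z : E N => (κ (‖z‖ ^ 2) : ℂ)) ⊆ Sh N ∧ IsCompact (Sh N) ∧ (0 : E N) ∉ Sh N ∧
    (∀ (d : ℤ) (K : Set (E N)), IsCompact K → (0 : E N) ∉ K → ∃ C : ℝ≥0, ∀ G : E N → ℝ≥0∞,
      (∀ r : ℝ, 0 < r → ∀ᵐ z, G (r • z) = ENNReal.ofReal (r ^ d) * G z) →
        ∫⁻ z in K, G z ≤ C * ∫⁻ z, ENNReal.ofReal (κ (‖z‖ ^ 2)) * G z) ∧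
    ∀ a b g, AH (E0 N) a b g → AEStronglyMeasurable g volume →
      ∫⁻ z, ENNReal.ofReal (κ (‖z‖ ^ 2) * ‖g z‖ ^ 2) < ⊤ → L2 (E0 N) g) ∧
  (∀ a b (g : E N → ℂ), L2 (E0 N) g → Hom (E0 N) a b g → -(2 * N : ℤ) < a + b → a + b < -1 →
    DI g) ∧
  ∀ g : E N → ℂ, DI g → LocallyIntegrable g

/-- Averages over complex lines. -/
def StmtT4 : Prop := ∀ (N : ℕ) (a b : ℤ),
  (∀ g : E N → ℂ, Hom (E0 N) a b (Pp a b g)) ∧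
  (∀ s g : E N → ℂ, (∀ c : ℂ, c ≠ 0 → ∀ z, s (c • z) = s z) → ∀ κ z,
    Hop κ a b (fun y => s y * g y) z = s z * Hop κ a b g z) ∧
  (∀ ψ : E N → ℂ, Test (E0 N) ψ → ContDiffOn ℝ ∞ (Pp a b ψ) (E0 N) ∧ ∀ j z, z ≠ 0 →
    dz j (Pp a b ψ) z = Pp (a - 1) b (dz j ψ) z ∧ dzb j (Pp a b ψ) z = Pp a (b - 1) (dzb j ψ) z) ∧
  (∀ (g ψ : E N → ℂ) (K : Set (E N)), IsCompact K → (0 : E N) ∉ K → (∀ z ∉ K, g z = 0) →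
    Integrable g → Test (E0 N) ψ →
      ∫ z, Pp a b g z * ψ z = ∫ z, g z * Pp (-a - N) (-b - N) ψ z) ∧
  ∀ κ, Kap κ → ∀ g : E N → ℂ, AEStronglyMeasurable g volume →
    AEStronglyMeasurable (Hop κ a b g) volume ∧
    (1 ≤ N → AH (E0 N) a b g → ∀ᵐ y, Hop κ a b g y = g y) ∧
    (∫⁻ z, ENNReal.ofReal (κ (‖z‖ ^ 2) * ‖g z‖ ^ 2) < ⊤ → L2 (E0 N) (Hop κ a b g))

/-- Smooth homogeneous functions; the projector. -/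
def StmtPF : Prop := ∀ N : ℕ,
  (∀ (U : Set (E N)) (a b : ℤ) (g : E N → ℂ), IsOpen U → Cone U → Hom U a b g →
    (∀ j, Hom U (a - 1) b (dz j g) ∧ Hom U a (b - 1) (dzb j g)) ∧
    ∀ z ∈ U, DifferentiableAt ℝ g z →
      ∑ j, z j * dz j g z = a * g z ∧ ∑ j, conj (z j) * dzb j g z = b * g z) ∧
  (∀ (r : E N → ℝ) (z v : E N), DifferentiableAt ℝ r z → fderiv ℝ r z v = 2 * (av r z v).re) ∧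
  (∀ (φ : E N → ℝ) (z : E N), ContDiffAt ℝ ∞ φ z →
    (∀ j k, conj (dz j (dzb k (cx φ)) z) = dz k (dzb j (cx φ)) z) ∧
    ∀ L, (hess (cx φ) z L).im = 0) ∧
  ∀ ρ : E N → ℝ, Dom ρ → IsOpen (Reg ρ) ∧ Cone (Reg ρ) ∧
    (∀ z, z ≠ 0 → ∑ j, z j * dz j (cx ρ) z = 0 ∧ (∀ k, ∑ j, z j * dz j (dzb k (cx ρ)) z = 0) ∧
      (∀ j, ∑ k, conj (z k) * dz j (dzb k (cx ρ)) z = 0) ∧
      (∀ c : ℂ, c ≠ 0 → (∀ j, dz j (cx ρ) (c • z) = c⁻¹ * dz j (cx ρ) z) ∧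
        an ρ (c • z) = (‖c‖ ^ 2)⁻¹ * an ρ z ∧ ∀ j k, PP ρ (c • z) j k = PP ρ z j k) ∧
      av ρ z (nv ρ z) = an ρ z ∧ ‖nv ρ z‖ ^ 2 = an ρ z) ∧
    (∀ z ∈ Reg ρ, 0 < an ρ z ∧ ContDiffAt ℝ ∞ (an ρ) z ∧ ContDiffAt ℝ ∞ (nv ρ) z ∧
      (∀ j, ContDiffAt ℝ ∞ (nn ρ j) z) ∧ (∀ c j, ContDiffAt ℝ ∞ (lc ρ c j) z) ∧
      (∀ j k, conj (PP ρ z j k) = PP ρ z k j ∧ ‖PP ρ z j k‖ ≤ 1 ∧
        ∑ c, PP ρ z j c * conj (PP ρ z k c) = PP ρ z j k) ∧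
      (∀ k, ∑ j, dz j (cx ρ) z * PP ρ z j k = 0 ∧ ∑ j, conj (z j) * PP ρ z j k = 0 ∧
        ∑ j, PP ρ z k j * z j = 0 ∧ ∑ j, PP ρ z k j * conj (dz j (cx ρ) z) = 0) ∧
      ∑ j, PP ρ z j j = (N : ℂ) - 2) ∧
    (∀ z ∈ Reg ρ, ∀ φ : E N → ℝ, ContDiffAt ℝ ∞ φ z →
      (trH ρ φ z : ℂ) = ∑ j, ∑ k, dz j (dzb k (cx φ)) z * PP ρ z j k ∧
      trH ρ φ z = ∑ c, (hess (cx φ) z fun j => PP ρ z j c).re ∧ ContDiffAt ℝ ∞ (trH ρ φ) z ∧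
      (∀ ψ : E N → ℝ, ContDiffAt ℝ ∞ ψ z → ∀ s t : ℝ,
        trH ρ (fun y => s * φ y + t * ψ y) z = s * trH ρ φ z + t * trH ρ ψ z) ∧
      ∀ χ : ℝ → ℝ, ContDiffAt ℝ ∞ χ (φ z) → trH ρ (fun y => χ (φ y)) z =
        deriv χ (φ z) * trH ρ φ z +
          deriv (deriv χ) (φ z) * ∑ c, ‖Lf (lc ρ c) (cx φ) z‖ ^ 2) ∧
    (∀ φ, SI ρ φ → ∀ c : ℂ, c ≠ 0 → ∀ z ∈ Reg ρ, trH ρ φ (c • z) = (‖c‖ ^ 2)⁻¹ * trH ρ φ z) ∧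
    ∀ z, z ≠ 0 → ρ z = 0 → z ∈ Reg ρ ∧ 0 ≤ trH ρ ρ z ∧ (trH ρ ρ z = 0 → ∀ w, av ρ z w = 0 →
      ∃ β : ℂ, ∀ j, ∑ k, conj (w k) * dz j (dzb k (cx ρ)) z = β * dz j (cx ρ) z)

/-- The collar. -/
def StmtC1 : Prop := ∀ (N : ℕ) (ρ : E N → ℝ), Dom ρ →
  IsOpen (Om ρ) ∧ IsOpen (Op ρ) ∧ Cone (Om ρ) ∧ Cone (Op ρ) ∧ Measurable ρ ∧
  (∃ B : ℝ, ∀ z, |ρ z| ≤ B) ∧
  (∃ L : ℝ, 0 < L ∧ ∀ x y, x ≠ 0 → ‖y - x‖ ≤ ‖x‖ / 2 → |ρ y - ρ x| ≤ L * ‖y - x‖ / ‖x‖) ∧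
  (∀ K : Set (E N), IsCompact K → (0 : E N) ∉ K →
    (∃ L : ℝ, ∀ x ∈ K, ∀ y ∈ K, |ρ y - ρ x| ≤ L * ‖y - x‖) ∧
    ∃ r₀ > 0, ∃ C : ℝ, ∀ z ∈ K, |ρ z| ≤ r₀ →
      z ∈ Reg ρ ∧ ∃ p, p ≠ 0 ∧ ρ p = 0 ∧ ‖z - p‖ ≤ C * |ρ z|) ∧
  (∀ p, p ≠ 0 → ρ p = 0 → ∃ v : E N, ∃ r > 0, 4 * r ≤ ‖p‖ ∧
    ∀ z ∈ closedBall p r, 1 ≤ fderiv ℝ ρ z v) ∧
  (∃ C : ℝ, ∀ z ∈ Op ρ, ∀ w, av ρ z w = 0 →
    -(C * ρ z * ‖w‖ ^ 2 / ‖z‖ ^ 2) ≤ (hess (cx ρ) z fun j => w j).re) ∧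
  (∀ φ, PHI ρ φ → ∃ r₀ > 0, r₀ ≤ 1 ∧ ∃ c₀ > 0, ∃ C : ℝ, ∀ z ∈ Sh N, 0 ≤ ρ z → ρ z ≤ r₀ →
    z ∈ Reg ρ ∧ c₀ ≤ trH ρ φ z ∧ -(C * ρ z) ≤ trH ρ ρ z) ∧
  ∀ k g, WL ρ k g → L2 (E0 N) g

/-- Integrals of `|ρ|^{-1/2}`. -/
def StmtC2 : Prop := ∀ (N : ℕ) (ρ : E N → ℝ), Dom ρ → (∀ᵐ z, ρ z ≠ 0) ∧
  ∀ (K : Set (E N)) (B : ℝ), IsCompact K → (0 : E N) ∉ K → ∃ C : ℝ≥0, ∀ y ∈ K, ∀ δ > 0, δ ≤ B →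
    ∫⁻ x in K, ENNReal.ofReal (((‖x - y‖ + δ) ^ (2 * N))⁻¹ * (√|ρ x|)⁻¹) ≤
      C * ENNReal.ofReal (√δ)⁻¹

/-- The kernel. -/
def StmtBM1 : Prop := ∀ N : ℕ, 1 ≤ N → 0 < cN N ∧
  (∀ j : Fin N, Measurable (Ek j) ∧ LocallyIntegrable (Ek j) ∧ ContDiffOn ℝ ∞ (Ek j) (E0 N) ∧
    (∀ y, Ek j (-y) = -Ek j y ∧ ‖Ek j y‖ ≤ cN N / ‖y‖ ^ (2 * N - 1) ∧
      ∀ c : ℂ, c ≠ 0 → Ek j (c • y) = conj c / (‖c‖ ^ (2 * N) : ℝ) * Ek j y) ∧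
    Sym (2 * N - 1) (Phi j 1) ∧
    ∀ r > 0, ContDiff ℝ ∞ (Phi j r) ∧ Integrable (kk j r) ∧ ∀ y,
      Phi j r y = Phi j 1 (r⁻¹ • y) / (r ^ (2 * N - 1) : ℝ) ∧
      (2 * r ≤ ‖y‖ → Phi j r y = Ek j y ∧ kk j r y = 0) ∧ ‖Phi j r y‖ ≤ ‖Ek j y‖ ∧
      ∀ c : ℂ, c ≠ 0 → Phi j (‖c‖ * r) (c • y) = conj c / (‖c‖ ^ (2 * N) : ℝ) * Phi j r y) ∧
  (∀ r > 0, Tst (eta r : E N → ℂ) ∧ ∫ y : E N, eta r y = 1 ∧ ∀ y : E N,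
    0 ≤ (eta r y).re ∧ (eta r y).im = 0 ∧ (2 * r ≤ ‖y‖ → eta r y = 0) ∧ eta r (-y) = eta r y ∧
      eta r y = eta 1 (r⁻¹ • y) / (r ^ (2 * N) : ℝ)) ∧
  ∀ (d : ℕ) (Φ : E N → ℂ), Sym d Φ → (∀ v, Sym (d + 1) fun y => fderiv ℝ Φ y v) ∧
    ∃ C : ℝ, ∀ y, ‖Φ y‖ ≤ C / (1 + ‖y‖) ^ d

/-- The Bochner–Martinelli formula. -/
def StmtBM2 : Prop := ∀ N : ℕ, 1 ≤ N →
  (∀ ψ : E N → ℂ, Tst ψ → (∀ x, ∑ j, Ec j (dzb j ψ) x = ψ x) ∧ ∀ j,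
    ContDiff ℝ ∞ (Ec j ψ) ∧ (∀ x, Integrable fun y => Ek j (x - y) * ψ y) ∧
    (∀ x v, fderiv ℝ (Ec j ψ) x v = Ec j (fun y => fderiv ℝ ψ y v) x) ∧
    (∀ l, dz l (Ec j ψ) = Ec j (dz l ψ) ∧ dzb l (Ec j ψ) = Ec j (dzb l ψ)) ∧
    ∃ C : ℝ, ∀ x, ‖Ec j ψ x‖ ≤ C / (1 + ‖x‖) ^ (2 * N - 1) ∧
      ‖fderiv ℝ (Ec j ψ) x‖ ≤ C / (1 + ‖x‖) ^ (2 * N - 1)) ∧
  (∀ (U : Set (E N)) (w : E N → ℂ) (x : E N) (r : ℝ), IsOpen U → ContDiffOn ℝ ∞ w U → 0 < r →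
    closedBall x (2 * r) ⊆ U → w x = Mo r w x + ∑ j, ∫ y, kk j r (x - y) * dzb j w y) ∧
  ∀ g : E N → ℂ, DI g → ∀ j, (∀ᵐ x, Integrable fun y => Ek j (x - y) * g y) ∧
    LocallyIntegrable (Ec j g) ∧
    ∀ ψ, Tst ψ → Integrable (fun y => g y * Ec j ψ y) ∧
      ∫ x, Ec j g x * ψ x = -∫ y, g y * Ec j ψ y

/-- Young's inequality and mollifiers. -/
def StmtYG : Prop := ∀ N : ℕ,
  (∀ k g : E N → ℂ, Integrable k → MemLp g 2 volume →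
    MemLp (fun x => ∫ y, k (x - y) * g y) 2 volume ∧
    eLpNorm (fun x => ∫ y, k (x - y) * g y) 2 volume ≤ eLpNorm k 1 volume * eLpNorm g 2 volume ∧
    ∀ᵐ x, Integrable fun y => k (x - y) * g y) ∧
  (∀ k g : E N → ℂ, Tst k → LocallyIntegrable g →
    ContDiff ℝ ∞ (fun x => ∫ y, k (x - y) * g y) ∧
      ∀ x v, fderiv ℝ (fun x => ∫ y, k (x - y) * g y) x v = ∫ y, fderiv ℝ k (x - y) v * g y) ∧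
  (1 ≤ N → ∀ g : E N → ℂ, MemLp g 2 volume →
    Tendsto (fun r => eLpNorm (fun x => Mo r g x - g x) 2 volume) (𝓝[>] 0) (𝓝 0))

/-- Riesz representation after Hahn–Banach; weak compactness. -/
def StmtRZ : Prop :=
  (∀ (X ι D : Type) [MeasurableSpace X] [Fintype ι] [AddCommGroup D] [Module ℂ D] (μ : Measure X)
    (T : ι → D →ₗ[ℂ] X → ℂ) (l : D →ₗ[ℂ] ℂ) (C : ℝ), 0 ≤ C → (∀ i d, MemLp (T i d) 2 μ) →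
    (∀ d, ‖l d‖ ^ 2 ≤ C * ∑ i, ∫ x, ‖T i d x‖ ^ 2 ∂μ) →
      ∃ v : ι → X → ℂ, (∀ i, Measurable (v i) ∧ MemLp (v i) 2 μ) ∧
        ∀ d, l d = ∑ i, ∫ x, v i x * T i d x ∂μ) ∧
  ∀ (N : ℕ) (μ : Measure (E N)) [IsFiniteMeasure μ] (w : ℕ → E N → ℂ) (C : ℝ),
    (∀ i, MemLp (w i) 2 μ ∧ ∫ x, ‖w i x‖ ^ 2 ∂μ ≤ C) →
      ∃ (W : E N → ℂ) (s : ℕ → ℕ), StrictMono s ∧ Measurable W ∧ MemLp W 2 μ ∧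
        ∀ g, MemLp g 2 μ →
          Tendsto (fun i => ∫ x, w (s i) x * g x ∂μ) atTop (𝓝 (∫ x, W x * g x ∂μ))

/-- Alternating arrays. -/
def StmtAL1 : Prop := ∀ (N q : ℕ) (ζ γ : Fin N → ℂ),
  (∀ x : (Fin q → Fin N) → ℂ, (altA x → altA (wdA γ x)) ∧
    (horA ζ x → ∀ J, ibA ζ (wdA γ x) J = (∑ l, ζ l * γ l) * x J) ∧
    (altA x → horA ζ x → ∑ l, ζ l * γ l = 0 → horA ζ (wdA γ x)) ∧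
    (altA x → horA ζ x → ζ ≠ 0 → N ≤ q → ∀ J, x J = 0) ∧
    altA (AltA x) ∧ (altA x → AltA x = x) ∧
    (∀ (S : Fin N → Fin N → ℂ), (∀ i j, S i j = S j i) → ∀ J : Fin (q + 1 + 1) → Fin N,
      ∑ a : Fin (q + 1 + 1), ∑ b : Fin (q + 1), (-1) ^ (a : ℕ) * (-1) ^ (b : ℕ) *
        (S (J a) (a.removeNth J b) * x (b.removeNth (a.removeNth J))) = 0) ∧
    ∀ c : ℂ, ∀ J, wdA γ (wdA (fun j => c * γ j) x) J = 0) ∧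
  ∀ x : (Fin (q + 1) → Fin N) → ℂ, altA x →
    altA (ibA ζ x) ∧ horA ζ (ibA ζ x) ∧ (∀ j, altA fun J : Fin q → Fin N => x (Fin.cons j J)) ∧
    (horA ζ x ↔ ∀ J, ibA ζ x J = 0) ∧
    ∀ (J : Fin (q + 1) → Fin N) (a : Fin (q + 1)),
      (-1) ^ (a : ℕ) * x (Fin.cons (J a) (a.removeNth J)) = x J

/-- The Hodge star. -/
def StmtAL2 : Prop := ∀ n : ℕ,
  (∀ x : (Fin n → Fin (n + 1)) → ℂ, altA x →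
    (∀ (ξ : Fin (n + 1) → ℂ) (J : Fin (n + 1) → Fin (n + 1)),
      wdA ξ x J = eps J * ∑ l : Fin (n + 1), ξ l * ((-1) ^ (l : ℕ) * x l.succAbove)) ∧
    ∀ ζ, horA ζ x → ∀ j l : Fin (n + 1),
      (-1) ^ (l : ℕ) * x l.succAbove * ζ j = (-1) ^ (j : ℕ) * x j.succAbove * ζ l) ∧
  ∀ V : Fin (n + 1) → ℂ, altA (fun J : Fin n → Fin (n + 1) => ∑ l, V l * eps (Fin.cons l J)) ∧
    ∀ j : Fin (n + 1), (-1) ^ (j : ℕ) * ∑ l, V l * eps (Fin.cons l j.succAbove) = V j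

/-- The statements that depend on nothing else. -/
structure Lv0 : Prop where
  t0 : StmtT0
  t1 : StmtT1
  sb : StmtSB
  t2 : StmtT2
  t3 : StmtT3
  t4 : StmtT4
  pf : StmtPF
  c1 : StmtC1
  c2 : StmtC2
  bm1 : StmtBM1
  bm2 : StmtBM2
  yg : StmtYG
  rz : StmtRZ
  al1 : StmtAL1
  al2 : StmtAL2

/-! ### The estimate on the concave side -/

/-- Integration by parts up to the boundary. -/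
def StmtE1 : Prop := ∀ (N : ℕ) (ρ : E N → ℝ), Dom ρ → ∀ (V : E N → ℂ) (K : Set (E N)) (C : ℝ),
  IsCompact K → (0 : E N) ∉ K → ContDiffOn ℝ ∞ V (Op ρ) → (∀ z ∈ Op ρ, z ∉ K → V z = 0) →
  (∀ z ∈ Op ρ ∩ K, ‖V z‖ ≤ C * ρ z ^ 2 ∧ ‖fderiv ℝ V z‖ ≤ C) → ∀ j,
    (IntegrableOn (dz j V) (Op ρ) ∧ ∫ z in Op ρ, dz j V z = 0) ∧
    IntegrableOn (dzb j V) (Op ρ) ∧ ∫ z in Op ρ, dzb j V z = 0

/-- The commutator identity for one field. -/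
def StmtE2 : Prop := ∀ (N : ℕ) (l : Fin N → E N → ℂ) (σ w : E N → ℂ) (W : E N → ℝ) (z : E N),
  (∀ j, ContDiffAt ℝ ∞ (l j) z) → ContDiffAt ℝ ∞ w z → DifferentiableAt ℝ σ z →
  DifferentiableAt ℝ W z → Lf l (cx W) z = (σ z - dv l z) * W z →
    ∑ j, dz j (fun y => (W y : ℂ) * (l j y * (conj (w y) * Lb l w y))) z -
      ∑ j, dzb j (fun y => (W y : ℂ) * (conj (l j y) * (conj (w y) * (Lf l w y + σ y * w y)))) z =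
    W z * ((‖Lb l w z‖ ^ 2 : ℝ) - (‖Lf l w z + σ z * w z‖ ^ 2 : ℝ) - conj (w z) *
      (∑ j, Lb l (l j) z * dz j w z - ∑ j, conj (Lb l (l j) z) * dzb j w z + Lb l σ z * w z))

/-- The pointwise inequality. -/
def StmtE3 : Prop := ∀ (N : ℕ) (ρ φ : E N → ℝ), Dom ρ → SI ρ φ → ∀ K ⊆ Reg ρ, IsCompact K →
  ∃ C : ℝ, ∀ (t : ℝ) (f κ : ℝ → ℝ) (w : E N → ℂ) (j : ℕ), ∀ z ∈ K,
    DifferentiableAt ℝ f (ρ z) → DifferentiableAt ℝ κ (‖z‖ ^ 2) → 0 ≤ f (ρ z) → 0 ≤ κ (‖z‖ ^ 2) →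
    ContDiffAt ℝ ∞ w z → ∑ l, z l * dz l w z = -(j : ℂ) * w z →
      (∑ l, dz l (FA f κ t ρ φ w l) z + ∑ l, dzb l (FB f κ t ρ φ w l) z).re ≤
        Wt f κ t ρ φ z * (C * ∑ l, ‖dzb l w z‖ ^ 2 - (t * trH ρ φ z - C) * ‖w z‖ ^ 2) -
          deriv f (ρ z) * κ (‖z‖ ^ 2) * Real.exp (t * φ z) * trH ρ ρ z * ‖w z‖ ^ 2

/-- The flux integrates to zero. -/
def StmtE4 : Prop := ∀ (N : ℕ) (ρ φ : E N → ℝ), Dom ρ → SI ρ φ → ∀ (κ f : ℝ → ℝ), Kap κ →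
  ∀ (r₀ r₁ t B : ℝ) (a : ℕ) (w : E N → ℂ), r₁ < r₀ →
    (∀ z ∈ Sh N, 0 ≤ ρ z → ρ z ≤ r₀ → z ∈ Reg ρ) → ContDiffOn ℝ ∞ f (Ioi 0) →
    (∀ s, r₁ ≤ s → f s = 0) →
    (∀ s > 0, s ≤ r₀ → |f s| ≤ B * s ^ (2 * a + 2) ∧ |deriv f s| ≤ B * s ^ (2 * a + 1)) →
    Temp ρ a w →
      IntegrableOn (fun z => ∑ l, dz l (FA f κ t ρ φ w l) z + ∑ l, dzb l (FB f κ t ρ φ w l) z)
        (Op ρ) ∧
      ∫ z in Op ρ, (∑ l, dz l (FA f κ t ρ φ w l) z + ∑ l, dzb l (FB f κ t ρ φ w l) z) = 0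

/-- The estimate. -/
def StmtEst : Prop := ∀ (N : ℕ) (ρ φ : E N → ℝ), Dom ρ → PHI ρ φ → ∀ κ, Kap κ →
  ∃ r₀ > 0, ∀ k a j : ℕ, ∃ C : ℝ≥0, ∀ w, Temp ρ a w → Hom (Op ρ) (-j) 0 w →
    ∫⁻ z in Op ρ, ENNReal.ofReal (κ (‖z‖ ^ 2) * ρ z ^ (2 * k) * ‖w z‖ ^ 2) ≤
      C * ((∑ l, ∫⁻ z in Op ρ, ENNReal.ofReal (κ (‖z‖ ^ 2) * ρ z ^ (2 * k) * ‖dzb l w z‖ ^ 2)) +
        ∫⁻ z in {z | r₀ ≤ ρ z}, ENNReal.ofReal (κ (‖z‖ ^ 2) * ‖w z‖ ^ 2))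

/-- Weyl's lemma. -/
def StmtW1 : Prop := ∀ (N : ℕ), 1 ≤ N → ∀ (U : Set (E N)) (W : E N → ℂ), IsOpen U →
  (0 : E N) ∉ U → LocallyIntegrableOn W U →
  (∀ l ψ, Test U ψ → ∫ z in U, W z * dzb l ψ z = 0) →
    ∃ W₁, Hol U W₁ ∧ ∀ᵐ z, z ∈ U → W z = W₁ z

/-- Cauchy estimates. -/
def StmtW2 : Prop := ∀ (N : ℕ), 1 ≤ N →
  (∀ (U : Set (E N)) (w : E N → ℂ), IsOpen U → Hol U w → DifferentiableOn ℂ w U) ∧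
  (∃ C : ℝ≥0, ∀ (U : Set (E N)) (w : E N → ℂ) (x : E N) (r : ℝ), IsOpen U → Hol U w → 0 < r →
    closedBall x (3 * r) ⊆ U → ∀ i ≤ 2,
      ENNReal.ofReal (‖iteratedFDeriv ℝ i w x‖ ^ 2 * r ^ (2 * i + 2 * N)) ≤
        C * ∫⁻ y in ball x (3 * r), ENNReal.ofReal (‖w y‖ ^ 2)) ∧
  ∀ ρ : E N → ℝ, Dom ρ →
    (∀ (k : ℕ) (w : E N → ℂ), Hol (Op ρ) w → L2 (Op ρ) (fun z => (ρ z : ℂ) ^ k * w z) →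
      Temp ρ (k + N + 2) w) ∧
    ∀ w : E N → ℂ, ContDiffOn ℝ ∞ w (E0 N) → Temp ρ 0 w

/-- The concave side is connected. -/
def StmtCON : Prop := ∀ (N : ℕ), 3 ≤ N → ∀ ρ : E N → ℝ, Dom ρ → IsPreconnected (Op ρ)

/-- Liouville's theorem on the concave side. -/
def StmtLIO : Prop := ∀ (N : ℕ), 3 ≤ N → ∀ ρ φ : E N → ℝ, Dom ρ → PHI ρ φ →
  ∀ (j k : ℕ) (w : E N → ℂ), Hol (Op ρ) w → Hom (Op ρ) (-j) 0 w →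
    L2 (Op ρ) (fun z => (ρ z : ℂ) ^ k * w z) → ∃ c : ℂ, (∀ z ∈ Op ρ, w z = c) ∧ (j ≠ 0 → c = 0)

/-- The Poincaré inequality on the concave side. -/
def StmtPOI : Prop := ∀ (N : ℕ), 3 ≤ N → ∀ ρ φ : E N → ℝ, Dom ρ → PHI ρ φ → ∀ κ, Kap κ →
  ∀ j k : ℕ, ∃ C : ℝ, 0 ≤ C ∧ ∀ w : E N → ℂ, ContDiffOn ℝ ∞ w (E0 N) → Hom (E0 N) (-j) 0 w →
    ∃ c : ℂ, (j ≠ 0 → c = 0) ∧
      ∫ z in Op ρ, κ (‖z‖ ^ 2) * ρ z ^ (2 * k) * ‖w z - c‖ ^ 2 ≤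
        C * ∑ l, ∫ z in Op ρ, κ (‖z‖ ^ 2) * ρ z ^ (2 * k) * ‖dzb l w z‖ ^ 2

/-- The divergence equation with support on the concave side. -/
def StmtDIV : Prop := ∀ (N : ℕ), 3 ≤ N → ∀ ρ φ : E N → ℝ, Dom ρ → PHI ρ φ → ∀ κ, Kap κ →
  ∀ (k : ℕ) (m : ℤ) (Θ : E N → ℂ), -(N : ℤ) ≤ m → WL ρ k Θ → AH (E0 N) m (-N) Θ →
    ∫ z, (κ (‖z‖ ^ 2) : ℂ) * Θ z = 0 →
    ∃ V : Fin N → E N → ℂ, (∀ l, WL ρ k (V l) ∧ Hom (E0 N) m (1 - N) (V l)) ∧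
      (∀ z, ∑ l, z l * V l z = 0) ∧
      ∀ ψ, Test (E0 N) ψ → ∑ l, ∫ z, V l z * dzb l ψ z = -∫ z, Θ z * ψ z

/-! ### Solving -/

/-- Hardy's inequality. -/
def StmtHAR : Prop := ∀ (N : ℕ) (ρ : E N → ℝ), Dom ρ → ∀ (k : ℕ) (f : E N → ℂ),
  Sob (E0 N) k f → (∀ᵐ z, z ∈ Om ρ → f z = 0) → WL ρ k f

/-- Closedness across the origin and at infinity. -/
def StmtORI : Prop := ∀ (N q : ℕ) (m : ℤ) (g : Arr N q) (κ : ℝ → ℝ), Kap κ →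
  (∀ J, L2 (E0 N) (g J) ∧ Hom (E0 N) m (-q) (g J)) → -(2 * N : ℤ) < m - q → m - q < -1 →
  DB (E0 N) g 0 → Flux κ g → ∀ (Ψ : E N → ℂ) (C : ℝ), ContDiff ℝ ∞ Ψ →
  (∀ y, ‖Ψ y‖ ≤ C / (1 + ‖y‖) ^ (2 * N - 1) ∧ ‖fderiv ℝ Ψ y‖ ≤ C / (1 + ‖y‖) ^ (2 * N - 1)) →
    ∀ J : Fin (q + 1) → Fin N,
      ∑ i : Fin (q + 1), (-1) ^ (i : ℕ) * ∫ z, g (i.removeNth J) z * dzb (J i) Ψ z = 0

/-- The Newton potential solves `∂̄`. -/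
def StmtNEW : Prop := ∀ (N q : ℕ) (m : ℤ) (g : Arr N (q + 1)),
  (∀ J, Hom (E0 N) m (-(q + 1 : ℕ)) (g J)) → (∀ J, Hom (E0 N) m (-q) (Nw g J)) ∧
    ((∀ z, z ≠ 0 → altA fun J => g J z) → ∀ z, altA fun J => Nw g J z) ∧
    ∀ κ, Kap κ → (∀ J, L2 (E0 N) (g J)) → -(2 * N : ℤ) < m - (q + 1 : ℕ) → m - (q + 1 : ℕ) < -1 →
      DB (E0 N) g 0 → Flux κ g → DB (E0 N) (Nw g) g

/-- The kernel preserves Sobolev spaces. -/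
def StmtEC : Prop := ∀ (N k : ℕ) (j : Fin N) (f : E N → ℂ), Sob (E0 N) k f → DI f →
  Sob (E0 N) k (Ec j f)

/-- Schur's test. -/
def StmtSCH : Prop := ∀ (N : ℕ) (ρ : E N → ℝ), Dom ρ → ∀ K : Set (E N), IsCompact K →
  (0 : E N) ∉ K → ∃ C : ℝ≥0, ∀ g : E N → ℝ≥0∞, AEMeasurable g (volume.restrict (Op ρ ∩ K)) →
    ∫⁻ x in K, (∫⁻ y in Op ρ ∩ K, ENNReal.ofReal ((‖x - y‖ + ρ y) ^ (2 * N))⁻¹ * g y) ^ 2 ≤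
      C * ∫⁻ y in Op ρ ∩ K, g y ^ 2

/-- The operators `Tk` are bounded in `L²`. -/
def StmtTK0 : Prop := ∀ (N : ℕ) (ρ : E N → ℝ), Dom ρ → ∀ A > 0, ∀ (k d : ℕ) (Φ G : E N → ℂ),
  Sym d Φ → 2 * N - 1 ≤ d → d ≤ 2 * N + k → WL ρ k G → DI G →
    L2 (E0 N) (Tk ρ A d Φ G) ∧ ∀ ψ : E N → ℂ, Test (E0 N) ψ →
      Integrable (fun p : E N × E N => Φ ((‖p.2‖ * ρ p.2 / A)⁻¹ • (p.1 - p.2)) /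
        ((‖p.2‖ * ρ p.2 / A) ^ d : ℝ) * G p.2 * ψ p.1)
        (volume.prod (volume.restrict (Op ρ)))

/-- The cut kernel gains one derivative. -/
def StmtTC : Prop := ∀ (N : ℕ) (ρ : E N → ℝ), Dom ρ → ∃ A > 0, ∀ (j : Fin N) (G : E N → ℂ),
  (∀ k, WL ρ k G → DI G →
    Sob (E0 N) (k + 1) (Tc ρ A j G) ∧ ∀ x ∈ Om ρ, Tc ρ A j G x = Ec j G x) ∧
  ∀ a b, Hom (E0 N) a b G → Hom (E0 N) a (b + 1) (Tc ρ A j G)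

/-- Weak calculus of forms. -/
def StmtFRM : Prop := ∀ (N q : ℕ) (U : Set (E N)), IsOpen U → (0 : E N) ∉ U →
  (∀ (u : Arr N q) (f : Arr N (q + 1)), DB U u f →
    (∀ (u' : Arr N q) (f' : Arr N (q + 1)), (∀ J, ∀ᵐ z, z ∈ U → u J z = u' J z) →
      (∀ J, ∀ᵐ z, z ∈ U → f J z = f' J z) → DB U u' f') ∧
    (∀ V, IsOpen V → V ⊆ U → DB V u f) ∧
    (∀ c : ℂ, DB U (fun J z => c * u J z) fun J z => c * f J z) ∧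
    ((∀ J, L2 U (u J)) → (∀ J, L2 U (f J)) → DB U f 0 ∧
      (∀ s, ContDiffOn ℝ ∞ s (E0 N) → DB U (fun J z => s z * u J z)
        fun J z => s z * f J z + wd (fun j => dzb j s) u J z) ∧
      DB U (wd thb u) fun J z => -wd thb f J z)) ∧
  (∀ (ι : Type) (s : Finset ι) (u : ι → Arr N q) (f : ι → Arr N (q + 1)),
    (∀ i ∈ s, DB U (u i) (f i) ∧ (∀ J, L2 U (u i J)) ∧ ∀ J, L2 U (f i J)) →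
      DB U (fun J z => ∑ i ∈ s, u i J z) fun J z => ∑ i ∈ s, f i J z) ∧
  (∀ (u u' : Arr N q) (f f' : Arr N (q + 1)), DB U u f → DB U u' f' →
    (∀ J, L2 U (u J) ∧ L2 U (u' J)) → (∀ J, L2 U (f J) ∧ L2 U (f' J)) →
      DB U (fun J z => u J z - u' J z) fun J z => f J z - f' J z) ∧
  ∀ (m : ℤ) (y : Arr N (q + 1)) (h : Arr N (q + 1 + 1)), Cone U → DB U y h →
    (∀ J, L2 U (y J) ∧ Hom U m (-(q + 1 : ℕ)) (y J)) → (∀ J, L2 U (h J)) →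
    (∀ z ∈ U, altA fun J => y J z) → DB U (ib y) fun J z => -ib h J z

/-- Everything that the last steps use. -/
structure Lv1 : Prop extends Lv0 where
  div : StmtDIV
  har : StmtHAR
  new : StmtNEW
  ec : StmtEC
  tc : StmtTC
  frm : StmtFRM

/-- Line bundles, degree `n - 1`. -/
def StmtLB : Prop := ∀ (q : ℕ) (ρ φ : E (q + 3) → ℝ), Dom ρ → PHI ρ φ → ∀ (k : ℕ) (m : ℤ),
  -((q + 3 : ℕ) : ℤ) ≤ m → m ≤ -1 → LB ρ (k + 1) m q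

/-- Line bundles, degree `n`. -/
def StmtLT : Prop := ∀ (q : ℕ) (ρ : E (q + 3) → ℝ), Dom ρ → ∀ (k : ℕ) (m : ℤ),
  -((q + 3 : ℕ) : ℤ) ≤ m → m ≤ -1 → LT ρ k m (q + 1)

/-- Forms of top degree. -/
def StmtFT : Prop := ∀ (q : ℕ) (ρ : E (q + 3) → ℝ), Dom ρ → ∀ k p : ℕ,
  ∀ f : Form (q + 3) p (q + 1 + 1), Basic (E0 _) f → (∀ I J, Sob (E0 _) k (f I J)) →
    ∃ u : Form (q + 3) p (q + 1), Basic (E0 _) u ∧ (∀ I J, Sob (E0 _) k (u I J)) ∧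
      ∀ I, DB (Om ρ) (u I) (f I)

/-- Theorem R. -/
def StmtR : Prop := ∀ (q : ℕ) (ρ φ : E (q + 3) → ℝ), Dom ρ → PHI ρ φ → ∀ k p : ℕ,
  Vanish ρ (k + 1) p q ∧ Vanish ρ (k + 1) p (q + 1)

end Pool.Agent.MP_fcd29e_an.H81
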