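import Pool.Agent.MP_fcd29e_an.H81.Spec

/-!
Statements of the steps of the proof, part two: existence of the weight function for `n ≥ 3`.
-/

set_option autoImplicit false

open MeasureTheory Complex Set Filter Topology Metric
open scoped ContDiff ComplexConjugate ENNReal NNReal

namespace Pool.Agent.MP_fcd29e_an.H81

/-! ### Minimal sets -/

/-- Zorn's lemma. -/
def StmtD0 : Prop := ∀ (N : ℕ) (ρ : E N → ℝ), Dom ρ → (∃ φ, PHI ρ φ) ∨ ∃ K, MinK ρ K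

/-- Proximal normals of a minimal set. -/
def StmtD1 : Prop := ∀ (N : ℕ) (ρ : E N → ℝ) (K : Set (E N)), Dom ρ → MinK ρ K → PN ρ K

/-- Gronwall's inequality for the distance to `K`. -/
def StmtGR : Prop := ∀ (N : ℕ) (ρ : E N → ℝ) (K : Set (E N)), KS ρ K → PN ρ K → ∀ p ∈ K,
  ∀ (r T e : ℝ) (L : ℝ≥0) (X : E N → E N) (γ γ' : ℝ → E N), 0 < r → 4 * r ≤ ‖p‖ →
    LipschitzOnWith L X (closedBall p (2 * r)) →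
    (∀ z ∈ K ∩ closedBall p (2 * r), av ρ z (X z) = 0) → γ 0 ∈ K →
    (∀ t ∈ Icc 0 T, HasDerivAt γ (γ' t) t ∧ γ t ∈ closedBall p r ∧ ‖γ' t - X (γ t)‖ ≤ e) →
      ∀ t ∈ Icc 0 T, infDist (γ t) K ^ 2 ≤ e ^ 2 * T * Real.exp ((2 * L + 1) * T) ∧
        (e = 0 → γ t ∈ K)

/-- Local flows of the fields `Xf`. -/
def StmtFLW : Prop := ∀ (N : ℕ) (ρ : E N → ℝ), Dom ρ → ∀ p ∈ Reg ρ, ∀ ε > 0,
  ∃ r > 0, ∃ τ > 0, ∃ L : ℝ≥0, r ≤ ε ∧ 4 * r ≤ ‖p‖ ∧ closedBall p (2 * r) ⊆ Reg ρ ∧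
    (∀ z ∈ closedBall p (2 * r), av ρ z (nv ρ p) ≠ 0) ∧ ∀ w : E N, ‖w‖ ≤ 1 →
      LipschitzOnWith L (Xf ρ (nv ρ p) w) (closedBall p (2 * r)) ∧
      (∀ z ∈ closedBall p (2 * r), ‖Xf ρ (nv ρ p) w z‖ ≤ L ∧ av ρ z (Xf ρ (nv ρ p) w z) = 0 ∧
        ContDiffAt ℝ ∞ (Xf ρ (nv ρ p) w) z) ∧
      ∀ x ∈ closedBall p (r / 2), ∃ γ : ℝ → E N, γ 0 = x ∧ ∀ t ∈ Icc 0 τ,
        HasDerivAt γ (Xf ρ (nv ρ p) w (γ t)) t ∧ γ t ∈ closedBall p r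

/-- Second-order tangency, and derivatives of functions that vanish on `K`. -/
def StmtD2 : Prop := ∀ (N : ℕ) (ρ : E N → ℝ) (K : Set (E N)), Dom ρ → KS ρ K →
  (PN ρ K → Tan ρ K) ∧ (Tan ρ K → ∀ p ∈ K, ∀ F : E N → ℂ, DifferentiableAt ℝ F p →
    (∀ᶠ z in 𝓝 p, z ∈ K → F z = 0) → ∀ w, av ρ p w = 0 →
      fderiv ℝ F p w = 0 ∧ ∑ j, w j * dz j F p = 0 ∧ ∑ j, conj (w j) * dzb j F p = 0)

/-- The four-point formula; sets with tangent discs carry no weight function. -/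
def StmtFP : Prop := ∀ N : ℕ,
  (∀ (f : E N → ℝ) (y w u : E N), ContDiffAt ℝ ∞ f y →
    Tendsto (fun r => S4 f y w u r / r ^ 2) (𝓝[≠] 0) (𝓝 (4 * (hess (cx f) y fun j => w j).re))) ∧
  ∀ (ρ : E N → ℝ) (K : Set (E N)), Dom ρ → KS ρ K → Tan ρ K → NoPhi ρ K

/-- Chords along the flow. -/
def StmtCH : Prop := ∀ (N : ℕ) (ρ : E N → ℝ) (K : Set (E N)), Dom ρ → KS ρ K → ∀ (p : E N)
  (r τ : ℝ) (L : ℝ≥0) (w : E N), closedBall p (2 * r) ⊆ Reg ρ → 0 < r →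
  (∀ z ∈ closedBall p (2 * r), av ρ z (nv ρ p) ≠ 0) →
  LipschitzOnWith L (Xf ρ (nv ρ p) w) (closedBall p (2 * r)) →
    ∃ C > 0, ∀ x y : ℝ → E N,
      (∀ t ∈ Icc 0 τ, HasDerivAt x (Xf ρ (nv ρ p) w (x t)) t ∧ x t ∈ K ∩ closedBall p r) →
      (∀ t ∈ Icc 0 τ, HasDerivAt y (Xf ρ (nv ρ p) w (y t)) t ∧ y t ∈ K ∩ closedBall p r) →
      ∀ t ∈ Icc 0 τ, ‖av ρ (x 0) (y 0 - x 0)‖ ≤ C * (‖av ρ (x t) (y t - x t)‖ + ‖y 0 - x 0‖ ^ 2)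

/-- The dichotomy. -/
def StmtD3 : Prop := ∀ (N : ℕ) (ρ : E N → ℝ) (K : Set (E N)), Dom ρ → MinK ρ K →
  Thick ρ K ∨ Thin ρ K

/-! ### The extension -/

/-- Flat functions. -/
def StmtFL : Prop := ∀ (N : ℕ) (K U : Set (E N)), IsOpen U → K ⊆ U →
  (∀ T F, Fl K T F → (∀ i ≤ T, Fl K i F) ∧ (∀ z ∈ K, F z = 0) ∧
    (∀ G, (∀ z ∈ K, F =ᶠ[𝓝 z] G) → Fl K T G) ∧
    (ContDiffOn ℝ ∞ F U → ∀ G, ContDiffOn ℝ ∞ G U → Fl K T (fun z => G z * F z) ∧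
      (Fl K T G → Fl K T (fun z => F z + G z) ∧ Fl K T fun z => F z - G z))) ∧
  (∀ T F, (∀ z ∈ K, F =ᶠ[𝓝 z] 0) → Fl K T F) ∧
  (∀ T (ι : Type) (s : Finset ι) (F : ι → E N → ℂ),
    (∀ i ∈ s, ContDiffOn ℝ ∞ (F i) U ∧ Fl K T (F i)) → Fl K T fun z => ∑ i ∈ s, F i z) ∧
  (∀ T F j, ContDiffOn ℝ ∞ F U → Fl K (T + 1) F → Fl K T (dz j F) ∧ Fl K T (dzb j F)) ∧
  (∀ T (s : E N → ℂ), ContDiffOn ℝ ∞ s U → (∀ z ∈ K, s z = 0) → Fl K T fun z => s z ^ (T + 1)) ∧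
  ∀ ρ : E N → ℝ, Dom ρ → U ⊆ Reg ρ → KS ρ K → Thick ρ K → ∀ (T : ℕ) (ι : Type) [Fintype ι]
    (m r : ι → E N → ℂ) (Z : ι → ι → E N → ℂ), (∀ i, ContDiffOn ℝ ∞ (m i) U) →
    (∀ i, ContDiffOn ℝ ∞ (r i) U) → (∀ i l, ContDiffOn ℝ ∞ (Z i l) U) →
    (∀ i, ∀ z ∈ K, m i z = 0) →
    (∀ i, ∀ z ∈ U, Lb (nn ρ) (m i) z = ∑ l, Z i l z * m l z + (ρ z : ℂ) ^ (T + 1) * r i z) →
      ∀ i, Fl K (T + 1) (m i)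

/-- The formal extension of `∂ρ`. -/
def StmtTK1 : Prop := ∀ (N : ℕ) (ρ : E N → ℝ), Dom ρ → ∀ T : ℕ,
  ∃ A R : Fin N → E N → ℂ, ∀ j, ContDiffOn ℝ ∞ (A j) (Reg ρ) ∧ ContDiffOn ℝ ∞ (R j) (Reg ρ) ∧
    Hom (Reg ρ) (-1) 0 (A j) ∧ (∀ z ∈ Reg ρ, Lb (nn ρ) (A j) z = (ρ z : ℂ) ^ T * R j z) ∧
    ∀ z ∈ Reg ρ, ρ z = 0 → A j z = dz j (cx ρ) z ∧ ∀ w, av ρ z w = 0 →
      ∑ k, conj (w k) * dzb k (A j) z = ∑ k, conj (w k) * dz j (dzb k (cx ρ)) z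

/-- The extension in the thick case. -/
def StmtTK2 : Prop := ∀ (N : ℕ) (ρ : E N → ℝ) (K : Set (E N)), Dom ρ → KS ρ K → Thick ρ K →
  ∀ T, ∃ U α, IsOpen U ∧ Cone U ∧ K ⊆ U ∧ Ext ρ K U T α

/-- Invariant cut-off functions. -/
def StmtCUT : Prop := ∀ (N : ℕ) (U : Set (E N)), IsOpen U → Cone U →
  (∀ p ∈ U, ∃ χ : E N → ℝ, ContDiffOn ℝ ∞ χ (E0 N) ∧ (∀ c : ℂ, c ≠ 0 → ∀ z, χ (c • z) = χ z) ∧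
    (∀ z, 0 ≤ χ z) ∧ 0 < χ p ∧ ∀ z, z ≠ 0 → z ∉ U → ∀ᶠ y in 𝓝 z, χ y = 0) ∧
  ∀ (ρ : E N → ℝ) (K : Set (E N)) (T : ℕ) (α : Fin N → E N → ℂ), KS ρ K → K ⊆ U →
    Ext ρ K U T α → ∃ α', Ext ρ K (E0 N) T α'

/-- In the thin case `K` is locally a holomorphic graph. -/
def StmtTH1 : Prop := ∀ (N : ℕ) (ρ : E N → ℝ) (K : Set (E N)), Dom ρ → KS ρ K → PN ρ K →
  Thin ρ K → ∀ p ∈ K, ∃ B f u, Graph ρ K p B f u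

/-- Division by the local equation. -/
def StmtTH2 : Prop := ∀ (N : ℕ) (ρ : E N → ℝ) (K : Set (E N)) (q : E N) (B : Set (E N))
  (f : E N → ℂ) (u : E N), q ∈ K → Graph ρ K q B f u → ∀ (B' : Set (E N)) (G : E N → ℂ),
    IsOpen B' → q ∈ B' → Hol B' G → (∀ z ∈ B' ∩ K, G z = 0) →
      ∃ (B'' : Set (E N)) (g : E N → ℂ), IsOpen B'' ∧ q ∈ B'' ∧ B'' ⊆ B ∩ B' ∧
        ContDiffOn ℝ ∞ g B'' ∧ ∀ z ∈ B'', G z = g z * f z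

/-- A global section of the ideal of `K`. -/
def StmtTH3 : Prop := ∀ (N : ℕ) (ρ : E N → ℝ) (K : Set (E N)), Dom ρ → KS ρ K →
  (∀ p ∈ K, ∃ B f u, Graph ρ K p B f u) →
    ∃ (s : E N → ℂ) (S : E N → ℝ), ContDiffOn ℝ ∞ s (E0 N) ∧ ContDiffOn ℝ ∞ S (E0 N) ∧
      (∀ c : ℂ, c ≠ 0 → ∀ z, s (c • z) = s z ∧ S (c • z) = S z) ∧ (∀ z ∈ K, 0 < S z) ∧
      ∀ q ∈ K, ∀ B f u, Graph ρ K q B f u → ∃ (B' : Set (E N)) (ψ : E N → ℂ), IsOpen B' ∧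
        q ∈ B' ∧ B' ⊆ B ∧ ContDiffOn ℝ ∞ ψ B' ∧ (∀ z ∈ B', s z = f z * ψ z) ∧
        ∀ z ∈ B' ∩ K, ψ z = S z * av ρ z u

/-- The extension in the thin case. -/
def StmtTH4 : Prop := ∀ (N : ℕ) (ρ : E N → ℝ) (K : Set (E N)), Dom ρ → KS ρ K → PN ρ K →
  Thin ρ K → ∀ T, ∃ U α, IsOpen U ∧ Cone U ∧ K ⊆ U ∧ Ext ρ K U T α

/-- Flat homogeneous functions are small near `K`. -/
def StmtFLB : Prop := ∀ (N : ℕ) (ρ : E N → ℝ) (K : Set (E N)) (T : ℕ) (α : Fin N → E N → ℂ),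
  KS ρ K → Ext ρ K (E0 N) T α → ∃ C, 0 ≤ C ∧ Van K T (d1 α) C

/-! ### The complement of `K` is pseudoconvex -/

/-- The pointwise inequality. -/
def StmtD5a : Prop := ∀ (N : ℕ) (ρ : E N → ℝ) (K : Set (E N)), Dom ρ → KS ρ K → PN ρ K →
  Tan ρ K → ∀ v : E N,
    (∀ᵐ x, 0 < infDist x K → ∀ η > 0, ∀ᶠ r in 𝓝[>] (0 : ℝ),
      -(η * r ^ 2) ≤ S4 (fun z => -Real.log (infDist z K)) x v 0 r) ∧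
    ∀ x r, 0 < r → r * ‖v‖ < infDist x K →
      -(2 * ‖v‖ ^ 2 / infDist x K ^ 2 * r ^ 2) ≤ S4 (fun z => -Real.log (infDist z K)) x v 0 r

/-- Mollification. -/
def StmtD5 : Prop := ∀ (N : ℕ) (ρ : E N → ℝ) (K : Set (E N)), Dom ρ → KS ρ K → PN ρ K →
  Tan ρ K → ∀ ε > 0, ∃ V, VE K ε V

/-! ### The weighted estimate -/

/-- Algebra of the curvature form. -/
def StmtQA : Prop := ∀ (N : ℕ) (z : E N),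
  (∀ φ : E N → ℝ, ContDiffAt ℝ ∞ φ z →
    (∀ δ : ℝ, (∀ L : Fin N → ℂ, δ * ∑ j, ‖L j‖ ^ 2 ≤ (hess (cx φ) z L).re) →
      ∀ x : Fin N → Fin N → ℂ, (∀ j k, x j k = -x k j) →
        δ * ((N : ℝ) - 2) * ∑ j, ∑ k, ‖x j k‖ ^ 2 ≤ QQ φ z x) ∧
    (∀ ψ : E N → ℝ, ContDiffAt ℝ ∞ ψ z → ∀ s t : ℝ,
      (∀ x, QQ (fun y => s * φ y + t * ψ y) z x = s * QQ φ z x + t * QQ ψ z x) ∧
      ∀ L, hess (cx fun y => s * φ y + t * ψ y) z L = s * hess (cx φ) z L + t * hess (cx ψ) z L) ∧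
    ∀ χ : ℝ → ℝ, ContDiffAt ℝ ∞ χ (φ z) → ∀ L, (hess (cx fun y => χ (φ y)) z L).re =
      deriv χ (φ z) * (hess (cx φ) z L).re +
        deriv (deriv χ) (φ z) * ‖∑ j, dz j (cx φ) z * L j‖ ^ 2) ∧
  (∀ L, hess (cx fun y : E N => ‖y‖ ^ 2) z L = (∑ j, ‖L j‖ ^ 2 : ℝ)) ∧
  (z ≠ 0 → ∀ x : Fin N → Fin N → ℂ, (∀ j k, x j k = -x k j) →
    ((N : ℝ) - 3) / ‖z‖ ^ 2 * ∑ j, ∑ k, ‖x j k‖ ^ 2 ≤ QQ (fun y => Real.log (‖y‖ ^ 2)) z x) ∧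
  (∀ r : E N → ℝ, DifferentiableAt ℝ r z → ∑ j, ‖dz j (cx r) z‖ ^ 2 ≤ ‖fderiv ℝ r z‖ ^ 2) ∧
  ∀ (γ : Fin N → ℂ) (x : Fin N → Fin N → ℂ), ∑ i, ∑ j, ∑ k, ‖w3 γ x i j k‖ ^ 2 ≤
    9 * (∑ i, ‖γ i‖ ^ 2) * ∑ j, ∑ k, ‖x j k‖ ^ 2

/-- The basic inequality for test forms. -/
def StmtH1 : Prop := ∀ (N : ℕ) (D : Set (E N)) (φ : E N → ℝ) (x : Fin N → Fin N → E N → ℂ),
  IsOpen D → (0 : E N) ∉ D → ContDiffOn ℝ ∞ φ D → (∀ j k, Test D (x j k)) →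
  (∀ j k z, x j k z = -x k j z) →
    ∫ z in D, QQ φ z (fun j k => x j k z) * Real.exp (-φ z) ≤
      1 / 3 * (∫ z in D, (∑ i, ∑ j, ∑ k,
        ‖dl φ i (x j k) z - dl φ j (x i k) z + dl φ k (x i j) z‖ ^ 2) * Real.exp (-φ z)) +
      2 * ∫ z in D, (∑ k, ‖∑ j, dzb j (x j k) z‖ ^ 2) * Real.exp (-φ z)

/-- The basic inequality for compactly supported forms with weak derivatives. -/
def StmtH1w : Prop := ∀ (N : ℕ) (D K : Set (E N)) (φ : E N → ℝ) (x : Fin N → Fin N → E N → ℂ)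
  (Y : Fin N → Fin N → Fin N → E N → ℂ) (s : Fin N → E N → ℂ), 1 ≤ N →
  IsOpen D → (0 : E N) ∉ D → IsCompact K → K ⊆ D → ContDiffOn ℝ ∞ φ D →
  (∀ j k, MemLp (x j k) 2 volume ∧ ∀ z ∉ K, x j k z = 0) → (∀ j k z, x j k z = -x k j z) →
  (∀ i j k, MemLp (Y i j k) 2 volume ∧ ∀ z ∉ K, Y i j k z = 0) →
  (∀ k, MemLp (s k) 2 volume ∧ ∀ z ∉ K, s k z = 0) → W3 D x Y → WS D x s →
    ∫ z in D, QQ φ z (fun j k => x j k z) * Real.exp (-φ z) ≤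
      1 / 3 * (∫ z in D, (∑ i, ∑ j, ∑ k,
        ‖Y i j k z - w3 (fun a => dz a (cx φ) z) (fun a b => x a b z) i j k‖ ^ 2) *
          Real.exp (-φ z)) +
      2 * ∫ z in D, (∑ k, ‖s k z‖ ^ 2) * Real.exp (-φ z)

/-- The three weights. -/
def StmtH2 : Prop := ∀ (N : ℕ) (D : Set (E N)) (p ψ m : E N → ℝ) (c : ℝ), 3 ≤ N → HD D p ψ m c →
  ∃ φ β χ A, TW D p ψ m c φ β χ A

/-- The a priori estimate. -/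
def StmtH4 : Prop := ∀ (N : ℕ) (D : Set (E N)) (p ψ m φ β : E N → ℝ) (c A : ℝ) (χ : ℕ → E N → ℝ)
  (x : Fin N → Fin N → E N → ℂ) (Y : Fin N → Fin N → Fin N → E N → ℂ), 1 ≤ N → HD D p ψ m c →
  TW D p ψ m c φ β χ A →
  (∀ j k, MemLp (fun z => x j k z * (Real.exp ((β z - φ z) / 2) : ℝ)) 2 (volume.restrict D)) →
  (∀ j k z, x j k z = -x k j z) → WS D x 0 → (∀ i j k, Test D (Y i j k)) →
  W3 D (fun j k z => x j k z * (Real.exp (β z - φ z) : ℝ)) Y →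
    ∫ z in D, m z * (∑ j, ∑ k, ‖x j k z‖ ^ 2) * Real.exp (β z - φ z) ≤
      8 / 3 * ∫ z in D, (∑ i, ∑ j, ∑ k, ‖Y i j k z‖ ^ 2) * Real.exp (φ z - 2 * β z)

/-- Hörmander's inequality. -/
def StmtH5 : Prop := ∀ (N : ℕ) (D : Set (E N)) (p ψ m : E N → ℝ) (c : ℝ)
  (R F : Fin N → Fin N → E N → ℂ), 3 ≤ N → HD D p ψ m c →
  (∀ j k, MemLp (R j k) 2 (volume.restrict D)) → (∀ j k z, R j k z = -R k j z) → WS D R 0 →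
  (∀ j k, Test {z | z ∈ D ∧ p z ≤ c - 1} (F j k)) → (∀ j k z, F j k z = -F k j z) →
    ‖∑ j, ∑ k, ∫ z in D, R j k z * F j k z‖ ^ 2 ≤
      16 * (∫ z in D, (∑ j, ∑ k, ‖R j k z‖ ^ 2) * (Real.exp (-ψ z) / m z)) *
        ∫ z in D, (∑ i, ∑ j, ∑ k, ‖d2 F i j k z‖ ^ 2) * Real.exp (ψ z)

/-! ### The measure and its current -/

/-- Hahn–Banach and Riesz–Markov. -/
def StmtMU : Prop := ∀ (N : ℕ) (ρ : E N → ℝ) (K : Set (E N)), Dom ρ → KS ρ K → NoPhi ρ K →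
  ∃ μ, Mu ρ K μ

/-- The inequality on `K`. -/
def StmtNUL : Prop := ∀ (N : ℕ) (ρ : E N → ℝ) (K : Set (E N)) (T : ℕ) (α : Fin N → E N → ℂ),
  Dom ρ → KS ρ K → Tan ρ K → Ext ρ K (E0 N) T α →
    SI ρ (fun z => Real.log (an ρ z * ‖z‖ ^ 2)) ∧ ∀ z ∈ K,
      ((N : ℝ) - 2) / ‖z‖ ^ 2 + 2 * (∑ l, ∑ k, PP ρ z l k * dz l (α k) z).re ≤
        trH ρ (fun z => Real.log (an ρ z * ‖z‖ ^ 2)) z

/-- The current `S`. -/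
def StmtS1 : Prop := ∀ (N : ℕ) (ρ : E N → ℝ) (K : Set (E N)) (μ : Measure (E N)), Dom ρ →
  KS ρ K → Mu ρ K μ →
    (∀ γ : Fin N → E N → ℂ, (∀ k, Dk (γ k)) →
      Integrable (fun p : E N × ℂ => sf ρ γ (p.2 • p.1)) (μ.prod volume) ∧
      ∀ γ' : Fin N → E N → ℂ, (∀ k, Dk (γ' k)) →
        Sf ρ μ (fun k z => γ k z + γ' k z) = Sf ρ μ γ + Sf ρ μ γ' ∧
        Sf ρ μ (fun k z => γ k z - γ' k z) = Sf ρ μ γ - Sf ρ μ γ') ∧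
    (∀ G : E N → ℂ, ContDiff ℝ ∞ G → (∀ k, Dk (dzb k G)) → Sf ρ μ (fun k => dzb k G) = 0) ∧
    ∀ (T : ℕ) (α : Fin N → E N → ℂ) (θ : ℝ → ℝ), Ext ρ K (E0 N) T α → ContDiff ℝ ∞ θ →
      Sf ρ μ (fun k z => (θ (‖z‖ ^ 2) : ℂ) * α k z) =
        (∫ z, ∑ l, ∑ k, PP ρ z l k * dz l (α k) z ∂μ) * (∫ c : ℂ, θ (‖c‖ ^ 2) / ‖c‖ ^ 2 : ℝ)

/-- Koppelman's formula; bounds for the potential. -/
def StmtS2 : Prop := ∀ (N : ℕ) (ρ : E N → ℝ) (K : Set (E N)) (μ : Measure (E N)), 2 ≤ N → Dom ρ →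
  KS ρ K → Mu ρ K μ →
    (∀ γ : Fin N → E N → ℂ, (∀ k, Tst (γ k)) → Sf ρ μ γ = Rf ρ μ (d1 γ)) ∧
    (∀ F F' : Fin N → Fin N → E N → ℂ, (∀ j k, Tst (F j k)) → (∀ j k, Tst (F' j k)) →
      Rf ρ μ (fun j k z => F j k z + F' j k z) = Rf ρ μ F + Rf ρ μ F' ∧
      Rf ρ μ (fun j k z => F j k z - F' j k z) = Rf ρ μ F - Rf ρ μ F') ∧
    (∀ F : Fin N → Fin N → E N → ℂ, (∀ j k, Tst (F j k)) → ∀ r : ℝ, 0 < r →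
      Rf ρ μ (fun j k z => ((r ^ 2 : ℝ) : ℂ) * F j k (r • z)) = Rf ρ μ F) ∧
    ∃ C : ℝ, 0 ≤ C ∧ ∀ (F : Fin N → Fin N → E N → ℂ) (b R : ℝ), (∀ j k, Tst (F j k)) → 1 ≤ R →
      (∀ j k z, ‖F j k z‖ ≤ b ∧ ‖fderiv ℝ (F j k) z‖ ≤ b ∧ (R < ‖z‖ → F j k z = 0)) →
        ‖Rf ρ μ F‖ ≤ C * b * R ^ 3

/-- The potential is a function off `K`. -/
def StmtS3 : Prop := ∀ (N : ℕ) (ρ : E N → ℝ) (K : Set (E N)) (μ : Measure (E N)), 2 ≤ N → Dom ρ →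
  KS ρ K → Mu ρ K μ → ∃ R C, 0 ≤ C ∧ RR ρ K μ R C

/-! ### The end of the proof -/

/-- Logarithmic integrals. -/
def StmtLOG : Prop :=
  (∀ N : ℕ, 1 ≤ N → ∃ C : ℝ, 0 ≤ C ∧ ∀ a b : ℝ, 0 < a → a ≤ b →
    IntegrableOn (fun z : E N => (‖z‖ ^ (2 * N))⁻¹) {z | a ≤ ‖z‖ ∧ ‖z‖ ≤ b} ∧
    ∫ z in {z : E N | a ≤ ‖z‖ ∧ ‖z‖ ≤ b}, (‖z‖ ^ (2 * N))⁻¹ ≤ C * Real.log (b / a)) ∧
  ContDiff ℝ ∞ cut ∧ (∀ s, 0 ≤ cut s ∧ cut s ≤ 1 ∧ (s ≤ 1 → cut s = 0) ∧ (2 ≤ s → cut s = 1) ∧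
    ((s < 1 ∨ 2 < s) → deriv cut s = 0)) ∧ (∃ C : ℝ, ∀ s, |deriv cut s| ≤ C) ∧
  ∃ C : ℝ, 0 ≤ C ∧ ∀ L : ℕ, ContDiff ℝ ∞ (thL L) ∧
    (∀ s, 0 ≤ thL L s ∧ thL L s ≤ 1 ∧
      (thL L s ≠ 0 → Real.exp (-(2 * L)) < s ∧ s < 2 * Real.exp (2 * L)) ∧
      |deriv (thL L) s * s| ≤ C ∧ (deriv (thL L) s ≠ 0 →
        s ∈ Icc (Real.exp (-(2 * L))) (2 * Real.exp (-(2 * L))) ∨
        s ∈ Icc (Real.exp (2 * L)) (2 * Real.exp (2 * L)))) ∧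
    (∀ N : ℕ, Test (E0 N) fun z => (thL L (‖z‖ ^ 2) : ℂ)) ∧
    (1 ≤ L → (L : ℝ) ≤ ∫ c : ℂ, thL L (‖c‖ ^ 2) / ‖c‖ ^ 2)

/-- The domain and the weights. -/
def StmtG1 : Prop := ∀ (N : ℕ) (ρ : E N → ℝ) (K : Set (E N)), 4 ≤ N → KS ρ K →
  (∀ ε > 0, ∃ V, VE K ε V) → ∃ C, 0 ≤ C ∧ ∀ L : ℕ, 2 ≤ L → ∃ χ D p ψ m c, Geo K C L χ D p ψ m c

/-- The main term is `O(√L)`. -/
def StmtG2 : Prop := ∀ (N : ℕ) (ρ : E N → ℝ) (K : Set (E N)) (μ : Measure (E N))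
  (α : Fin N → E N → ℂ) (R : Fin N → Fin N → E N → ℂ) (C₁ C₂ C₃ : ℝ), 4 ≤ N → 0 ≤ C₁ → 0 ≤ C₂ →
  0 ≤ C₃ → KS ρ K →
  (∀ k, ContDiffOn ℝ ∞ (α k) (E0 N)) → RR ρ K μ R C₁ → Van K (2 * N + 8) (d1 α) C₂ →
    ∃ C : ℝ, ∀ (L : ℕ) (χ : E N → ℝ) (D : Set (E N)) (p ψ m : E N → ℝ) (c : ℝ), 2 ≤ L →
      Geo K C₃ L χ D p ψ m c →
        ‖Rf ρ μ fun j k z => (χ z * thL L (‖z‖ ^ 2) : ℝ) * d1 α j k z‖ ^ 2 ≤ C * L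

/-- The term near `K` is bounded. -/
def StmtG3 : Prop := ∀ (N : ℕ) (ρ : E N → ℝ) (K : Set (E N)) (μ : Measure (E N))
  (α : Fin N → E N → ℂ) (C₂ C₃ : ℝ), 4 ≤ N → 0 ≤ C₂ → 0 ≤ C₃ → Dom ρ → KS ρ K → Mu ρ K μ →
  (∀ k, ContDiffOn ℝ ∞ (α k) (E0 N)) → Van K (2 * N + 8) (d1 α) C₂ →
    ∃ C : ℝ, ∀ (L : ℕ) (χ : E N → ℝ) (D : Set (E N)) (p ψ m : E N → ℝ) (c : ℝ), 2 ≤ L →
      Geo K C₃ L χ D p ψ m c →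
        ‖Rf ρ μ fun j k z => ((1 - χ z) * thL L (‖z‖ ^ 2) : ℝ) * d1 α j k z‖ ≤ C

/-- The pairing of `S` with the extension vanishes. -/
def StmtG4 : Prop := ∀ (N : ℕ) (ρ : E N → ℝ) (K : Set (E N)) (μ : Measure (E N))
  (α : Fin N → E N → ℂ), 4 ≤ N → Dom ρ → KS ρ K → PN ρ K → Tan ρ K → Mu ρ K μ →
  Ext ρ K (E0 N) (2 * N + 8) α → ∫ z, ∑ l, ∑ k, PP ρ z l k * dz l (α k) z ∂μ = 0

/-- Theorem D. -/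
def StmtD : Prop := ∀ (N : ℕ) (ρ : E N → ℝ), 4 ≤ N → Dom ρ → ∃ φ, PHI ρ φ

end Pool.Agent.MP_fcd29e_an.H81
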